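import Pool.Agent.H27.SY.Defs
import Pool.Agent.H59.SP.ExAdm

/-!
# Sperner partitions: the base partition is admissible (project SY, row SY-22)
-/

set_option autoImplicit false

open MeasureTheory Metric Set Filter Module
open scoped Topology MeasureTheory RealInnerProductSpace Nat Pointwise

namespace SY

open SP SP.Mea SX

private lemma ba_pair {d k : ℕ} (hk : k = 2 * d) (i : Fin k) :
    ∃ j : Fin k, j ≠ i ∧ j.val / 2 = i.val / 2 ∧ ∀ x : V k, ps x (i.val / 2) = x i + x j := by
  have hi := i.isLt
  obtain ⟨j, hj1, hj2⟩ : ∃ j : Fin k, j.val ≠ i.val ∧ j.val / 2 = i.val / 2 := by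
    rcases Nat.mod_two_eq_zero_or_one i.val with h | h
    · exact ⟨⟨i.val + 1, by omega⟩, by simp, by simp only; omega⟩
    · exact ⟨⟨i.val - 1, by omega⟩, by simp only; omega, by simp only; omega⟩
  have hne : j ≠ i := fun h => hj1 (by rw [h])
  refine ⟨j, hne, hj2, fun x => ?_⟩
  unfold ps
  rw [← Finset.sum_filter]
  have h1 : (Finset.univ.filter fun s : Fin k => s.val / 2 = i.val / 2) = {i, j} := by
    ext s
    simp only [Finset.mem_filter, Finset.mem_univ, true_and, Finset.mem_insert,
      Finset.mem_singleton, Fin.ext_iff]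
    omega
  rw [h1, Finset.sum_pair hne.symm]

private lemma ba_sum {d k : ℕ} (hk : k = 2 * d) (x : V k) :
    ∑ b ∈ Finset.range d, ps x b = ∑ i, x i := by
  unfold ps
  rw [Finset.sum_comm]
  refine Finset.sum_congr rfl fun i _ => ?_
  have hi := i.isLt
  rw [Finset.sum_ite_eq, if_pos (Finset.mem_range.2 (by omega))]

private lemma ba_nonneg {k : ℕ} {x : V k} (hx : x ∈ Sx k) (a : ℕ) : 0 ≤ ps x a := by
  unfold ps
  refine Finset.sum_nonneg fun i _ => ?_
  split_ifs
  · exact hx.1 i
  · exact le_rfl

private lemma ba_ps_cont {k : ℕ} (a : ℕ) : Continuous fun x : V k => ps x a := by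
  unfold ps
  refine continuous_finsetSum _ fun i _ => ?_
  split_ifs
  · fun_prop
  · exact continuous_const

private lemma ba_bf_cont {k : ℕ} (d : ℕ) (δ : ℝ) (i : Fin k) :
    Continuous fun x : V k => bf d δ x i := by
  have h := fun a : ℕ => ba_ps_cont (k := k) a
  unfold bf ud ta hh
  have h1 : Continuous fun x : V k => ∑ b ∈ Finset.range d, max (δ - ps x b) 0 :=
    continuous_finsetSum _ fun b _ => (continuous_const.sub (h b)).max continuous_const
  have h2 : Continuous fun x : V k => max (δ - ps x (i.val / 2)) 0 :=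
    (continuous_const.sub (h _)).max continuous_const
  have h3 : Continuous fun x : V k => x i := by fun_prop
  exact ((continuous_const.mul h3).sub (h _)).sub
    ((continuous_const.mul h1).add (continuous_const.mul h2))

private lemma ba_hh_le {k : ℕ} (d : ℕ) {δ : ℝ} (h0 : 0 < δ) {x : V k} (hx : x ∈ Sx k) :
    hh d δ x ≤ d * δ := by
  unfold hh
  refine (Finset.sum_le_card_nsmul _ _ δ fun b _ => ?_).trans ?_
  · have := ba_nonneg hx b
    exact max_le (by linarith) h0.le
  · rw [Finset.card_range, nsmul_eq_mul]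

private lemma ba_hh_nonneg {k : ℕ} (d : ℕ) (δ : ℝ) (x : V k) : 0 ≤ hh d δ x :=
  Finset.sum_nonneg fun _ _ => le_max_right _ _

private lemma ba_closed {k : ℕ} (d : ℕ) (δ : ℝ) (i : Fin k) : IsClosed (bA d k δ i) := by
  have h1 : {x : V k | ∀ l, bf d δ x l ≤ bf d δ x i} = ⋂ l, {x : V k | bf d δ x l ≤ bf d δ x i} := by
    ext x; simp
  have h2 : IsClosed {x : V k | ∀ l, bf d δ x l ≤ bf d δ x i} := by
    rw [h1]
    exact isClosed_iInter fun l => isClosed_le (ba_bf_cont d δ l) (ba_bf_cont d δ i)
  exact (exAdm_Sx_closed k).inter h2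

private lemma ba_pos {d k : ℕ} (hd : 2 ≤ d) (hk : k = 2 * d) {δ : ℝ} (h0 : 0 < δ)
    (h1 : δ * d < 1) {i : Fin k} {x : V k} (hx : x ∈ bA d k δ i) : 0 < x i := by
  obtain ⟨hxS, hmax⟩ := hx
  rcases (hxS.1 i).lt_or_eq with h | h
  · exact h
  exfalso
  obtain ⟨j, -, hj, hps⟩ := ba_pair hk i
  have hpi := hps x
  rw [← h, zero_add] at hpi
  have hbi : bf d δ x i = -(x j) - ta d δ x (i.val / 2) := by
    unfold bf ud
    rw [← h, hpi]
    ring
  have hbj : bf d δ x j = x j - ta d δ x (i.val / 2) := by
    unfold bf ud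
    rw [hj, hpi]
    ring
  have h2 := hmax j
  rw [hbi, hbj] at h2
  have hxj : x j = 0 := le_antisymm (by linarith) (hxS.1 j)
  rw [hxj] at hpi
  -- a pair with large mass
  have hdR : (0 : ℝ) < d := by
    have : 0 < d := by omega
    exact_mod_cast this
  obtain ⟨b, hb, hpb⟩ := Finset.exists_le_of_sum_le (s := Finset.range d)
    (f := fun _ => (1 : ℝ) / d) (g := fun b => ps x b) ⟨0, Finset.mem_range.2 (by omega)⟩ (by
      rw [ba_sum hk x, hxS.2, Finset.sum_const, Finset.card_range, nsmul_eq_mul]
      exact (mul_one_div_cancel hdR.ne').le)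
  rw [Finset.mem_range] at hb
  have hδ : δ < 1 / d := by
    rw [lt_div_iff₀ hdR]
    exact h1
  -- a place of this pair
  obtain ⟨l, hl, hul⟩ : ∃ l : Fin k, l.val / 2 = b ∧ 0 ≤ ud x l := by
    let l0 : Fin k := ⟨2 * b, by omega⟩
    have hl0 : l0.val / 2 = b := by simp only [l0]; omega
    obtain ⟨j0, -, hj0, hps0⟩ := ba_pair hk l0
    rw [hl0] at hj0
    rcases le_total (x l0) (x j0) with h3 | h3
    · refine ⟨j0, hj0, ?_⟩
      unfold ud
      rw [hj0, ← hl0, hps0]
      linarith
    · refine ⟨l0, hl0, ?_⟩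
      unfold ud
      rw [hps0]
      linarith
  have h3 := hmax l
  have hm0 : max (δ - ps x b) 0 = 0 := max_eq_right (by linarith)
  have hma : max (δ - ps x (i.val / 2)) 0 = δ := by
    rw [hpi, sub_zero]
    exact max_eq_left h0.le
  rw [hbi, hxj] at h3
  unfold bf ta at h3
  rw [hl, hm0, hma] at h3
  have hH := ba_hh_le d h0 hxS
  have hH0 := ba_hh_nonneg d δ x
  have hbd : ((b : ℝ) + 1) / ((d : ℝ) + 1) ≤ 1 := by
    rw [div_le_one (by linarith)]
    have : (b : ℝ) ≤ d := by exact_mod_cast hb.le
    linarith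
  have h4 : ((b : ℝ) + 1) / ((d : ℝ) + 1) * hh d δ x ≤ 1 * hh d δ x :=
    mul_le_mul_of_nonneg_right hbd hH0
  have h5 : 0 ≤ (((i.val / 2 : ℕ) : ℝ) + 1) / ((d : ℝ) + 1) * hh d δ x := by positivity
  nlinarith

/-- the moved point -/
private noncomputable def ba_mv {k : ℕ} (x : V k) (i l : Fin k) (t : ℝ) : V k :=
  WithLp.toLp 2 (fun s => x s + t * ((if s = l then 1 else 0) - (if s = i then 1 else 0)))

private lemma ba_mv_apply {k : ℕ} (x : V k) (i l : Fin k) (t : ℝ) (s : Fin k) :
    ba_mv x i l t s = x s + t * ((if s = l then 1 else 0) - (if s = i then 1 else 0)) := rfl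

private lemma ba_mv_ps {k : ℕ} (x : V k) (i l : Fin k) (t : ℝ) (c : ℕ) :
    ps (ba_mv x i l t) c = ps x c +
      t * ((if l.val / 2 = c then 1 else 0) - (if i.val / 2 = c then 1 else 0)) := by
  unfold ps
  have h : ∀ s : Fin k, (if s.val / 2 = c then ba_mv x i l t s else 0) =
      (if s.val / 2 = c then x s else 0) +
        t * ((if s = l then (if l.val / 2 = c then 1 else 0) else 0) -
          (if s = i then (if i.val / 2 = c then 1 else 0) else 0)) := by
    intro s
    rw [ba_mv_apply]
    by_cases h1 : s = l <;> by_cases h2 : s = i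
    · subst h1; subst h2
      simp
    · subst h1
      by_cases h3 : s.val / 2 = c <;> simp [h2, h3]
    · subst h2
      by_cases h3 : s.val / 2 = c <;> simp [h1, h3]
    · by_cases h3 : s.val / 2 = c <;> simp [h1, h2, h3]
  rw [Finset.sum_congr rfl fun s _ => h s, Finset.sum_add_distrib, ← Finset.mul_sum,
    Finset.sum_sub_distrib, Finset.sum_ite_eq', Finset.sum_ite_eq']
  simp

private lemma ba_mv_mem {k : ℕ} {x : V k} (hx : x ∈ Sx k) {i l : Fin k} (hil : i ≠ l) {t : ℝ}
    (ht0 : 0 ≤ t) (ht : t ≤ x i) : ba_mv x i l t ∈ Sx k := by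
  refine ⟨fun s => ?_, ?_⟩
  · rw [ba_mv_apply]
    have hs := hx.1 s
    by_cases h1 : s = l <;> by_cases h2 : s = i
    · exact absurd (h2.symm.trans h1) hil
    · simp [h1, h2]
      subst h1
      simp [h2]
      linarith
    · subst h2
      simp [h1]
      linarith
    · simp [h1, h2, hs]
  · simp only [ba_mv_apply]
    rw [Finset.sum_add_distrib, ← Finset.mul_sum, Finset.sum_sub_distrib, Finset.sum_ite_eq',
      Finset.sum_ite_eq', hx.2]
    simp

private lemma ba_key {d k : ℕ} (hk : k = 2 * d) {δ : ℝ} {x : V k} {i l : Fin k}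
    (hil : i ≠ l) {t : ℝ} (ht : 0 < t) (heq : bf d δ x i = bf d δ x l) :
    bf d δ (ba_mv x i l t) i < bf d δ (ba_mv x i l t) l := by
  set x' := ba_mv x i l t with hx'
  have hps := ba_mv_ps x i l t
  rw [← hx'] at hps
  have hxi : x' i = x i - t := by
    rw [hx', ba_mv_apply, if_neg hil, if_pos rfl]
    ring
  have hxl : x' l = x l + t := by
    rw [hx', ba_mv_apply, if_pos rfl, if_neg hil.symm]
    ring
  by_cases hpair : i.val / 2 = l.val / 2
  · have hps' : ∀ c, ps x' c = ps x c := by
      intro c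
      rw [hps, hpair]
      ring
    have hta : ∀ a, ta d δ x' a = ta d δ x a := by
      intro a
      unfold ta hh
      simp only [hps']
    unfold bf ud at heq ⊢
    rw [hta, hta, hps', hps', hxi, hxl]
    linarith
  · have hpa : ps x' (i.val / 2) = ps x (i.val / 2) - t := by
      rw [hps, if_neg (fun h => hpair h.symm), if_pos rfl]
      ring
    have hpb : ps x' (l.val / 2) = ps x (l.val / 2) + t := by
      rw [hps, if_pos rfl, if_neg hpair]
      ring
    have hpc : ∀ c, c ≠ i.val / 2 → c ≠ l.val / 2 → ps x' c = ps x c := by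
      intro c h1 h2
      rw [hps, if_neg (Ne.symm h2), if_neg (Ne.symm h1)]
      ring
    set a := i.val / 2 with ha
    set b := l.val / 2 with hb
    have had : a < d := by have := i.isLt; omega
    have hbd : b < d := by have := l.isLt; omega
    set Da := max (δ - ps x' a) 0 - max (δ - ps x a) 0 with hDa
    set Db := max (δ - ps x' b) 0 - max (δ - ps x b) 0 with hDb
    have hDa0 : 0 ≤ Da := by
      have : max (δ - ps x a) 0 ≤ max (δ - ps x' a) 0 :=
        max_le_max (by rw [hpa]; linarith) le_rfl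
      rw [hDa]; linarith
    have hDat : Da ≤ t := by
      have : max (δ - ps x' a) 0 ≤ max (δ - ps x a) 0 + t := by
        apply max_le
        · rw [hpa]
          have := le_max_left (δ - ps x a) 0
          linarith
        · have := le_max_right (δ - ps x a) 0
          linarith
      rw [hDa]; linarith
    have hDb0 : Db ≤ 0 := by
      have : max (δ - ps x' b) 0 ≤ max (δ - ps x b) 0 :=
        max_le_max (by rw [hpb]; linarith) le_rfl
      rw [hDb]; linarith
    have hDbt : -t ≤ Db := by
      have : max (δ - ps x b) 0 ≤ max (δ - ps x' b) 0 + t := by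
        apply max_le
        · rw [hpb]
          have := le_max_left (δ - (ps x b + t)) 0
          linarith
        · have := le_max_right (δ - ps x' b) 0
          linarith
      rw [hDb]; linarith
    have hh' : hh d δ x' = hh d δ x + (Da + Db) := by
      unfold hh
      have h1 : ∀ c ∈ Finset.range d, max (δ - ps x' c) 0 = max (δ - ps x c) 0 +
          ((if c = a then Da else 0) + (if c = b then Db else 0)) := by
        intro c _
        by_cases h1 : c = a
        · subst h1
          rw [if_pos rfl, if_neg hpair, hDa]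
          ring
        · by_cases h2 : c = b
          · subst h2
            rw [if_pos rfl, if_neg h1, hDb]
            ring
          · rw [if_neg h1, if_neg h2, hpc c h1 h2]
            ring
      rw [Finset.sum_congr rfl h1, Finset.sum_add_distrib, Finset.sum_add_distrib,
        Finset.sum_ite_eq', Finset.sum_ite_eq', if_pos (Finset.mem_range.2 had),
        if_pos (Finset.mem_range.2 hbd)]
    have hma : max (δ - ps x' a) 0 = max (δ - ps x a) 0 + Da := by rw [hDa]; ring
    have hmb : max (δ - ps x' b) 0 = max (δ - ps x b) 0 + Db := by rw [hDb]; ring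
    have hD : (0 : ℝ) < (d : ℝ) + 1 := by positivity
    set α := ((a : ℝ) + 1) / ((d : ℝ) + 1) with hα
    set β := ((b : ℝ) + 1) / ((d : ℝ) + 1) with hβ
    have hα0 : 0 ≤ α := by positivity
    have hβ0 : 0 ≤ β := by positivity
    have hα1 : α ≤ 1 := by
      rw [hα, div_le_one hD]
      have : (a : ℝ) ≤ d := by exact_mod_cast had.le
      linarith
    have hβ1 : β ≤ 1 := by
      rw [hβ, div_le_one hD]
      have : (b : ℝ) ≤ d := by exact_mod_cast hbd.le
      linarith
    have hcore : (β - α) * (Da + Db) ≤ t := by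
      have h1 : |β - α| ≤ 1 := by
        rw [abs_le]
        constructor <;> linarith
      have h2 : |Da + Db| ≤ t := by
        rw [abs_le]
        constructor <;> linarith
      calc (β - α) * (Da + Db) ≤ |(β - α) * (Da + Db)| := le_abs_self _
        _ = |β - α| * |Da + Db| := abs_mul _ _
        _ ≤ 1 * t := mul_le_mul h1 h2 (abs_nonneg _) zero_le_one
        _ = t := one_mul t
    unfold bf ud ta at heq ⊢
    rw [← ha, ← hb] at heq ⊢
    rw [hxi, hxl, hpa, hpb, hh'] 
    rw [hpa] at hma
    rw [hpb] at hmb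
    rw [hma, hmb]
    have h6 : ((d : ℝ) + 1) * Db ≤ 0 := mul_nonpos_of_nonneg_of_nonpos hD.le hDb0
    have h7 : 0 ≤ ((d : ℝ) + 1) * Da := mul_nonneg hD.le hDa0
    nlinarith

theorem base_adm {d k : ℕ} (hd : 2 ≤ d) (hk : k = 2 * d) {δ : ℝ} (h0 : 0 < δ)
    (h1 : δ * d < 1) : Adm k (bA d k δ) where
  closed i := ba_closed d δ i
  cover := by
    apply Set.Subset.antisymm
    · exact Set.iUnion_subset fun i x hx => hx.1
    · intro x hx
      obtain ⟨i, -, hi⟩ := Finset.exists_max_image (Finset.univ : Finset (Fin k))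
        (fun i => bf d δ x i) ⟨⟨0, by omega⟩, Finset.mem_univ _⟩
      exact Set.mem_iUnion.2 ⟨i, hx, fun l => hi l (Finset.mem_univ l)⟩
  pos i x hx := ba_pos hd hk h0 h1 hx
  overlap i l hil := by
    rintro x ⟨hxi, hxl⟩
    have hpos := ba_pos hd hk h0 h1 hxi
    have heq : bf d δ x i = bf d δ x l := le_antisymm (hxl.2 i) (hxi.2 l)
    have hcont : Continuous fun t : ℝ => ba_mv x i l t := by
      unfold ba_mv
      refine (PiLp.continuous_toLp 2 _).comp (continuous_pi fun s => ?_)
      exact continuous_const.add (continuous_id.mul continuous_const)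
    have h00 : ba_mv x i l 0 = x := by
      ext s
      rw [ba_mv_apply]
      ring
    have hlim : Tendsto (fun t : ℝ => ba_mv x i l t) (𝓝[>] 0) (𝓝 x) := by
      have := hcont.tendsto 0
      rw [h00] at this
      exact this.mono_left nhdsWithin_le_nhds
    refine mem_closure_of_tendsto hlim ?_
    have hev : ∀ᶠ t in 𝓝[>] (0 : ℝ), t ∈ Ioo 0 (x i) := Ioo_mem_nhdsGT hpos
    filter_upwards [hev] with t ht
    refine ⟨ba_mv_mem hxi.1 hil ht.1.le ht.2.le, fun hmem => ?_⟩
    exact absurd (hmem.2 l) (not_le.2 (ba_key hk hil ht.1 heq))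

end SY
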