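import Mathlib
import Pool.Agent.H27.SX.Defs

/-!
# Sperner partitions: the set where at least `d + 1` parts meet, `k = d + m + 1`.
Definitions (project SY)
-/

set_option autoImplicit false

open MeasureTheory Metric Set Filter Module
open scoped Topology MeasureTheory RealInnerProductSpace Nat Pointwise

namespace SY

open SP SP.Mea SX

/-! ### algebra -/

section Alg

variable {F : Type} [Field F] {k m d : ℕ}

/-- the linear form with the coefficients `c s` -/
noncomputable def lf (c : Fin k → Fin (m + 1) → F) (s : Fin k) : MvPolynomial (Fin (m + 1)) F :=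
  ∑ i, MvPolynomial.C (c s i) * MvPolynomial.X i

/-- the product of the forms with the exponents `x` -/
noncomputable def mo (c : Fin k → Fin (m + 1) → F) (x : Fin k → ℕ) : MvPolynomial (Fin (m + 1)) F :=
  ∏ s, lf c s ^ x s

/-- the rank of a set of exponents -/
noncomputable def rkc (c : Fin k → Fin (m + 1) → F) (W : Finset (Fin k → ℕ)) : ℕ :=
  finrank F (Submodule.span F (mo c '' (W : Set (Fin k → ℕ))))

/-- the first `m + 1` forms are the variables -/
def Vars (c : Fin k → Fin (m + 1) → F) : Prop :=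
  ∀ (s : Fin k) (i : Fin (m + 1)), s.val < m + 1 → c s i = if s.val = i.val then 1 else 0

/-- the forms satisfy `d` relations -/
def Rels (d : ℕ) (ξ : Fin k → F) (c : Fin k → Fin (m + 1) → F) : Prop :=
  ∀ r < d, ∀ i, ∑ s, ξ s ^ r * c s i = 0

/-- the hypotheses of the spanning theorem -/
structure Hyp (d N : ℕ) (ξ : Fin k → F) (W : Set (Fin k → ℕ)) (c : (Fin k → ℕ) → Fin k)
    (u : (Fin k → ℕ) → F) : Prop where
  h1 : ∀ x, ∑ s, x s = N → x ∉ W → 1 ≤ x (c x)
  h2 : ∀ y : Fin k → ℕ, ∑ s, y s + d = N → ∃ Γ : Finset (Fin k), Γ.card ≤ d ∧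
    ∀ z : Fin k → ℕ, ∑ s, z s = d → y + z ∉ W → c (y + z) ∈ Γ
  h3 : ∀ y : Fin k → ℕ, ∑ s, y s + 1 = N → ∀ r < d, ∑ s, ξ s ^ r * u (y + ee s) = 0
  h4 : ∀ x, ∑ s, x s = N → x ∈ W → u x = 0

/-- the unit vector in `ℤ^k` -/
def ez (s : Fin k) : Fin k → ℤ := Pi.single s 1

/-- the points of `ℤ^k` which are nonnegative outside `I` -/
def ZC (I : Finset (Fin k)) : Set (Fin k → ℤ) := {y | ∀ n ∉ I, 0 ≤ y n}

section Ops

variable {M : Type} [AddCommGroup M] [Module F M]

/-- bounded above support -/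
def Bd (f : (Fin k → ℤ) → M) : Prop := ∃ B : ℤ, ∀ x, f x ≠ 0 → ∀ n, x n ≤ B

/-- the difference operator -/
def Lo (α : Fin k → F) (f : (Fin k → ℤ) → M) : (Fin k → ℤ) → M :=
  fun y => ∑ s, α s • f (y + ez s)

end Ops

/-- the exterior algebra -/
abbrev Lam (F : Type) [Field F] (d : ℕ) : Type := ExteriorAlgebra F (Fin d → F)

/-- the evaluation form at the node `ξ s` -/
noncomputable def Th (d : ℕ) (ξ : Fin k → F) (s : Fin k) : Lam F d :=
  ExteriorAlgebra.ι F (fun r : Fin d => ξ s ^ r.val)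

/-- the value at the node `ξ s` of the polynomial with the coefficients `a` -/
def ev (a : Fin d → F) (ξ : Fin k → F) (s : Fin k) : F := ∑ r : Fin d, a r * ξ s ^ r.val

/-- the contraction with `a` -/
noncomputable def co (a : Fin d → F) : Lam F d →ₗ[F] Lam F d :=
  CliffordAlgebra.contractLeft (Q := (0 : QuadraticForm F (Fin d → F)))
    (∑ r : Fin d, a r • (LinearMap.proj r : (Fin d → F) →ₗ[F] F))

/-- the differential -/
noncomputable def DD (ξ : Fin k → F) (f : (Fin k → ℤ) → Lam F d) : (Fin k → ℤ) → Lam F d :=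
  fun y => ∑ s, Th d ξ s * f (y + ez s)

end Alg

/-! ### the base partition, `k = 2 d` -/

/-- the mass of the pair `a` -/
noncomputable def ps {k : ℕ} (x : V k) (a : ℕ) : ℝ := ∑ i : Fin k, if i.val / 2 = a then x i else 0

/-- the coordinate minus the coordinate of the partner -/
noncomputable def ud {k : ℕ} (x : V k) (i : Fin k) : ℝ := 2 * x i - ps x (i.val / 2)

/-- the defect -/
noncomputable def hh {k : ℕ} (d : ℕ) (δ : ℝ) (x : V k) : ℝ :=
  ∑ b ∈ Finset.range d, max (δ - ps x b) 0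

/-- the correction -/
noncomputable def ta {k : ℕ} (d : ℕ) (δ : ℝ) (x : V k) (a : ℕ) : ℝ :=
  ((a : ℝ) + 1) / ((d : ℝ) + 1) * hh d δ x + ((d : ℝ) + 1) * max (δ - ps x a) 0

/-- the functions of the partition -/
noncomputable def bf {k : ℕ} (d : ℕ) (δ : ℝ) (x : V k) (i : Fin k) : ℝ :=
  ud x i - ta d δ x (i.val / 2)

/-- the base partition -/
def bA (d k : ℕ) (δ : ℝ) (i : Fin k) : Set (V k) := {x | x ∈ Sx k ∧ ∀ l, bf d δ x l ≤ bf d δ x i}

/-- the simplex spanned by the centroids of `d` pairs and the other vertices -/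
def DK (m d : ℕ) : Set (V (d + m + 1)) :=
  {x | x ∈ Sx (d + m + 1) ∧ ∀ i j : Fin (d + m + 1), i.val % 2 = 0 → j.val = i.val + 1 →
    j.val < 2 * d → x i = x j}

/-- good partitions -/
def Good (m d : ℕ) (η : ℝ) : Prop := ∃ A : Fin (d + m + 1) → Set (V (d + m + 1)),
  Adm (d + m + 1) A ∧
  (∀ r q, 1 ≤ r → r ≤ d + 1 → r + q = d + m + 1 →
    Planar (d + m + 1) q (meet (d + m + 1) A r)) ∧
  μHE[m] (meet (d + m + 1) A (d + 1) \ DK m d) ≤ ENNReal.ofReal η

end SY
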