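import Mathlib
import Pool.Agent.H27.SY.Defs

/-!
# Where at least `d + 1` parts of the base partition meet (SY-23)
-/

set_option autoImplicit false

open MeasureTheory Metric Set Filter Module
open scoped Topology MeasureTheory RealInnerProductSpace Nat Pointwise

namespace SY

open SP SP.Mea SX

namespace BaseLocAux

variable {k d : ℕ}

/-- the mass of a pair is the sum of the two coordinates -/
theorem ps_pair (x : V k) {i l : Fin k} (h : i.val / 2 = l.val / 2) (hil : i ≠ l) :
    ps x (i.val / 2) = x i + x l := by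
  classical
  have h1 : ∀ j : Fin k, (if j.val / 2 = i.val / 2 then x j else 0) =
      (if j = i then x i else 0) + (if j = l then x l else 0) := by
    intro j
    have hne : i.val ≠ l.val := fun e => hil (Fin.ext e)
    by_cases hji : j = i
    · subst hji
      rw [if_pos rfl, if_pos rfl, if_neg hil, add_zero]
    · by_cases hjl : j = l
      · subst hjl
        rw [if_pos h.symm, if_neg hji, if_pos rfl, zero_add]
      · have e1 : j.val ≠ i.val := fun e => hji (Fin.ext e)
        have e2 : j.val ≠ l.val := fun e => hjl (Fin.ext e)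
        rw [if_neg (by omega), if_neg hji, if_neg hjl, add_zero]
  unfold ps
  rw [Finset.sum_congr rfl fun j _ => h1 j, Finset.sum_add_distrib, Finset.sum_ite_eq',
    Finset.sum_ite_eq', if_pos (Finset.mem_univ _), if_pos (Finset.mem_univ _)]

theorem ps_nonneg {x : V k} (hx : x ∈ Sx k) (a : ℕ) : 0 ≤ ps x a :=
  Finset.sum_nonneg fun i _ => by
    split_ifs
    · exact hx.1 i
    · exact le_rfl

/-- the partner -/
theorem exists_partner (hk : k = 2 * d) (i : Fin k) : ∃ l : Fin k, i.val / 2 = l.val / 2 ∧ i ≠ l := by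
  have hi := i.isLt
  rcases Nat.mod_two_eq_zero_or_one i.val with h | h
  · exact ⟨⟨i.val + 1, by omega⟩, by simp only; omega, fun e => by
      have := congrArg Fin.val e
      simp only at this
      omega⟩
  · exact ⟨⟨i.val - 1, by omega⟩, by simp only; omega, fun e => by
      have := congrArg Fin.val e
      simp only at this
      omega⟩

theorem ud_partner (x : V k) {i l : Fin k} (h : i.val / 2 = l.val / 2) (hil : i ≠ l) :
    ud x l = - ud x i := by
  have h1 := ps_pair x h hil
  unfold ud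
  rw [← h, h1]
  ring

theorem hh_nonneg (δ : ℝ) (x : V k) : 0 ≤ hh d δ x :=
  Finset.sum_nonneg fun _ _ => le_max_right _ _

theorem ta_nonneg (δ : ℝ) (x : V k) (a : ℕ) : 0 ≤ ta d δ x a := by
  unfold ta
  have h1 := hh_nonneg (d := d) δ x
  have h2 : 0 ≤ max (δ - ps x a) 0 := le_max_right _ _
  positivity

theorem hh_le {δ : ℝ} (h0 : 0 < δ) {x : V k} (hx : x ∈ Sx k) : hh d δ x ≤ (d : ℝ) * δ := by
  unfold hh
  calc ∑ b ∈ Finset.range d, max (δ - ps x b) 0 ≤ ∑ _b ∈ Finset.range d, δ :=
        Finset.sum_le_sum fun b _ => max_le (by linarith [ps_nonneg hx b]) h0.le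
    _ = (d : ℝ) * δ := by rw [Finset.sum_const, Finset.card_range, nsmul_eq_mul]

theorem ta_le {δ : ℝ} (h0 : 0 < δ) {x : V k} (hx : x ∈ Sx k) {a : ℕ} (ha : a < d) :
    ta d δ x a ≤ (2 * (d : ℝ) + 1) * δ := by
  unfold ta
  have h1 := hh_le (d := d) h0 hx
  have h1' := hh_nonneg (d := d) δ x
  have h2 : max (δ - ps x a) 0 ≤ δ := max_le (by linarith [ps_nonneg hx a]) h0.le
  have hd : (0 : ℝ) < (d : ℝ) + 1 := by positivity
  have h3 : ((a : ℝ) + 1) / ((d : ℝ) + 1) ≤ 1 := by
    rw [div_le_one hd]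
    have : (a : ℝ) < d := by exact_mod_cast ha
    linarith
  have h4 : ((a : ℝ) + 1) / ((d : ℝ) + 1) * hh d δ x ≤ 1 * hh d δ x :=
    mul_le_mul_of_nonneg_right h3 h1'
  have h5 : ((d : ℝ) + 1) * max (δ - ps x a) 0 ≤ ((d : ℝ) + 1) * δ :=
    mul_le_mul_of_nonneg_left h2 hd.le
  nlinarith

end BaseLocAux

open BaseLocAux in
theorem base_loc {d k : ℕ} (hd : 2 ≤ d) (hk : k = 2 * d) {δ : ℝ} (h0 : 0 < δ) {x : V k}
    (hx : x ∈ meet k (bA d k δ) (d + 1)) (hx2 : ∃ i, ud x i ≠ 0) :
    (∀ i, |ud x i| ≤ (2 * (d : ℝ) + 1) * δ) ∧ ∃ a < d, ps x a ≤ δ := by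
  classical
  obtain ⟨I, hI, hxI⟩ := hx
  -- two indices in one pair
  obtain ⟨i, hi, l, hl, hil, hpair⟩ := Finset.exists_ne_map_eq_of_card_lt_of_maps_to
    (s := I) (t := Finset.range d) (f := fun i : Fin k => i.val / 2)
    (by rw [Finset.card_range]; omega)
    (by
      intro i _
      have := i.isLt
      simp only [Finset.coe_range, mem_Iio]
      omega)
  have hpair : i.val / 2 = l.val / 2 := hpair
  have hxi := hxI i hi
  have hxl := hxI l hl
  have hS : x ∈ Sx k := hxi.1
  have h1 : bf d δ x i = bf d δ x l := le_antisymm (hxl.2 i) (hxi.2 l)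
  have h2 := ud_partner x hpair hil
  have h3 : ud x i = 0 := by
    unfold bf at h1
    rw [← hpair, h2] at h1
    linarith
  have h4 : ∀ j, ud x j ≤ ta d δ x (j.val / 2) - ta d δ x (i.val / 2) := by
    intro j
    have h5 := hxi.2 j
    unfold bf at h5
    rw [h3] at h5
    linarith
  have h5 : ∀ j, |ud x j| ≤ ta d δ x (j.val / 2) - ta d δ x (i.val / 2) := by
    intro j
    obtain ⟨j', hj, hjj⟩ := exists_partner hk j
    have h6 := h4 j'
    rw [ud_partner x hj hjj, ← hj] at h6
    exact abs_le.2 ⟨by linarith, h4 j⟩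
  refine ⟨fun j => ?_, ?_⟩
  · have hj : j.val / 2 < d := by
      have := j.isLt
      omega
    exact (h5 j).trans (by linarith [ta_le h0 hS hj, ta_nonneg (d := d) δ x (i.val / 2)])
  · by_contra hcon
    push Not at hcon
    obtain ⟨j, hj⟩ := hx2
    have h6 : hh d δ x = 0 := Finset.sum_eq_zero fun b hb =>
      max_eq_right (by linarith [hcon b (Finset.mem_range.1 hb)])
    have hj2 : j.val / 2 < d := by
      have := j.isLt
      omega
    have h7 : ta d δ x (j.val / 2) = 0 := by
      unfold ta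
      rw [h6, max_eq_right (by linarith [hcon _ hj2])]
      ring
    have h8 := h5 j
    rw [h7] at h8
    have h9 := ta_nonneg (d := d) δ x (i.val / 2)
    exact hj (abs_nonpos_iff.1 (by linarith))

end SY
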