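import Mathlib
import Pool.Agent.H27.SY.Defs

/-!
# Sperner partitions: the parts of the base partition meet in planes (project SY, row SY-24)
-/

set_option autoImplicit false

open MeasureTheory Metric Set Filter Module
open scoped Topology MeasureTheory RealInnerProductSpace Nat Pointwise

namespace SY

open SP SP.Mea SX

namespace BPl

variable {d k : ℕ}

/-! ### the pairs -/

theorem ps_add (x y : V k) (a : ℕ) : ps (x + y) a = ps x a + ps y a := by
  simp only [ps, PiLp.add_apply, ← Finset.sum_add_distrib]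
  refine Finset.sum_congr rfl fun i _ => ?_
  split_ifs <;> simp

theorem ps_smul (c : ℝ) (x : V k) (a : ℕ) : ps (c • x) a = c * ps x a := by
  simp only [ps, PiLp.smul_apply, smul_eq_mul, Finset.mul_sum]
  refine Finset.sum_congr rfl fun i _ => ?_
  split_ifs <;> simp

theorem ud_add (x y : V k) (i : Fin k) : ud (x + y) i = ud x i + ud y i := by
  simp only [ud, ps_add, PiLp.add_apply]
  ring

theorem ud_smul (c : ℝ) (x : V k) (i : Fin k) : ud (c • x) i = c * ud x i := by
  simp only [ud, ps_smul, PiLp.smul_apply, smul_eq_mul]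
  ring

/-- the total mass -/
theorem sum_ps (hk : k = 2 * d) (x : V k) : ∑ a ∈ Finset.range d, ps x a = ∑ i, x i := by
  simp only [ps]
  rw [Finset.sum_comm]
  refine Finset.sum_congr rfl fun i _ => ?_
  rw [Finset.sum_ite_eq, if_pos]
  have := i.isLt
  rw [Finset.mem_range]
  omega

/-- the first index of a pair -/
def e0 (hk : k = 2 * d) (a : Fin d) : Fin k := ⟨2 * a.val, by have := a.isLt; omega⟩

/-- the second index of a pair -/
def e1 (hk : k = 2 * d) (a : Fin d) : Fin k := ⟨2 * a.val + 1, by have := a.isLt; omega⟩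

theorem e0_half (hk : k = 2 * d) (a : Fin d) : (e0 hk a).val / 2 = a.val := by
  simp only [e0]; omega

theorem e1_half (hk : k = 2 * d) (a : Fin d) : (e1 hk a).val / 2 = a.val := by
  simp only [e1]; omega

theorem cases_pair (hk : k = 2 * d) (i : Fin k) :
    ∃ a : Fin d, i = e0 hk a ∨ i = e1 hk a := by
  have := i.isLt
  refine ⟨⟨i.val / 2, by omega⟩, ?_⟩
  rcases Nat.even_or_odd' i.val with ⟨c, hc | hc⟩
  · left
    apply Fin.ext
    simp only [e0]
    omega
  · right
    apply Fin.ext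
    simp only [e1]
    omega

theorem ps_eq (hk : k = 2 * d) (x : V k) (a : Fin d) : ps x a = x (e0 hk a) + x (e1 hk a) := by
  simp only [ps]
  rw [← Finset.sum_filter]
  have h : (Finset.univ.filter (fun i : Fin k => i.val / 2 = a.val)) = {e0 hk a, e1 hk a} := by
    ext i
    simp only [Finset.mem_filter, Finset.mem_univ, true_and, Finset.mem_insert,
      Finset.mem_singleton, Fin.ext_iff, e0, e1]
    omega
  rw [h, Finset.sum_pair]
  intro h
  simp only [Fin.ext_iff, e0, e1] at h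
  omega

theorem ud_e0 (hk : k = 2 * d) (x : V k) (a : Fin d) :
    ud x (e0 hk a) = x (e0 hk a) - x (e1 hk a) := by
  rw [ud, e0_half, ps_eq hk]
  ring

theorem ud_e1 (hk : k = 2 * d) (x : V k) (a : Fin d) :
    ud x (e1 hk a) = x (e1 hk a) - x (e0 hk a) := by
  rw [ud, e1_half, ps_eq hk]
  ring

/-- points with prescribed masses and differences -/
theorem exists_pt (hk : k = 2 * d) (P U : Fin d → ℝ) : ∃ z : V k, (∀ a : Fin d, ps z a = P a) ∧
    (∀ a, ud z (e0 hk a) = U a) ∧ ∀ a, ud z (e1 hk a) = - U a := by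
  have hi : ∀ i : Fin k, i.val / 2 < d := fun i => by have := i.isLt; omega
  let z : V k := WithLp.toLp 2 (fun i => if i.val % 2 = 0 then (P ⟨i.val / 2, hi i⟩ +
    U ⟨i.val / 2, hi i⟩) / 2 else (P ⟨i.val / 2, hi i⟩ - U ⟨i.val / 2, hi i⟩) / 2)
  have h0 : ∀ a, z (e0 hk a) = (P a + U a) / 2 := by
    intro a
    have h : (⟨(e0 hk a).val / 2, hi _⟩ : Fin d) = a := Fin.ext (e0_half hk a)
    simp only [z]
    rw [if_pos (by simp [e0]), h]
  have h1 : ∀ a, z (e1 hk a) = (P a - U a) / 2 := by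
    intro a
    have h : (⟨(e1 hk a).val / 2, hi _⟩ : Fin d) = a := Fin.ext (e1_half hk a)
    simp only [z]
    rw [if_neg (by simp [e1]), h]
  refine ⟨z, fun a => ?_, fun a => ?_, fun a => ?_⟩
  · rw [ps_eq hk, h0, h1]; ring
  · rw [ud_e0, h0, h1]; ring
  · rw [ud_e1, h0, h1]; ring

/-! ### planes -/

/-- a subspace of small dimension is spanned by `q` vectors -/
theorem exists_span {q : ℕ} (W : Submodule ℝ (V k)) (hW : W ≤ E0 k) (hq : finrank ℝ W ≤ q) :
    ∃ v : Fin q → V k, (∀ a, v a ∈ E0 k) ∧ ∀ z ∈ W, ∃ t : Fin q → ℝ, z = ∑ a, t a • v a := by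
  let b := finBasis ℝ W
  refine ⟨fun a => if h : a.val < finrank ℝ W then ((b ⟨a.val, h⟩ : W) : V k) else 0,
    fun a => ?_, fun z hz => ?_⟩
  · simp only
    split_ifs
    · exact hW (Subtype.mem _)
    · exact Submodule.zero_mem _
  · refine ⟨fun a => if h : a.val < finrank ℝ W then b.repr ⟨z, hz⟩ ⟨a.val, h⟩ else 0, ?_⟩
    have h3 := congrArg (fun z : W => ((z : W) : V k)) (b.sum_repr ⟨z, hz⟩)
    simp only [Submodule.coe_sum, Submodule.coe_smul] at h3
    refine h3.symm.trans ?_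
    have h4 : ∀ a : Fin q, ((if h : a.val < finrank ℝ W then b.repr ⟨z, hz⟩ ⟨a.val, h⟩ else 0) •
        (if h : a.val < finrank ℝ W then ((b ⟨a.val, h⟩ : W) : V k) else 0) : V k) =
        (fun n : ℕ => if h : n < finrank ℝ W then
          b.repr ⟨z, hz⟩ ⟨n, h⟩ • ((b ⟨n, h⟩ : W) : V k) else 0) a.val := by
      intro a
      simp only
      split_ifs
      · rfl
      · simp
    rw [Finset.sum_congr rfl fun a _ => h4 a, Fin.sum_univ_eq_sum_range (fun n : ℕ =>
      if h : n < finrank ℝ W then b.repr ⟨z, hz⟩ ⟨n, h⟩ • ((b ⟨n, h⟩ : W) : V k) else 0),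
      ← Finset.sum_subset (Finset.range_subset_range.2 hq), ← Fin.sum_univ_eq_sum_range]
    · refine Finset.sum_congr rfl fun a _ => ?_
      rw [dif_pos a.isLt]
    · intro n _ hn
      rw [Finset.mem_range] at hn
      rw [dif_neg hn]

/-- sets with directions in a subspace of small dimension lie in a plane -/
theorem exists_plane {q : ℕ} (hk : 1 ≤ k) (W : Submodule ℝ (V k)) (hW : W ≤ E0 k)
    (hq : finrank ℝ W ≤ q) (S : Set (V k)) (hS : S ⊆ Hp k) (hd : ∀ x ∈ S, ∀ y ∈ S, x - y ∈ W) :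
    ∃ p ∈ Hp k, ∃ v : Fin q → V k, (∀ a, v a ∈ E0 k) ∧
      S ⊆ range (fun t : Fin q → ℝ => p + ∑ a, t a • v a) := by
  obtain ⟨v, hv, h⟩ := exists_span W hW hq
  rcases S.eq_empty_or_nonempty with rfl | ⟨p, hp⟩
  · exact ⟨EuclideanSpace.single ⟨0, hk⟩ 1, by simp [Hp], v, hv, empty_subset _⟩
  · refine ⟨p, hS hp, v, hv, fun x hx => ?_⟩
    obtain ⟨t, ht⟩ := h (x - p) (hd x hx p hp)
    refine ⟨t, ?_⟩
    simp only
    rw [← ht]
    abel

/-- the common values of functionals -/
theorem plane_of_surj {q r : ℕ} (hk : 2 ≤ k) (hrq : r + q = k) (J : Finset (Fin k))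
    (hJ : J.card = r) (L : Fin k → V k →ₗ[ℝ] ℝ) (κ : Fin k → ℝ)
    (h : ∀ g : Fin k → ℝ, ∃ z ∈ E0 k, ∃ c : ℝ, ∀ i ∈ J, L i z = g i + c) :
    ∃ p ∈ Hp k, ∃ v : Fin q → V k, (∀ a, v a ∈ E0 k) ∧
      {x | x ∈ Hp k ∧ ∃ c : ℝ, ∀ i ∈ J, L i x + κ i = c} ⊆
        range (fun t : Fin q → ℝ => p + ∑ a, t a • v a) := by
  classical
  let G : (E0 k × ℝ) →ₗ[ℝ] (J → ℝ) :=
    LinearMap.pi fun i => ((L i).comp ((E0 k).subtype.comp (LinearMap.fst ℝ (E0 k) ℝ))) -
      LinearMap.snd ℝ (E0 k) ℝ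
  have hG : ∀ z i, G z i = L i z.1 - z.2 := fun z i => rfl
  have hsurj : Function.Surjective G := by
    intro g
    obtain ⟨z, hz, c, hc⟩ := h (fun i => if hi : i ∈ J then g ⟨i, hi⟩ else 0)
    refine ⟨(⟨z, hz⟩, c), ?_⟩
    funext i
    rw [hG, hc i i.2, dif_pos i.2]
    simp
  have hrank := G.finrank_range_add_finrank_ker
  rw [LinearMap.range_eq_top.2 hsurj, finrank_top, finrank_fintype_fun_eq_card,
    Fintype.card_coe, finrank_prod, finrank_E0 hk, finrank_self, hJ] at hrank
  have hker : finrank ℝ (LinearMap.ker G) = q := by omega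
  let W : Submodule ℝ (V k) :=
    (LinearMap.ker G).map ((E0 k).subtype.comp (LinearMap.fst ℝ (E0 k) ℝ))
  have hW : finrank ℝ W ≤ q := by
    rw [← hker]
    exact Submodule.finrank_map_le _ _
  refine exists_plane (by omega) W ?_ hW _ (fun x hx => hx.1) ?_
  · rintro _ ⟨z, _, rfl⟩
    exact z.1.2
  · rintro x ⟨hx, c, hc⟩ y ⟨hy, c', hc'⟩
    have hz : x - y ∈ E0 k := by
      rw [mem_E0]
      simp only [Hp, mem_ofPred_eq] at hx hy
      simp only [PiLp.sub_apply, Finset.sum_sub_distrib, hx, hy, sub_self]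
    refine ⟨(⟨x - y, hz⟩, c - c'), ?_, rfl⟩
    rw [SetLike.mem_coe, LinearMap.mem_ker]
    funext i
    rw [hG]
    simp only [map_sub, Pi.zero_apply]
    have h1 := hc i i.2
    have h2 := hc' i i.2
    linarith

/-! ### the functions of the partition -/

/-- the linear part of `bf` where `B` is the set of the pairs with mass below `δ` -/
noncomputable def LB (_hk : k = 2 * d) (B : Finset (Fin d)) (i : Fin k) : V k →ₗ[ℝ] ℝ :=
  { toFun := fun z => ud z i + (((i.val / 2 : ℕ) : ℝ) + 1) / ((d : ℝ) + 1) * ∑ b ∈ B, ps z b.val +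
      ((d : ℝ) + 1) * ∑ b ∈ B, if b.val = i.val / 2 then ps z b.val else 0
    map_add' := by
      intro x y
      have h : ∑ b ∈ B, (if b.val = i.val / 2 then ps (x + y) b.val else 0) =
          (∑ b ∈ B, if b.val = i.val / 2 then ps x b.val else 0) +
          ∑ b ∈ B, if b.val = i.val / 2 then ps y b.val else 0 := by
        rw [← Finset.sum_add_distrib]
        refine Finset.sum_congr rfl fun b _ => ?_
        rw [ps_add]
        split_ifs <;> simp
      rw [h]
      simp only [ps_add, ud_add, Finset.sum_add_distrib]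
      ring
    map_smul' := by
      intro c x
      have h : ∑ b ∈ B, (if b.val = i.val / 2 then ps (c • x) b.val else 0) =
          c * ∑ b ∈ B, if b.val = i.val / 2 then ps x b.val else 0 := by
        rw [Finset.mul_sum]
        refine Finset.sum_congr rfl fun b _ => ?_
        rw [ps_smul]
        split_ifs <;> simp
      rw [h]
      simp only [ps_smul, ud_smul, ← Finset.mul_sum, RingHom.id_apply, smul_eq_mul]
      ring }

theorem LB_apply (hk : k = 2 * d) (B : Finset (Fin d)) (i : Fin k) (z : V k) :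
    LB hk B i z = ud z i + (((i.val / 2 : ℕ) : ℝ) + 1) / ((d : ℝ) + 1) * ∑ b ∈ B, ps z b.val +
      ((d : ℝ) + 1) * ∑ b ∈ B, if b.val = i.val / 2 then ps z b.val else 0 := rfl

/-- prescribed values -/
theorem LB_surj (hd : 2 ≤ d) (hk : k = 2 * d) (B : Finset (Fin d)) (hB : B ≠ Finset.univ)
    (J : Finset (Fin k)) (h : ∀ a a' : Fin d, a ∉ B → a' ∉ B → e0 hk a ∈ J → e1 hk a ∈ J →
      e0 hk a' ∈ J → e1 hk a' ∈ J → a = a') (g : Fin k → ℝ) :
    ∃ z ∈ E0 k, ∃ c : ℝ, ∀ i ∈ J, LB hk B i z = g i + c := by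
  classical
  set D : ℝ := (d : ℝ) + 1 with hD
  have hD0 : 0 < D := by positivity
  let α : Fin d → ℝ := fun a => ((a.val : ℝ) + 1) / D
  have hα0 : ∀ a, 0 < α a := fun a => by positivity
  have hα1 : ∀ a, α a < 1 := by
    intro a
    have : (a.val : ℝ) < d := by exact_mod_cast a.isLt
    simp only [α]
    rw [div_lt_one hD0, hD]
    linarith
  let γ : Fin d → ℝ := fun a => -(g (e0 hk a) + g (e1 hk a)) / 2
  -- the reference pair
  obtain ⟨αs, γs, hs0, hs1, hs⟩ : ∃ αs γs : ℝ, 0 ≤ αs ∧ αs < 1 ∧ ∀ a ∉ B, e0 hk a ∈ J →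
      e1 hk a ∈ J → α a = αs ∧ γ a = γs := by
    by_cases h1 : ∃ a ∉ B, e0 hk a ∈ J ∧ e1 hk a ∈ J
    · obtain ⟨a, ha, h2, h3⟩ := h1
      refine ⟨α a, γ a, (hα0 a).le, hα1 a, fun a' ha' h2' h3' => ?_⟩
      rw [h a' a ha' ha h2' h3' h2 h3]
      exact ⟨rfl, rfl⟩
    · refine ⟨0, 0, le_rfl, one_pos, fun a ha h2 h3 => absurd ⟨a, ha, h2, h3⟩ h1⟩
  obtain ⟨b0, hb0⟩ : ∃ b0, b0 ∉ B := by
    by_contra hc
    push Not at hc
    exact hB (Finset.eq_univ_of_forall hc)
  let Q : Finset (Fin d) := B.filter (fun a => e0 hk a ∈ J ∧ e1 hk a ∈ J)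
  have hcoef : 0 < 1 + ∑ a ∈ Q, (α a - αs) / D := by
    have h1 : ∑ a ∈ Q, (-(1 / D)) ≤ ∑ a ∈ Q, (α a - αs) / D := by
      refine Finset.sum_le_sum fun a _ => ?_
      rw [← neg_div]
      gcongr
      linarith [hα0 a]
    have h2 : (Q.card : ℝ) ≤ d := by
      have := Finset.card_le_univ Q
      rw [Fintype.card_fin] at this
      exact_mod_cast this
    rw [Finset.sum_const, nsmul_eq_mul] at h1
    have h3 : (Q.card : ℝ) * (1 / D) < 1 := by
      rw [mul_one_div, div_lt_one hD0]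
      linarith
    linarith
  obtain ⟨H, hH⟩ : ∃ H : ℝ, H * (1 + ∑ a ∈ Q, (α a - αs) / D) = ∑ a ∈ Q, (γ a - γs) / D :=
    ⟨_, div_mul_cancel₀ _ hcoef.ne'⟩
  let t : Fin d → ℝ := fun a => if a ∈ Q then (γ a - γs - (α a - αs) * H) / D else 0
  have ht : ∑ a ∈ B, t a = H := by
    have h1 : ∑ a ∈ B, t a = ∑ a ∈ Q, t a := by
      refine (Finset.sum_subset (Finset.filter_subset _ _) fun a _ ha => ?_).symm
      exact if_neg ha
    have h2 : ∑ a ∈ Q, t a = ∑ a ∈ Q, ((γ a - γs) / D - (α a - αs) / D * H) := by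
      refine Finset.sum_congr rfl fun a ha => ?_
      simp only [t]
      rw [if_pos ha]
      ring
    rw [h1, h2, Finset.sum_sub_distrib, ← Finset.sum_mul]
    linarith
  let P : Fin d → ℝ := fun a => if a ∈ B then - t a else if a = b0 then H else 0
  have hPB : ∑ a ∈ B, P a = - H := by
    rw [← ht, ← Finset.sum_neg_distrib]
    exact Finset.sum_congr rfl fun a ha => if_pos ha
  have hP : ∑ a, P a = 0 := by
    rw [← Finset.sum_add_sum_compl B, hPB]
    have h1 : ∑ a ∈ Bᶜ, P a = ∑ a ∈ Bᶜ, if a = b0 then H else 0 :=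
      Finset.sum_congr rfl fun a ha => if_neg (Finset.mem_compl.1 ha)
    rw [h1, Finset.sum_ite_eq', if_pos (Finset.mem_compl.2 hb0)]
    ring
  let c : ℝ := γs - αs * H
  let τ : Fin d → ℝ := fun a => α a * H + D * (if a ∈ B then t a else 0)
  have hτ : ∀ a, e0 hk a ∈ J → e1 hk a ∈ J → τ a = γ a - c := by
    intro a h0 h1
    simp only [τ, c]
    by_cases ha : a ∈ B
    · rw [if_pos ha]
      simp only [t]
      rw [if_pos (Finset.mem_filter.2 ⟨ha, h0, h1⟩), mul_div_cancel₀ _ hD0.ne']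
      ring
    · obtain ⟨h2, h3⟩ := hs a ha h0 h1
      rw [if_neg ha, h2, h3]
      ring
  let U : Fin d → ℝ := fun a => if e0 hk a ∈ J then (if e1 hk a ∈ J then
    (g (e0 hk a) - g (e1 hk a)) / 2 else g (e0 hk a) + c + τ a) else -(g (e1 hk a) + c + τ a)
  obtain ⟨z, hz, hz0, hz1⟩ := exists_pt hk P U
  have hsum : ∑ b ∈ B, ps z b.val = - H := by
    rw [Finset.sum_congr rfl fun b _ => hz b, hPB]
  have hval : ∀ (i : Fin k) (a : Fin d), i.val / 2 = a.val →
      LB hk B i z = ud z i - τ a := by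
    intro i a hi
    have h1 : ∑ b ∈ B, (if b.val = i.val / 2 then ps z b.val else 0) =
        if a ∈ B then - t a else 0 := by
      have h2 : ∀ b ∈ B, (if b.val = i.val / 2 then ps z b.val else 0) =
          if b = a then - t a else 0 := by
        intro b hb
        rw [hi]
        by_cases hba : b = a
        · rw [if_pos (congrArg Fin.val hba), if_pos hba, hz b]
          simp only [P]
          rw [if_pos hb, hba]
        · rw [if_neg (fun h => hba (Fin.ext h)), if_neg hba]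
      rw [Finset.sum_congr rfl h2, Finset.sum_ite_eq']
    rw [LB_apply, hsum, h1, hi]
    simp only [τ, α]
    split_ifs <;> ring
  refine ⟨z, ?_, c, ?_⟩
  · rw [mem_E0, ← sum_ps hk, ← hP, ← Fin.sum_univ_eq_sum_range]
    exact Finset.sum_congr rfl fun a _ => hz a
  · intro i hi
    obtain ⟨a, rfl | rfl⟩ := cases_pair hk i
    · rw [hval _ a (e0_half hk a), hz0]
      simp only [U]
      rw [if_pos hi]
      by_cases h1 : e1 hk a ∈ J
      · rw [if_pos h1, hτ a hi h1]
        simp only [γ]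
        ring
      · rw [if_neg h1]
        ring
    · rw [hval _ a (e1_half hk a), hz1]
      simp only [U]
      by_cases h0 : e0 hk a ∈ J
      · rw [if_pos h0, if_pos hi, hτ a h0 hi]
        simp only [γ]
        ring
      · rw [if_neg h0]
        ring

/-- where the functions are affine -/
theorem bf_eq (hk : k = 2 * d) (δ : ℝ) (x : V k) (B : Finset (Fin d))
    (hB : ∀ b : Fin d, b ∈ B ↔ ps x b.val < δ) (i : Fin k) :
    bf d δ x i = LB hk B i x - ((((i.val / 2 : ℕ) : ℝ) + 1) / ((d : ℝ) + 1) * ∑ _b ∈ B, δ +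
      ((d : ℝ) + 1) * ∑ b ∈ B, if b.val = i.val / 2 then δ else 0) := by
  have h1 : hh d δ x = ∑ b ∈ B, (δ - ps x b.val) := by
    rw [hh, ← Fin.sum_univ_eq_sum_range (fun b => max (δ - ps x b) 0),
      ← Finset.sum_subset (Finset.subset_univ B)]
    · refine Finset.sum_congr rfl fun b hb => max_eq_left ?_
      linarith [(hB b).1 hb]
    · intro b _ hb
      refine max_eq_right ?_
      rw [hB, not_lt] at hb
      linarith
  have h2 : max (δ - ps x (i.val / 2)) 0 =
      ∑ b ∈ B, (if b.val = i.val / 2 then δ - ps x b.val else 0) := by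
    have hi : i.val / 2 < d := by have := i.isLt; omega
    have h3 : ∀ b ∈ B, (if b.val = i.val / 2 then δ - ps x b.val else 0) =
        if b = ⟨i.val / 2, hi⟩ then δ - ps x (i.val / 2) else 0 := by
      intro b _
      by_cases hb : b = ⟨i.val / 2, hi⟩
      · rw [if_pos (by rw [hb]), if_pos hb, hb]
      · rw [if_neg (fun h => hb (Fin.ext h)), if_neg hb]
    rw [Finset.sum_congr rfl h3, Finset.sum_ite_eq']
    split_ifs with h
    · refine max_eq_left ?_
      have := (hB _).1 h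
      simp only at this
      linarith
    · refine max_eq_right ?_
      rw [hB, not_lt] at h
      simp only at h
      linarith
  have h4 : ∀ b : Fin d, (if b.val = i.val / 2 then δ - ps x b.val else 0) =
      (if b.val = i.val / 2 then δ else 0) - (if b.val = i.val / 2 then ps x b.val else 0) := by
    intro b
    split_ifs <;> simp
  rw [bf, ta, h1, h2, LB_apply]
  simp only [h4, Finset.sum_sub_distrib]
  ring

end BPl

open BPl

theorem base_planes {d k : ℕ} (hd : 2 ≤ d) (hk : k = 2 * d) :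
    ∃ n : ℕ, ∀ δ : ℝ, 0 < δ → δ * d < 1 → ∀ r q, 1 ≤ r → r ≤ d + 1 → r + q = k →
      ∃ (p : Fin n → V k) (v : Fin n → Fin q → V k), (∀ i, p i ∈ Hp k) ∧
        (∀ i a, v i a ∈ E0 k) ∧
        meet k (bA d k δ) r ⊆ ⋃ i, range (fun t : Fin q → ℝ => p i + ∑ a, t a • v i a) := by
  classical
  let ι := Option (Finset (Fin d) × Finset (Fin k))
  refine ⟨Fintype.card ι, fun δ h0 h1 r q hr1 hr hrq => ?_⟩
  have hk2 : 2 ≤ k := by omega
  -- the planes
  let S : ι → Set (V k) := fun u => match u with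
    | none => {x | x ∈ Hp k ∧ ∀ i, ud x i = 0}
    | some (B, J) => {x | x ∈ Hp k ∧ ((B ≠ Finset.univ ∧ J.card = r ∧
        ∀ a a' : Fin d, a ∉ B → a' ∉ B → e0 hk a ∈ J → e1 hk a ∈ J →
          e0 hk a' ∈ J → e1 hk a' ∈ J → a = a') ∧
        (∀ b : Fin d, b ∈ B ↔ ps x b.val < δ) ∧ ∀ i ∈ J, ∀ l ∈ J, bf d δ x i = bf d δ x l)}
  have hS : ∀ u, ∃ p ∈ Hp k, ∃ v : Fin q → V k, (∀ a, v a ∈ E0 k) ∧
      S u ⊆ range (fun t : Fin q → ℝ => p + ∑ a, t a • v a) := by
    rintro (_ | ⟨B, J⟩)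
    · -- all differences vanish
      let G : E0 k →ₗ[ℝ] (Fin d → ℝ) :=
        { toFun := fun z a => ud (z : V k) (e0 hk a)
          map_add' := fun x y => funext fun a => ud_add _ _ _
          map_smul' := fun c x => funext fun a => ud_smul _ _ _ }
      have hG : Function.Surjective G := by
        intro U
        obtain ⟨z, hz, hz0, -⟩ := exists_pt hk (fun _ => 0) U
        refine ⟨⟨z, ?_⟩, funext hz0⟩
        rw [mem_E0, ← sum_ps hk, ← Fin.sum_univ_eq_sum_range]
        exact Finset.sum_eq_zero fun a _ => hz a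
      have hrank := G.finrank_range_add_finrank_ker
      rw [LinearMap.range_eq_top.2 hG, finrank_top, finrank_fintype_fun_eq_card,
        Fintype.card_fin, finrank_E0 hk2] at hrank
      let W : Submodule ℝ (V k) := (LinearMap.ker G).map (E0 k).subtype
      have hW : finrank ℝ W ≤ q := by
        have h2 : finrank ℝ W ≤ finrank ℝ (LinearMap.ker G) := Submodule.finrank_map_le _ _
        omega
      refine exists_plane (by omega) W ?_ hW _ (fun x hx => hx.1) ?_
      · rintro _ ⟨z, _, rfl⟩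
        exact z.2
      · rintro x ⟨hx, hx0⟩ y ⟨hy, hy0⟩
        have hz : x - y ∈ E0 k := by
          rw [mem_E0]
          simp only [Hp, mem_ofPred_eq] at hx hy
          simp only [PiLp.sub_apply, Finset.sum_sub_distrib, hx, hy, sub_self]
        refine ⟨⟨x - y, hz⟩, ?_, rfl⟩
        rw [SetLike.mem_coe, LinearMap.mem_ker]
        funext a
        show ud (x - y) (e0 hk a) = 0
        rw [sub_eq_add_neg, ud_add, ← neg_one_smul ℝ y, ud_smul, hx0, hy0]
        ring
    · by_cases hg : B ≠ Finset.univ ∧ J.card = r ∧ ∀ a a' : Fin d, a ∉ B → a' ∉ B →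
          e0 hk a ∈ J → e1 hk a ∈ J → e0 hk a' ∈ J → e1 hk a' ∈ J → a = a'
      · obtain ⟨hB, hJ, h2⟩ := hg
        obtain ⟨p, hp, v, hv, hs⟩ := plane_of_surj hk2 hrq J hJ (LB hk B)
          (fun i => - ((((i.val / 2 : ℕ) : ℝ) + 1) / ((d : ℝ) + 1) * ∑ _b ∈ B, δ +
            ((d : ℝ) + 1) * ∑ b ∈ B, if b.val = i.val / 2 then δ else 0))
          (LB_surj hd hk B hB J h2)
        refine ⟨p, hp, v, hv, Subset.trans ?_ hs⟩
        rintro x ⟨hx, -, h3, h4⟩
        refine ⟨hx, ?_⟩
        rcases J.eq_empty_or_nonempty with rfl | ⟨l, hl⟩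
        · exact ⟨0, fun i hi => absurd hi (Finset.notMem_empty i)⟩
        · refine ⟨bf d δ x l, fun i hi => ?_⟩
          rw [← h4 i hi l hl, bf_eq hk δ x B h3 i]
          ring
      · refine ⟨EuclideanSpace.single ⟨0, by omega⟩ 1, by simp [Hp], fun _ => 0,
          fun _ => Submodule.zero_mem _, ?_⟩
        rintro x ⟨-, h, -⟩
        exact absurd h hg
  choose p hp v hv hT using hS
  let e := Fintype.equivFin ι
  refine ⟨fun n => p (e.symm n), fun n => v (e.symm n), fun n => hp _, fun n => hv _,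
    fun x hx => ?_⟩
  suffices hu : ∃ u, x ∈ S u by
    obtain ⟨u, hu⟩ := hu
    refine mem_iUnion.2 ⟨e u, ?_⟩
    have := hT u hu
    simp only [Equiv.symm_apply_apply]
    exact this
  obtain ⟨T, hT', hxT⟩ := hx
  obtain ⟨J, hJT, hJ⟩ := Finset.exists_subset_card_eq hT'
  have hxJ : ∀ i ∈ J, x ∈ bA d k δ i := fun i hi => hxT i (hJT hi)
  obtain ⟨i0, hi0⟩ : J.Nonempty := Finset.card_pos.1 (by omega)
  have hxH : x ∈ Hp k := (hxJ i0 hi0).1.2
  have heq : ∀ i ∈ J, ∀ l ∈ J, bf d δ x i = bf d δ x l := fun i hi l hl =>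
    le_antisymm ((hxJ l hl).2 i) ((hxJ i hi).2 l)
  let B : Finset (Fin d) := Finset.univ.filter (fun b => ps x b.val < δ)
  have hBm : ∀ b : Fin d, b ∈ B ↔ ps x b.val < δ := fun b => by simp [B]
  have hBu : B ≠ Finset.univ := by
    intro h
    have h2 : ∑ a ∈ Finset.range d, ps x a = 1 := (sum_ps hk x).trans hxH
    rw [← Fin.sum_univ_eq_sum_range] at h2
    have h3 : ∑ a : Fin d, ps x a.val ≤ ∑ _a : Fin d, δ :=
      Finset.sum_le_sum fun a _ => ((hBm a).1 (h ▸ Finset.mem_univ a)).le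
    rw [h2, Finset.sum_const, Finset.card_univ, Fintype.card_fin, nsmul_eq_mul] at h3
    linarith
  by_cases hg : ∀ a a' : Fin d, a ∉ B → a' ∉ B → e0 hk a ∈ J → e1 hk a ∈ J →
      e0 hk a' ∈ J → e1 hk a' ∈ J → a = a'
  · exact ⟨some (B, J), hxH, ⟨hBu, hJ, hg⟩, hBm, heq⟩
  · push Not at hg
    obtain ⟨a, a', ha, ha', h2, h3, h4, h5, hne⟩ := hg
    refine ⟨none, hxH, ?_⟩
    have hmax : ∀ a : Fin d, a ∉ B → max (δ - ps x a.val) 0 = 0 := by
      intro a ha
      rw [hBm, not_lt] at ha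
      exact max_eq_right (by linarith)
    have hta : ∀ a : Fin d, a ∉ B → ta d δ x a.val = ((a.val : ℝ) + 1) / ((d : ℝ) + 1) *
        hh d δ x := by
      intro a ha
      rw [ta, hmax a ha]
      ring
    have hbf : ∀ a : Fin d, e0 hk a ∈ J → e1 hk a ∈ J → bf d δ x (e0 hk a) =
        - ta d δ x a.val := by
      intro a h6 h7
      have h8 := heq _ h6 _ h7
      have h9 := ud_e0 hk x a
      have h10 := ud_e1 hk x a
      simp only [bf, e0_half, e1_half] at h8 ⊢
      linarith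
    have hh0 : hh d δ x = 0 := by
      have h6 := hbf a h2 h3
      have h7 := hbf a' h4 h5
      rw [heq _ h2 _ h4, h7, hta a ha, hta a' ha'] at h6
      have h8 : ((a.val : ℝ) - a'.val) * hh d δ x = 0 := by
        have hD : (0 : ℝ) < (d : ℝ) + 1 := by positivity
        field_simp at h6
        linarith
      rcases mul_eq_zero.1 h8 with h9 | h9
      · exfalso
        apply hne
        apply Fin.ext
        have : (a.val : ℝ) = a'.val := by linarith
        exact_mod_cast this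
      · exact h9
    have hta0 : ∀ b : Fin d, ta d δ x b.val = 0 := by
      intro b
      have h6 : max (δ - ps x b.val) 0 ≤ 0 := by
        refine le_trans ?_ hh0.le
        exact Finset.single_le_sum (f := fun b => max (δ - ps x b) 0)
          (fun _ _ => le_max_right _ _) (Finset.mem_range.2 b.isLt)
      rw [ta, hh0, le_antisymm h6 (le_max_right _ _)]
      ring
    have hle : ∀ i, bf d δ x i ≤ 0 := by
      intro i
      refine ((hxJ _ h2).2 i).trans ?_
      rw [hbf a h2 h3, hta0]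
      simp
    intro i
    obtain ⟨b, hb⟩ := cases_pair hk i
    have h6 := hle (e0 hk b)
    have h7 := hle (e1 hk b)
    have h9 := ud_e0 hk x b
    have h10 := ud_e1 hk x b
    simp only [bf, e0_half, e1_half, hta0] at h6 h7
    rcases hb with rfl | rfl
    · linarith
    · linarith

end SY
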