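import Mathlib
import Pool.Agent.H27.SY.Defs

/-!
# Project SY, row SY-25: coverings by balls
-/

set_option autoImplicit false
set_option linter.all false

open MeasureTheory Metric Set Filter Module
open scoped Topology MeasureTheory RealInnerProductSpace Nat Pointwise

namespace SY

open SP SP.Mea SX

/-- a subspace of dimension at most `m` is the image of a norm decreasing map with a norm
preserving section -/
theorem thin_param {k m : ℕ} (U : Submodule ℝ (V k)) (h : finrank ℝ U ≤ m) :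
    ∃ T : EuclideanSpace ℝ (Fin m) →ₗ[ℝ] V k, (∀ y, ‖T y‖ ≤ ‖y‖) ∧
      ∀ u ∈ U, ∃ y, T y = u ∧ ‖y‖ ≤ ‖u‖ := by
  set n := finrank ℝ U with hn
  let b : OrthonormalBasis (Fin n) ℝ U := stdOrthonormalBasis ℝ U
  let R : EuclideanSpace ℝ (Fin m) →ₗ[ℝ] EuclideanSpace ℝ (Fin n) :=
    { toFun := fun y => WithLp.toLp 2 fun i => y (Fin.castLE h i)
      map_add' := fun x y => by ext i; simp
      map_smul' := fun c x => by ext i; simp }
  have hR : ∀ y i, R y i = y (Fin.castLE h i) := fun y i => rfl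
  have hRn : ∀ y, ‖R y‖ ≤ ‖y‖ := by
    intro y
    rw [EuclideanSpace.norm_eq, EuclideanSpace.norm_eq]
    apply Real.sqrt_le_sqrt
    simp only [hR]
    have h1 : ∑ i : Fin n, ‖y (Fin.castLE h i)‖ ^ 2 =
        ∑ j ∈ Finset.univ.map (Fin.castLEEmb h), ‖y j‖ ^ 2 := by
      rw [Finset.sum_map]
      rfl
    rw [h1]
    exact Finset.sum_le_sum_of_subset_of_nonneg (Finset.subset_univ _) fun j _ _ => by positivity
  refine ⟨U.subtype ∘ₗ (b.repr.symm.toLinearEquiv.toLinearMap ∘ₗ R), fun y => ?_, fun u hu => ?_⟩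
  · show ‖((b.repr.symm (R y) : U) : V k)‖ ≤ ‖y‖
    rw [Submodule.norm_coe, LinearIsometryEquiv.norm_map]
    exact hRn y
  · set z : EuclideanSpace ℝ (Fin n) := b.repr ⟨u, hu⟩ with hz
    set y : EuclideanSpace ℝ (Fin m) := WithLp.toLp 2 fun j =>
      if hj : j.val < n then z ⟨j.val, hj⟩ else 0 with hy
    have hRy : R y = z := by
      ext i
      rw [hR, hy]
      simp
    refine ⟨y, ?_, ?_⟩
    · show ((b.repr.symm (R y) : U) : V k) = u
      rw [hRy, hz, LinearIsometryEquiv.symm_apply_apply]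
    · have h1 : ‖u‖ = ‖z‖ := by
        rw [hz, LinearIsometryEquiv.norm_map]
        rfl
      rw [h1, EuclideanSpace.norm_eq, EuclideanSpace.norm_eq]
      apply Real.sqrt_le_sqrt
      have h2 : ∑ j : Fin m, ‖y j‖ ^ 2 = ∑ j ∈ Finset.univ.map (Fin.castLEEmb h), ‖y j‖ ^ 2 := by
        symm
        apply Finset.sum_subset (Finset.subset_univ _)
        intro j _ hj
        have h3 : ¬ j.val < n := by
          intro h4
          apply hj
          rw [Finset.mem_map]
          exact ⟨⟨j.val, h4⟩, Finset.mem_univ _, by ext; simp⟩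
        rw [hy]
        simp [h3]
      rw [h2, Finset.sum_map]
      refine le_of_eq (Finset.sum_congr rfl fun i _ => ?_)
      rw [hy]
      simp

theorem plane_ball (k m : ℕ) : ∃ C : ℝ, 0 < C ∧ ∀ (p : V k) (v : Fin m → V k) (x : V k) (r : ℝ),
    0 < r → μHE[m] (range (fun t : Fin m → ℝ => p + ∑ a, t a • v a) ∩ closedBall x r) ≤
      ENNReal.ofReal (C * r ^ m) := by
  have hal : 0 ≤ al m := ENNReal.toReal_nonneg
  refine ⟨2 ^ m * al m + 1, by positivity, fun p v x r hr => ?_⟩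
  set S := range (fun t : Fin m → ℝ => p + ∑ a, t a • v a) ∩ closedBall x r with hS
  rcases S.eq_empty_or_nonempty with h0 | ⟨z₀, hz₀⟩
  · rw [h0, measure_empty]; exact zero_le
  obtain ⟨⟨t₀, ht₀⟩, hz₀r⟩ := hz₀
  have hU : finrank ℝ (Submodule.span ℝ (range v)) ≤ m := by
    have := finrank_range_le_card (R := ℝ) (b := v)
    rw [Fintype.card_fin] at this
    exact this
  obtain ⟨T, hT1, hT2⟩ := thin_param (Submodule.span ℝ (range v)) hU
  have himg : S ⊆ (fun y => z₀ + T y) '' closedBall 0 (2 * r) := by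
    rintro z ⟨⟨t, ht⟩, hzr⟩
    have h1 : z - z₀ ∈ Submodule.span ℝ (range v) := by
      rw [← ht, ← ht₀]
      simp only [add_sub_add_left_eq_sub]
      refine Submodule.sub_mem _ ?_ ?_ <;>
        exact Submodule.sum_mem _ fun a _ =>
          Submodule.smul_mem _ _ (Submodule.subset_span (mem_range_self a))
    obtain ⟨y, hy1, hy2⟩ := hT2 _ h1
    refine ⟨y, ?_, ?_⟩
    · rw [mem_closedBall, dist_zero_right]
      refine hy2.trans ?_
      rw [← dist_eq_norm]
      have h3 := mem_closedBall.1 hzr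
      have h4 := mem_closedBall'.1 hz₀r
      linarith [dist_triangle z x z₀]
    · show z₀ + T y = z
      rw [hy1]
      abel
  have hlip : LipschitzWith 1 (fun y => z₀ + T y) := by
    apply LipschitzWith.of_dist_le_mul
    intro y y'
    rw [dist_add_left, dist_eq_norm, dist_eq_norm, ← map_sub, NNReal.coe_one, one_mul]
    exact hT1 _
  have h3 := hlip.hausdorffMeasure_image_le (d := (m : ℝ)) (by positivity)
    (closedBall (0 : EuclideanSpace ℝ (Fin m)) (2 * r))
  have h4 : μHE[m] ((fun y => z₀ + T y) '' closedBall 0 (2 * r)) ≤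
      (μHE[m] : Measure (EuclideanSpace ℝ (Fin m))) (closedBall 0 (2 * r)) := by
    rw [Measure.euclideanHausdorffMeasure_def, Measure.euclideanHausdorffMeasure_def,
      Measure.smul_apply, Measure.smul_apply]
    have h5 : μH[(m : ℝ)] ((fun y => z₀ + T y) '' closedBall 0 (2 * r)) ≤
        μH[(m : ℝ)] (closedBall (0 : EuclideanSpace ℝ (Fin m)) (2 * r)) := by
      simpa using h3
    gcongr
  rw [EuclideanSpace.euclideanHausdorffMeasure_eq_volume] at h4
  refine (measure_mono himg).trans (h4.trans ?_)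
  rw [Measure.addHaar_closedBall _ _ (by positivity), finrank_euclideanSpace_fin]
  have h6 : volume (ball (0 : EuclideanSpace ℝ (Fin m)) 1) ≤ ENNReal.ofReal (al m) := by
    rw [al, ENNReal.ofReal_toReal measure_closedBall_lt_top.ne]
    exact measure_mono ball_subset_closedBall
  calc ENNReal.ofReal ((2 * r) ^ m) * volume (ball (0 : EuclideanSpace ℝ (Fin m)) 1)
      ≤ ENNReal.ofReal ((2 * r) ^ m) * ENNReal.ofReal (al m) := by gcongr
    _ = ENNReal.ofReal ((2 * r) ^ m * al m) := (ENNReal.ofReal_mul (by positivity)).symm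
    _ ≤ ENNReal.ofReal ((2 ^ m * al m + 1) * r ^ m) := by
        apply ENNReal.ofReal_le_ofReal
        rw [mul_pow]
        nlinarith [pow_pos hr m]

theorem thin_sum_ps {d k : ℕ} (hk : k = 2 * d) (x : V k) :
    ∑ a : Fin d, ps x a.val = ∑ i, x i := by
  unfold ps
  rw [Finset.sum_comm]
  refine Finset.sum_congr rfl fun i _ => ?_
  have hi : i.val / 2 < d := by
    have := i.2
    omega
  rw [Finset.sum_eq_single (⟨i.val / 2, hi⟩ : Fin d)]
  · simp
  · intro b _ hb
    rw [if_neg]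
    intro h
    exact hb (Fin.ext h.symm)
  · intro h
    exact absurd (Finset.mem_univ _) h

theorem thin_ps_nonneg {k : ℕ} {x : V k} (hx : x ∈ Sx k) (a : ℕ) : 0 ≤ ps x a := by
  unfold ps
  refine Finset.sum_nonneg fun i _ => ?_
  split_ifs
  · exact hx.1 i
  · exact le_rfl

theorem thin_norm {k : ℕ} (hk : 1 ≤ k) (y : V k) {M : ℝ} (hM : 0 ≤ M) (h : ∀ i, |y i| ≤ M) :
    ‖y‖ ≤ k * M := by
  have hk1 : (1 : ℝ) ≤ k := by exact_mod_cast hk
  rw [EuclideanSpace.norm_eq]
  apply Real.sqrt_le_iff.2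
  refine ⟨by positivity, ?_⟩
  calc ∑ i, ‖y i‖ ^ 2 ≤ ∑ _i : Fin k, M ^ 2 := by
        refine Finset.sum_le_sum fun i _ => ?_
        rw [Real.norm_eq_abs]
        exact pow_le_pow_left₀ (abs_nonneg _) (h i) 2
    _ = k * M ^ 2 := by simp
    _ ≤ (k * M) ^ 2 := by
        rw [mul_pow]
        have : (k : ℝ) ≤ (k : ℝ) ^ 2 := by nlinarith
        gcongr

/-- the centres of the balls -/
noncomputable def thin_c {d k : ℕ} (δ : ℝ) (q : Fin d × Fin d) (n : Fin d → ℕ) : V k :=
  WithLp.toLp 2 fun i : Fin k => (if i.val / 2 = q.1.val then 0 else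
    if i.val / 2 = q.2.val then 1 - ∑ b, δ * (n b : ℝ) else
      if h : i.val / 2 < d then δ * (n ⟨i.val / 2, h⟩ : ℝ) else 0) / 2

/-- the grids -/
def thin_G {d : ℕ} (N : ℕ) (q : Fin d × Fin d) : Finset (Fin d → ℕ) :=
  Fintype.piFinset fun a : Fin d => if a = q.1 ∨ a = q.2 then {0} else Finset.range (N + 1)

theorem thin_card {d : ℕ} (N : ℕ) (q : Fin d × Fin d) (hq : q.1 ≠ q.2) :
    (thin_G N q).card = (N + 1) ^ (d - 2) := by
  have h2 : (Finset.univ.filter fun a : Fin d => ¬ (a = q.1 ∨ a = q.2)).card = d - 2 := by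
    have h3 : (Finset.univ.filter fun a : Fin d => ¬ (a = q.1 ∨ a = q.2)) =
        ({q.1, q.2} : Finset (Fin d))ᶜ := by
      ext a
      simp
    rw [h3, Finset.card_compl, Finset.card_pair hq, Fintype.card_fin]
  unfold thin_G
  rw [Fintype.card_piFinset]
  have h1 : ∀ a : Fin d, (if a = q.1 ∨ a = q.2 then ({0} : Finset ℕ) else
      Finset.range (N + 1)).card = if ¬ (a = q.1 ∨ a = q.2) then N + 1 else 1 := by
    intro a
    by_cases h : a = q.1 ∨ a = q.2
    · simp [h]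
    · simp [h]
  rw [Finset.prod_congr rfl fun a _ => h1 a, Finset.prod_ite, Finset.prod_const,
    Finset.prod_const_one, mul_one, h2]

theorem thin_cover {d k : ℕ} (hd : 2 ≤ d) (hk : k = 2 * d) (C1 : ℝ) {δ : ℝ} (h0 : 0 < δ)
    (h1 : δ ≤ 1) {x : V k} (hx : x ∈ Sx k) (hu : ∀ i, |ud x i| ≤ C1 * δ)
    (ha : ∃ a < d, ps x a ≤ δ) : ∃ q : Fin d × Fin d, q.1 ≠ q.2 ∧
      ∃ n ∈ thin_G ⌊1 / δ⌋₊ q, x ∈ closedBall (thin_c δ q n) (k * ((|C1| + d) * δ)) := by
  obtain ⟨a₀, ha₀d, ha₀⟩ := ha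
  set a0 : Fin d := ⟨a₀, ha₀d⟩ with ha0
  haveI : Nontrivial (Fin d) := Fin.nontrivial_iff_two_le.2 hd
  obtain ⟨a1, ha1⟩ := exists_ne a0
  set q : Fin d × Fin d := (a0, a1) with hq
  have hps0 : ∀ a, 0 ≤ ps x a := thin_ps_nonneg hx
  have hsum : ∑ a : Fin d, ps x a.val = 1 := by rw [thin_sum_ps hk, hx.2]
  have hps1 : ∀ a : Fin d, ps x a.val ≤ 1 := by
    intro a
    rw [← hsum]
    exact Finset.single_le_sum (f := fun a : Fin d => ps x a.val) (fun b _ => hps0 b.val)
      (Finset.mem_univ a)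
  set n : Fin d → ℕ := fun a => if a = q.1 ∨ a = q.2 then 0 else ⌊ps x a.val / δ⌋₊ with hn
  have hnmem : n ∈ thin_G ⌊1 / δ⌋₊ q := by
    unfold thin_G
    rw [Fintype.mem_piFinset]
    intro a
    by_cases h : a = q.1 ∨ a = q.2
    · simp [hn, h]
    · rw [if_neg h, Finset.mem_range, hn]
      simp only [if_neg h]
      exact Nat.lt_succ_of_le (Nat.floor_le_floor (by
        apply div_le_div_of_nonneg_right (hps1 a) h0.le))
  -- the errors
  have herr : ∀ a : Fin d, a ≠ a1 → |ps x a.val - δ * (n a : ℝ)| ≤ δ := by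
    intro a haa
    by_cases h : a = a0
    · have h2 : n a = 0 := by rw [hn]; simp [h, hq]
      rw [h2, h]
      simp only [Nat.cast_zero, mul_zero, sub_zero]
      rw [abs_of_nonneg (hps0 _)]
      exact ha₀
    · have h2 : n a = ⌊ps x a.val / δ⌋₊ := by
        rw [hn]
        simp only [hq]
        rw [if_neg]
        push Not
        exact ⟨h, haa⟩
      rw [h2]
      have h3 := Nat.floor_le (div_nonneg (hps0 a.val) h0.le)
      have h4 := Nat.lt_floor_add_one (ps x a.val / δ)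
      rw [le_div_iff₀ h0] at h3
      rw [div_lt_iff₀ h0] at h4
      rw [abs_le]
      constructor <;> nlinarith
  have hn1 : n a1 = 0 := by rw [hn]; simp [hq]
  have herr1 : |ps x a1.val - (1 - ∑ b, δ * (n b : ℝ))| ≤ d * δ := by
    have h2 : ps x a1.val - (1 - ∑ b, δ * (n b : ℝ)) =
        ∑ b ∈ Finset.univ.erase a1, (δ * (n b : ℝ) - ps x b.val) := by
      have h3 : ∑ b, δ * (n b : ℝ) = ∑ b ∈ Finset.univ.erase a1, δ * (n b : ℝ) := by
        rw [← Finset.add_sum_erase _ _ (Finset.mem_univ a1), hn1]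
        simp
      have h4 : (1 : ℝ) = ps x a1.val + ∑ b ∈ Finset.univ.erase a1, ps x b.val := by
        rw [← hsum, ← Finset.add_sum_erase _ _ (Finset.mem_univ a1)]
      rw [Finset.sum_sub_distrib, h3]
      linarith
    rw [h2]
    refine (Finset.abs_sum_le_sum_abs _ _).trans ?_
    calc ∑ b ∈ Finset.univ.erase a1, |δ * (n b : ℝ) - ps x b.val|
        ≤ ∑ b ∈ Finset.univ.erase a1, δ := by
          refine Finset.sum_le_sum fun b hb => ?_
          rw [abs_sub_comm]
          exact herr b (Finset.ne_of_mem_erase hb)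
      _ ≤ ∑ _b : Fin d, δ := Finset.sum_le_sum_of_subset_of_nonneg (Finset.subset_univ _)
          fun _ _ _ => h0.le
      _ = d * δ := by simp
  have hd1 : (1 : ℝ) ≤ d := by exact_mod_cast (by omega : 1 ≤ d)
  have hall : ∀ a : Fin d, |ps x a.val - (if a.val = q.1.val then 0 else
      if a.val = q.2.val then 1 - ∑ b, δ * (n b : ℝ) else δ * (n a : ℝ))| ≤ d * δ := by
    intro a
    by_cases h2 : a.val = q.1.val
    · rw [if_pos h2, sub_zero, abs_of_nonneg (hps0 _), h2]
      have h3 : ps x q.1.val ≤ δ := ha₀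
      nlinarith
    · rw [if_neg h2]
      by_cases h3 : a.val = q.2.val
      · rw [if_pos h3, h3]
        exact herr1
      · rw [if_neg h3]
        have h4 : a ≠ a1 := fun h => h3 (by rw [h])
        refine (herr a h4).trans ?_
        nlinarith
  refine ⟨q, ha1.symm, n, hnmem, ?_⟩
  rw [mem_closedBall, dist_eq_norm]
  apply thin_norm (by omega) _ (by positivity)
  intro i
  have hi : i.val / 2 < d := by
    have := i.2
    omega
  have h2 := hall ⟨i.val / 2, hi⟩
  have h3 := hu i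
  have h4 : (x - thin_c δ q n : V k) i = (ud x i + (ps x (i.val / 2) -
      (if i.val / 2 = q.1.val then 0 else
        if i.val / 2 = q.2.val then 1 - ∑ b, δ * (n b : ℝ) else
          δ * (n ⟨i.val / 2, hi⟩ : ℝ)))) / 2 := by
    show x i - (if i.val / 2 = q.1.val then 0 else
      if i.val / 2 = q.2.val then 1 - ∑ b, δ * (n b : ℝ) else
        if h : i.val / 2 < d then δ * (n ⟨i.val / 2, h⟩ : ℝ) else 0) / 2 = _
    rw [dif_pos hi]
    unfold ud
    ring
  rw [h4, abs_div, abs_of_pos (by norm_num : (0 : ℝ) < 2), div_le_iff₀ (by norm_num)]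
  refine (abs_add_le _ _).trans ?_
  have h5 : C1 * δ ≤ |C1| * δ := mul_le_mul_of_nonneg_right (le_abs_self _) h0.le
  have h6 : 0 ≤ |C1| * δ := by positivity
  have h7 : (0 : ℝ) ≤ d * δ := by positivity
  simp only at h2
  nlinarith

theorem thin {d k : ℕ} (hd : 2 ≤ d) (hk : k = 2 * d) (C1 : ℝ) : ∃ C : ℝ, 0 < C ∧
    ∀ δ : ℝ, 0 < δ → δ ≤ 1 → ∀ (p : V k) (v : Fin (d - 1) → V k),
      μHE[d - 1] (range (fun t : Fin (d - 1) → ℝ => p + ∑ a, t a • v a) ∩
        {x | x ∈ Sx k ∧ (∀ i, |ud x i| ≤ C1 * δ) ∧ ∃ a < d, ps x a ≤ δ}) ≤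
      ENNReal.ofReal (C * δ) := by
  obtain ⟨C, hC, hb⟩ := plane_ball k (d - 1)
  have hd1 : (1 : ℝ) ≤ d := by exact_mod_cast (by omega : 1 ≤ d)
  have hk1 : (1 : ℝ) ≤ k := by exact_mod_cast (by omega : 1 ≤ k)
  have hC2 : 0 < (k : ℝ) * (|C1| + d) := by positivity
  refine ⟨(d : ℝ) * d * (2 ^ (d - 2) * (C * (k * (|C1| + d)) ^ (d - 1))), by positivity, ?_⟩
  intro δ h0 h1 p v
  set N := ⌊1 / δ⌋₊ with hN
  set P := range (fun t : Fin (d - 1) → ℝ => p + ∑ a, t a • v a) with hP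
  set Q : Finset (Fin d × Fin d) := Finset.univ.filter fun q => q.1 ≠ q.2 with hQ
  have hsub : P ∩ {x | x ∈ Sx k ∧ (∀ i, |ud x i| ≤ C1 * δ) ∧ ∃ a < d, ps x a ≤ δ} ⊆
      ⋃ q ∈ Q, ⋃ n ∈ thin_G N q, P ∩ closedBall (thin_c δ q n) (k * ((|C1| + d) * δ)) := by
    rintro x ⟨hxP, hx, hu, ha⟩
    obtain ⟨q, hq, n, hn, hxn⟩ := thin_cover hd hk C1 h0 h1 hx hu ha
    refine mem_iUnion₂.2 ⟨q, ?_, mem_iUnion₂.2 ⟨n, hn, hxP, hxn⟩⟩
    rw [hQ, Finset.mem_filter]
    exact ⟨Finset.mem_univ _, hq⟩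
  have hr : 0 < (k : ℝ) * ((|C1| + d) * δ) := by positivity
  set B : ℝ := C * ((k : ℝ) * ((|C1| + d) * δ)) ^ (d - 1) with hB
  have hB0 : 0 ≤ B := by positivity
  have hN2 : ((N : ℝ) + 1) * δ ≤ 2 := by
    have h2 : (N : ℝ) ≤ 1 / δ := Nat.floor_le (by positivity)
    rw [le_div_iff₀ h0] at h2
    linarith
  refine (measure_mono hsub).trans ?_
  refine (measure_biUnion_finset_le _ _).trans ?_
  calc ∑ q ∈ Q, μHE[d - 1] (⋃ n ∈ thin_G N q, P ∩ closedBall (thin_c δ q n)
        (k * ((|C1| + d) * δ)))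
      ≤ ∑ q ∈ Q, ENNReal.ofReal (((N : ℝ) + 1) ^ (d - 2) * B) := by
        refine Finset.sum_le_sum fun q hq => ?_
        rw [hQ, Finset.mem_filter] at hq
        refine (measure_biUnion_finset_le _ _).trans ?_
        refine (Finset.sum_le_sum fun n _ => hb p v (thin_c δ q n) _ hr).trans ?_
        rw [Finset.sum_const, thin_card N q hq.2, nsmul_eq_mul]
        have h9 : ENNReal.ofReal (((N : ℝ) + 1) ^ (d - 2)) =
            (((N + 1) ^ (d - 2) : ℕ) : ENNReal) := by
          rw [← ENNReal.ofReal_natCast]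
          congr 1
          push_cast
          rfl
        rw [ENNReal.ofReal_mul (p := ((N : ℝ) + 1) ^ (d - 2)) (by positivity), h9]
    _ ≤ ∑ _q : Fin d × Fin d, ENNReal.ofReal (((N : ℝ) + 1) ^ (d - 2) * B) :=
        Finset.sum_le_sum_of_subset (Finset.subset_univ _)
    _ = ENNReal.ofReal ((d : ℝ) * d * (((N : ℝ) + 1) ^ (d - 2) * B)) := by
        rw [Finset.sum_const, Finset.card_univ, Fintype.card_prod, Fintype.card_fin,
          nsmul_eq_mul]
        have h9 : (d : ℝ) * d * (((N : ℝ) + 1) ^ (d - 2) * B) =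
            ((d * d : ℕ) : ℝ) * (((N : ℝ) + 1) ^ (d - 2) * B) := by
          push_cast
          ring
        rw [h9, ENNReal.ofReal_mul (Nat.cast_nonneg _), ENNReal.ofReal_natCast]
    _ ≤ _ := by
        apply ENNReal.ofReal_le_ofReal
        rw [hB, mul_assoc ((d : ℝ) * d)]
        have h3 : ((N : ℝ) + 1) ^ (d - 2) * δ ^ (d - 2) ≤ 2 ^ (d - 2) := by
          rw [← mul_pow]
          exact pow_le_pow_left₀ (by positivity) hN2 _
        have h4 : ((k : ℝ) * ((|C1| + d) * δ)) ^ (d - 1) =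
            (k * (|C1| + d)) ^ (d - 1) * (δ ^ (d - 2) * δ) := by
          rw [← pow_succ, show d - 2 + 1 = d - 1 by omega, ← mul_pow, mul_assoc]
        rw [h4]
        have h5 : ((N : ℝ) + 1) ^ (d - 2) * (C * ((k * (|C1| + d)) ^ (d - 1) * (δ ^ (d - 2) * δ))) =
            (((N : ℝ) + 1) ^ (d - 2) * δ ^ (d - 2)) * (C * (k * (|C1| + d)) ^ (d - 1) * δ) := by
          ring
        rw [h5, show (2 : ℝ) ^ (d - 2) * (C * (k * (|C1| + d)) ^ (d - 1)) * δ =
          2 ^ (d - 2) * (C * (k * (|C1| + d)) ^ (d - 1) * δ) by ring]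
        gcongr

end SY
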