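import Mathlib
import Pool.Agent.H27.SY.Defs
import Pool.Agent.H27.SY.BaseAdm
import Pool.Agent.H27.SY.BaseLoc
import Pool.Agent.H27.SY.BasePlan
import Pool.Agent.H27.SY.Thin

/-!
# Sperner partitions: the base partition (project SY, row SY-26)
-/

set_option autoImplicit false

open MeasureTheory Metric Set Filter Module
open scoped Topology MeasureTheory RealInnerProductSpace Nat Pointwise

namespace SY

open SP SP.Mea SX

/-- the difference of the coordinates of a pair -/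
theorem ud_even {k : ℕ} (x : V k) {i j : Fin k} (hi : i.val % 2 = 0) (hj : j.val = i.val + 1) :
    ud x i = x i - x j := by
  have hij : i ≠ j := by
    intro h
    rw [h] at hj
    omega
  have h1 : ps x (i.val / 2) = x i + x j := by
    unfold ps
    have h2 : ∀ l : Fin k, (if l.val / 2 = i.val / 2 then x l else 0) =
        (if l = i then x l else 0) + (if l = j then x l else 0) := by
      intro l
      by_cases hli : l = i
      · rw [hli]; simp [hij]
      · by_cases hlj : l = j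
        · have h3 : (i.val + 1) / 2 = i.val / 2 := by omega
          rw [hlj, hj, h3]
          simp [Ne.symm hij]
        · have h4 : ¬ l.val / 2 = i.val / 2 := by
            intro h5
            have h6 : l.val = i.val ∨ l.val = j.val := by omega
            rcases h6 with h6 | h6
            · exact hli (Fin.ext h6)
            · exact hlj (Fin.ext h6)
          simp [hli, hlj, h4]
    simp only [h2, Finset.sum_add_distrib, Finset.sum_ite_eq', Finset.mem_univ, if_true]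
  rw [ud, h1]
  ring

theorem base {m : ℕ} (hm : 1 ≤ m) {η : ℝ} (hη : 0 < η) : Good m (m + 1) η := by
  have hd : 2 ≤ m + 1 := by omega
  have hk : m + 1 + m + 1 = 2 * (m + 1) := by omega
  obtain ⟨n, hn⟩ := base_planes hd hk
  obtain ⟨C, hC, hthin⟩ := thin hd hk (2 * ((m + 1 : ℕ) : ℝ) + 1)
  obtain ⟨δ, h0, h1, h2, h3⟩ : ∃ δ : ℝ, 0 < δ ∧ δ ≤ 1 ∧ δ * ((m + 1 : ℕ) : ℝ) < 1 ∧
      (n : ℝ) * (C * δ) ≤ η := by
    refine ⟨min (1 / (((m + 1 : ℕ) : ℝ) + 1)) (η / ((n : ℝ) * C + 1)), ?_, ?_, ?_, ?_⟩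
    · have : (0 : ℝ) ≤ (n : ℝ) := Nat.cast_nonneg n
      refine lt_min (by positivity) (by positivity)
    · refine (min_le_left _ _).trans ?_
      rw [div_le_one (by positivity)]
      have : (0 : ℝ) ≤ ((m + 1 : ℕ) : ℝ) := Nat.cast_nonneg _
      linarith
    · have h4 : (0 : ℝ) < ((m + 1 : ℕ) : ℝ) := by positivity
      have h5 : min (1 / (((m + 1 : ℕ) : ℝ) + 1)) (η / ((n : ℝ) * C + 1)) *
          ((m + 1 : ℕ) : ℝ) ≤ (1 / (((m + 1 : ℕ) : ℝ) + 1)) * ((m + 1 : ℕ) : ℝ) :=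
        mul_le_mul_of_nonneg_right (min_le_left _ _) h4.le
      refine h5.trans_lt ?_
      rw [one_div, inv_mul_lt_iff₀ (by positivity)]
      linarith
    · have h4 : (0 : ℝ) ≤ (n : ℝ) * C := by positivity
      have h5 : (n : ℝ) * (C * min (1 / (((m + 1 : ℕ) : ℝ) + 1)) (η / ((n : ℝ) * C + 1))) ≤
          ((n : ℝ) * C) * (η / ((n : ℝ) * C + 1)) := by
        rw [← mul_assoc]
        exact mul_le_mul_of_nonneg_left (min_le_right _ _) h4
      refine h5.trans ?_
      rw [← mul_div_assoc, div_le_iff₀ (by positivity)]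
      nlinarith
  have hA := base_adm hd hk h0 h2
  refine ⟨bA (m + 1) (m + 1 + m + 1) δ, hA, ?_, ?_⟩
  · intro r q hr1 hr2 hrq
    obtain ⟨p, v, hp, hv, hS⟩ := hn δ h0 h2 r q hr1 hr2 hrq
    exact ⟨n, p, v, hp, hv, hS⟩
  · obtain ⟨p, v, hp, hv, hS⟩ := hn δ h0 h2 (m + 1 + 1) m (by omega) le_rfl (by omega)
    have hsub : meet (m + 1 + m + 1) (bA (m + 1) (m + 1 + m + 1) δ) (m + 1 + 1) \ DK m (m + 1) ⊆
        ⋃ i : Fin n, (range (fun t : Fin m → ℝ => p i + ∑ a, t a • v i a) ∩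
          {x | x ∈ Sx (m + 1 + m + 1) ∧
            (∀ i, |ud x i| ≤ (2 * ((m + 1 : ℕ) : ℝ) + 1) * δ) ∧ ∃ a < m + 1, ps x a ≤ δ}) := by
      rintro x ⟨hx, hxD⟩
      have hxS : x ∈ Sx (m + 1 + m + 1) := by
        obtain ⟨T, hT, hxT⟩ := hx
        obtain ⟨i, hi⟩ : T.Nonempty := Finset.card_pos.1 (by omega)
        exact (hxT i hi).1
      have hud : ∃ i, ud x i ≠ 0 := by
        by_contra hcon
        push Not at hcon
        refine hxD ⟨hxS, fun i j hi hj _ => ?_⟩
        have h4 := ud_even x hi hj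
        rw [hcon i] at h4
        linarith
      obtain ⟨h4, h5⟩ := base_loc hd hk h0 hx hud
      obtain ⟨i, hi⟩ := mem_iUnion.1 (hS hx)
      exact mem_iUnion.2 ⟨i, hi, hxS, h4, h5⟩
    calc μHE[m] (meet (m + 1 + m + 1) (bA (m + 1) (m + 1 + m + 1) δ) (m + 1 + 1) \ DK m (m + 1))
        ≤ μHE[m] (⋃ i : Fin n, (range (fun t : Fin m → ℝ => p i + ∑ a, t a • v i a) ∩
          {x | x ∈ Sx (m + 1 + m + 1) ∧
            (∀ i, |ud x i| ≤ (2 * ((m + 1 : ℕ) : ℝ) + 1) * δ) ∧ ∃ a < m + 1, ps x a ≤ δ})) :=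
          measure_mono hsub
      _ ≤ ∑ i : Fin n, μHE[m] (range (fun t : Fin m → ℝ => p i + ∑ a, t a • v i a) ∩
          {x | x ∈ Sx (m + 1 + m + 1) ∧
            (∀ i, |ud x i| ≤ (2 * ((m + 1 : ℕ) : ℝ) + 1) * δ) ∧ ∃ a < m + 1, ps x a ≤ δ}) :=
          measure_iUnion_fintype_le _ _
      _ ≤ ∑ _i : Fin n, ENNReal.ofReal (C * δ) :=
          Finset.sum_le_sum fun i _ => hthin δ h0 h1 (p i) (v i)
      _ = ENNReal.ofReal ((n : ℝ) * (C * δ)) := by
          rw [Finset.sum_const, Finset.card_univ, Fintype.card_fin, nsmul_eq_mul,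
            ENNReal.ofReal_mul (Nat.cast_nonneg n), ENNReal.ofReal_natCast]
      _ ≤ ENNReal.ofReal η := ENNReal.ofReal_le_ofReal h3

end SY
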