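import Mathlib
import Pool.Agent.H27.SY.Defs

set_option autoImplicit false
set_option linter.all false

open MeasureTheory Metric Set Filter Module
open scoped Topology MeasureTheory RealInnerProductSpace Nat Pointwise

namespace SY

open SP SP.Mea SX

section
variable {F : Type} [Field F] {k d : ℕ}

private theorem Ext_anti (ξ : Fin k → F) (s t : Fin k) :
    Th d ξ s * Th d ξ t + Th d ξ t * Th d ξ s = 0 :=
  ExteriorAlgebra.ι_add_mul_swap _ _

private theorem Ext_sq (ξ : Fin k → F) (s : Fin k) : Th d ξ s * Th d ξ s = 0 :=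
  ExteriorAlgebra.ι_sq_zero _

theorem DD_DD (ξ : Fin k → F) (f : (Fin k → ℤ) → Lam F d) : DD ξ (DD ξ f) = 0 := by
  funext y
  show ∑ s, Th d ξ s * ∑ t, Th d ξ t * f (y + ez s + ez t) = 0
  have h : ∑ s, Th d ξ s * ∑ t, Th d ξ t * f (y + ez s + ez t) =
      ∑ q ∈ (Finset.univ : Finset (Fin k × Fin k)),
        Th d ξ q.1 * Th d ξ q.2 * f (y + ez q.1 + ez q.2) := by
    rw [← Finset.univ_product_univ, Finset.sum_product]
    refine Finset.sum_congr rfl fun s _ => ?_
    rw [Finset.mul_sum]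
    refine Finset.sum_congr rfl fun t _ => ?_
    rw [mul_assoc]
  rw [h]
  refine Finset.sum_involution (fun q _ => (q.2, q.1)) ?_ ?_ ?_ ?_
  · intro q _
    show Th d ξ q.1 * Th d ξ q.2 * f (y + ez q.1 + ez q.2) +
      Th d ξ q.2 * Th d ξ q.1 * f (y + ez q.2 + ez q.1) = 0
    rw [add_right_comm y (ez q.2) (ez q.1), ← add_mul, Ext_anti, zero_mul]
  · intro q _ hq h2
    apply hq
    have h3 : q.1 = q.2 := (congrArg Prod.snd h2)
    rw [h3, Ext_sq, zero_mul]
  · intro q _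
    exact Finset.mem_univ _
  · intro q _
    rfl

theorem Lo_DD (ξ : Fin k → F) (α : Fin k → F) (f : (Fin k → ℤ) → Lam F d) :
    Lo α (DD ξ f) = DD ξ (Lo α f) := by
  funext y
  show ∑ s, α s • ∑ t, Th d ξ t * f (y + ez s + ez t) =
    ∑ t, Th d ξ t * ∑ s, α s • f (y + ez t + ez s)
  have h1 : ∀ s, α s • ∑ t, Th d ξ t * f (y + ez s + ez t) =
      ∑ t, α s • (Th d ξ t * f (y + ez s + ez t)) := fun s => Finset.smul_sum
  have h2 : ∀ t, Th d ξ t * ∑ s, α s • f (y + ez t + ez s) =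
      ∑ s, Th d ξ t * (α s • f (y + ez t + ez s)) := fun t => Finset.mul_sum _ _ _
  rw [Finset.sum_congr rfl fun s _ => h1 s, Finset.sum_congr rfl fun t _ => h2 t,
    Finset.sum_comm]
  refine Finset.sum_congr rfl fun t _ => Finset.sum_congr rfl fun s _ => ?_
  rw [mul_smul_comm, add_right_comm]

private theorem Ext_co_ι (a : Fin d → F) (v : Fin d → F) (z : Lam F d) :
    co a (ExteriorAlgebra.ι F v * z) = (∑ r, a r * v r) • z - ExteriorAlgebra.ι F v * co a z := by
  have h := CliffordAlgebra.contractLeft_ι_mul (Q := (0 : QuadraticForm F (Fin d → F)))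
    (∑ r : Fin d, a r • (LinearMap.proj r : (Fin d → F) →ₗ[F] F)) v z
  have h2 : (∑ r : Fin d, a r • (LinearMap.proj r : (Fin d → F) →ₗ[F] F)) v = ∑ r, a r * v r := by
    simp [LinearMap.sum_apply]
  rw [h2] at h
  exact h

theorem co_Th (ξ : Fin k → F) (a : Fin d → F) (s : Fin k) (z : Lam F d) :
    co a (Th d ξ s * z) = ev a ξ s • z - Th d ξ s * co a z :=
  Ext_co_ι a _ z

theorem co_DD (ξ : Fin k → F) (a : Fin d → F) (f : (Fin k → ℤ) → Lam F d) (y : Fin k → ℤ) :
    co a (DD ξ f y) + DD ξ (fun x => co a (f x)) y = Lo (ev a ξ) f y := by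
  show co a (∑ s, Th d ξ s * f (y + ez s)) + ∑ s, Th d ξ s * co a (f (y + ez s)) =
    ∑ s, ev a ξ s • f (y + ez s)
  rw [map_sum, ← Finset.sum_add_distrib]
  refine Finset.sum_congr rfl fun s _ => ?_
  rw [co_Th, sub_add_cancel]

theorem exists_ev {ξ : Fin k → F} (hξ : Function.Injective ξ) {Γ : Finset (Fin k)}
    (hΓ : Γ.card ≤ d) {l : Fin k} (hl : l ∈ Γ) :
    ∃ a : Fin d → F, ev a ξ l = 1 ∧ ∀ n ∈ Γ, n ≠ l → ev a ξ n = 0 := by
  have hinj : Set.InjOn ξ (Γ : Set (Fin k)) := hξ.injOn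
  have hpos : 0 < Γ.card := Finset.card_pos.2 ⟨l, hl⟩
  have hdeg : (Lagrange.basis Γ ξ l).natDegree < d := by
    have h := Lagrange.degree_basis hinj hl
    have h2 : (Lagrange.basis Γ ξ l).natDegree = Γ.card - 1 := Polynomial.natDegree_eq_of_degree_eq_some h
    omega
  have key : ∀ n, ev (fun r : Fin d => (Lagrange.basis Γ ξ l).coeff r) ξ n =
      (Lagrange.basis Γ ξ l).eval (ξ n) := by
    intro n
    rw [Polynomial.eval_eq_sum_range' hdeg, Finset.sum_range]
    rfl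
  refine ⟨fun r => (Lagrange.basis Γ ξ l).coeff r, ?_, ?_⟩
  · rw [key]
    exact Lagrange.eval_basis_self hinj hl
  · intro n hn hne
    rw [key]
    exact Lagrange.eval_basis_of_ne hne.symm hn

private theorem Ext_zero {z : Lam F d} (hz : z ∈ ⋀[F]^0 (Fin d → F)) :
    ∃ c : F, z = c • (1 : Lam F d) := by
  have h : z ∈ (1 : Submodule F (Lam F d)) := by
    have h2 : (⋀[F]^0 (Fin d → F) : Submodule F (Lam F d)) = 1 := pow_zero _
    rwa [h2] at hz
  obtain ⟨c, hc⟩ := Submodule.mem_one.1 h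
  exact ⟨c, by rw [← hc, Algebra.algebraMap_eq_smul_one]⟩

private theorem Ext_co_one (a : Fin d → F) : co a (1 : Lam F d) = 0 :=
  CliffordAlgebra.contractLeft_one _ _

private theorem Ext_co_mem (a : Fin d → F) : ∀ (p : ℕ) (z : Lam F d),
    z ∈ ⋀[F]^(p + 1) (Fin d → F) → co a z ∈ ⋀[F]^p (Fin d → F) := by
  intro p
  induction p with
  | zero =>
    intro z hz
    have h1 : (⋀[F]^(0 + 1) (Fin d → F) : Submodule F (Lam F d)) =
        LinearMap.range (ExteriorAlgebra.ι F) * ⋀[F]^0 (Fin d → F) := pow_succ' _ _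
    rw [h1] at hz
    refine Submodule.mul_induction_on hz ?_ ?_
    · rintro x ⟨v, rfl⟩ w hw
      obtain ⟨c, rfl⟩ := Ext_zero hw
      rw [Ext_co_ι, map_smul, Ext_co_one, smul_zero, mul_zero, sub_zero]
      exact Submodule.smul_mem _ _ hw
    · intro x y hx hy
      rw [map_add]
      exact Submodule.add_mem _ hx hy
  | succ p ih =>
    intro z hz
    have h1 : (⋀[F]^(p + 1 + 1) (Fin d → F) : Submodule F (Lam F d)) =
        LinearMap.range (ExteriorAlgebra.ι F) * ⋀[F]^(p + 1) (Fin d → F) := pow_succ' _ _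
    rw [h1] at hz
    refine Submodule.mul_induction_on hz ?_ ?_
    · rintro x ⟨v, rfl⟩ w hw
      rw [Ext_co_ι]
      refine Submodule.sub_mem _ (Submodule.smul_mem _ _ hw) ?_
      have h2 : (⋀[F]^(p + 1) (Fin d → F) : Submodule F (Lam F d)) =
          LinearMap.range (ExteriorAlgebra.ι F) * ⋀[F]^p (Fin d → F) := pow_succ' _ _
      rw [h2]
      exact Submodule.mul_mem_mul ⟨v, rfl⟩ (ih w hw)
    · intro x y hx hy
      rw [map_add]
      exact Submodule.add_mem _ hx hy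

private theorem Ext_prod {ξ : Fin k → F} (hξ : Function.Injective ξ) {Γ : Finset (Fin k)}
    (hΓ : Γ.card ≤ d) : ∀ (L : List (Fin k)), L.Nodup → (∀ i ∈ L, i ∈ Γ) → ∀ z : Lam F d,
    z ∈ ⋀[F]^(L.length) (Fin d → F) → (∀ i ∈ L, Th d ξ i * z = 0) →
    ∃ c : F, z = c • (L.map (Th d ξ)).prod := by
  intro L
  induction L with
  | nil =>
    intro _ _ z hz _
    obtain ⟨c, hc⟩ := Ext_zero hz
    exact ⟨c, by rw [List.map_nil, List.prod_nil]; exact hc⟩
  | cons i L ih =>
    intro hnd hΓL z hz hT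
    obtain ⟨hi, hnd'⟩ := List.nodup_cons.1 hnd
    obtain ⟨a, ha1, ha0⟩ := exists_ev hξ hΓ (hΓL i (List.mem_cons_self))
    have h1 : z = Th d ξ i * co a z := by
      have h := co_Th ξ a i z
      rw [hT i List.mem_cons_self, map_zero, ha1, one_smul] at h
      exact (sub_eq_zero.1 h.symm)
    have h2 : co a z ∈ ⋀[F]^(L.length) (Fin d → F) := Ext_co_mem a _ z hz
    have h3 : ∀ j ∈ L, Th d ξ j * co a z = 0 := by
      intro j hj
      have h := co_Th ξ a j z
      have hne : j ≠ i := fun h => hi (h ▸ hj)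
      rw [hT j (List.mem_cons_of_mem _ hj), map_zero,
        ha0 j (hΓL j (List.mem_cons_of_mem _ hj)) hne, zero_smul, zero_sub] at h
      exact neg_eq_zero.1 h.symm
    obtain ⟨c, hc⟩ := ih hnd' (fun j hj => hΓL j (List.mem_cons_of_mem _ hj)) (co a z) h2 h3
    refine ⟨c, ?_⟩
    rw [List.map_cons, List.prod_cons, ← mul_smul_comm, ← hc]
    exact h1

private theorem Ext_co_prod {ξ : Fin k → F} (a : Fin d → F) : ∀ (L : List (Fin k)),
    (∀ i ∈ L, ev a ξ i = 0) → co a (L.map (Th d ξ)).prod = 0 := by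
  intro L
  induction L with
  | nil =>
    intro _
    rw [List.map_nil, List.prod_nil, Ext_co_one]
  | cons i L ih =>
    intro h
    rw [List.map_cons, List.prod_cons, co_Th, h i List.mem_cons_self, zero_smul,
      ih (fun j hj => h j (List.mem_cons_of_mem _ hj)), mul_zero, sub_zero]

theorem vanish {ξ : Fin k → F} (hξ : Function.Injective ξ) {p : ℕ} (hp : 1 ≤ p)
    {Γ : Finset (Fin k)} (hΓ : Γ.card ≤ d) (z : Finset (Fin k) → Lam F d)
    (h1 : ∀ I, z I ∈ ⋀[F]^p (Fin d → F)) (h2 : ∀ I, z I ≠ 0 → I ⊆ Γ ∧ I.card = p)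
    (h3 : ∀ I, ∀ i ∈ I, Th d ξ i * z I = 0) (h4 : ∀ I, ∑ l ∈ Iᶜ, z (insert l I) = 0) :
    ∀ I, z I = 0 := by
  intro I
  by_contra hI
  obtain ⟨hIΓ, hIc⟩ := h2 I hI
  obtain ⟨l, hl⟩ : I.Nonempty := Finset.card_pos.1 (by omega)
  obtain ⟨a, ha1, ha0⟩ := exists_ev hξ hΓ (hIΓ hl)
  have h5 := h4 (I.erase l)
  have hlm : l ∈ (I.erase l)ᶜ := by
    rw [Finset.mem_compl]
    exact Finset.notMem_erase l I
  rw [← Finset.add_sum_erase _ _ hlm, Finset.insert_erase hl] at h5
  have h6 := congrArg (co a) h5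
  rw [map_add, map_zero, map_sum] at h6
  have h7 : ∑ l' ∈ ((I.erase l)ᶜ).erase l, co a (z (insert l' (I.erase l))) = 0 := by
    refine Finset.sum_eq_zero fun l' hl' => ?_
    by_cases hz : z (insert l' (I.erase l)) = 0
    · rw [hz, map_zero]
    obtain ⟨hJΓ, hJc⟩ := h2 _ hz
    have hlJ : l ∉ insert l' (I.erase l) := by
      rw [Finset.mem_insert]
      rintro (h | h)
      · exact (Finset.ne_of_mem_erase hl') h.symm
      · exact (Finset.notMem_erase l I) h
    obtain ⟨c, hc⟩ := Ext_prod hξ hΓ (insert l' (I.erase l)).toList (Finset.nodup_toList _)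
      (fun i hi => hJΓ (Finset.mem_toList.1 hi)) (z (insert l' (I.erase l)))
      (by rw [Finset.length_toList, hJc]; exact h1 _)
      (fun i hi => h3 _ i (Finset.mem_toList.1 hi))
    rw [hc, map_smul, Ext_co_prod, smul_zero]
    intro i hi
    have hi' := Finset.mem_toList.1 hi
    exact ha0 i (hJΓ hi') (fun h => hlJ (h ▸ hi'))
  rw [h7, add_zero] at h6
  have h8 := co_Th ξ a l (z I)
  rw [h3 I l hl, map_zero, ha1, one_smul, h6, mul_zero, sub_zero] at h8
  exact hI h8.symm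

end

end SY
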