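import Mathlib
import Pool.Agent.H27.SY.Ext

/-!
# The chain of the spanning theorem (project SY, row SY-3)
-/

set_option autoImplicit false
set_option linter.all false

open MeasureTheory Metric Set Filter Module
open scoped Topology MeasureTheory RealInnerProductSpace Nat Pointwise

namespace SY

open SP SP.Mea SX

variable {F : Type} [Field F] {k d : ℕ}

namespace Ch

/-- the colours seen from `y` after `p` steps -/
def Seen (W : Set (Fin k → ℕ)) (c : (Fin k → ℕ) → Fin k) (p : ℕ) (y : Fin k → ℕ) :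
    Set (Fin k) := {v | ∃ z : Fin k → ℕ, ∑ s, z s = p ∧ y + z ∉ W ∧ c (y + z) = v}

open Classical in
/-- the chain on the natural points -/
noncomputable def wn (d N : ℕ) (ξ : Fin k → F) (W : Set (Fin k → ℕ)) (c : (Fin k → ℕ) → Fin k)
    (u : (Fin k → ℕ) → F) : ℕ → (Fin k → ℕ) → Finset (Fin k) → Lam F d
  | 0, y, I => if ∑ s, y s = N ∧ y ∉ W ∧ I = {c y} then algebraMap F (Lam F d) (u y) else 0
  | p + 1, y, I =>
      if h : ∑ s, y s + (p + 1) = N ∧ ∃ v, v ∈ Seen W c (p + 1) y ∧ 1 ≤ y v then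
        if h.2.choose ∈ I then
          ∑ s, Th d ξ s * wn d N ξ W c u p (y + ee s) (I.erase h.2.choose)
        else 0
      else 0

/-- the differential on the natural points -/
noncomputable def zn (d N : ℕ) (ξ : Fin k → F) (W : Set (Fin k → ℕ)) (c : (Fin k → ℕ) → Fin k)
    (u : (Fin k → ℕ) → F) (p : ℕ) (y : Fin k → ℕ) (I : Finset (Fin k)) : Lam F d :=
  ∑ s, Th d ξ s * wn d N ξ W c u p (y + ee s) I

theorem sum_ee (y : Fin k → ℕ) (s : Fin k) : ∑ t, (y + ee s) t = ∑ t, y t + 1 := by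
  simp [ee, Finset.sum_add_distrib, Pi.single_apply]

theorem Th_sq (ξ : Fin k → F) (s : Fin k) (z : Lam F d) : Th d ξ s * (Th d ξ s * z) = 0 := by
  rw [← mul_assoc, Th, ExteriorAlgebra.ι_sq_zero, zero_mul]

theorem Th_anti (ξ : Fin k → F) (s t : Fin k) (z : Lam F d) :
    Th d ξ s * (Th d ξ t * z) + Th d ξ t * (Th d ξ s * z) = 0 := by
  rw [← mul_assoc, ← mul_assoc, ← add_mul, Th, Th, ExteriorAlgebra.ι_add_mul_swap, zero_mul]

theorem double (ξ : Fin k → F) (g : Fin k → Fin k → Lam F d) (hg : ∀ s t, g s t = g t s) :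
    ∑ s, Th d ξ s * ∑ t, Th d ξ t * g s t = 0 := by
  simp_rw [Finset.mul_sum]
  rw [← Finset.sum_product']
  refine Finset.sum_involution (fun a _ => (a.2, a.1)) ?_ ?_ ?_ ?_
  · rintro ⟨s, t⟩ -
    simp only
    rw [hg t s]
    exact Th_anti ξ s t _
  · rintro ⟨s, t⟩ - h0 h1
    simp only [Prod.mk.injEq] at h1
    apply h0
    simp only
    rw [h1.1]
    exact Th_sq ξ s _
  · rintro ⟨s, t⟩ -
    simp
  · rintro ⟨s, t⟩ -
    rfl

section

variable {N : ℕ} {ξ : Fin k → F} {W : Set (Fin k → ℕ)} {c : (Fin k → ℕ) → Fin k}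
  {u : (Fin k → ℕ) → F}

theorem seen_step {p : ℕ} {y : Fin k → ℕ} {s v : Fin k} (h : v ∈ Seen W c p (y + ee s)) :
    v ∈ Seen W c (p + 1) y := by
  obtain ⟨z, h1, h2, h3⟩ := h
  refine ⟨ee s + z, ?_, ?_, ?_⟩
  · rw [add_comm (ee s) z, sum_ee, h1]
  · rwa [← add_assoc]
  · rwa [← add_assoc]

/-- below a point of large mass there is a point of the given mass -/
theorem exists_le (y : Fin k → ℕ) (M : ℕ) (h : M ≤ ∑ s, y s) :
    ∃ y' t : Fin k → ℕ, y' + t = y ∧ ∑ s, y' s = M := by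
  induction' hn : ∑ s, y s - M with n ih generalizing y
  · exact ⟨y, 0, by simp, by omega⟩
  · have h1 : ∃ s, y s ≠ 0 := by
      by_contra hc
      push Not at hc
      have : ∑ s, y s = 0 := Finset.sum_eq_zero (fun s _ => hc s)
      omega
    obtain ⟨s, hs⟩ := h1
    have h2 : Function.update y s (y s - 1) + ee s = y := by
      funext t
      by_cases ht : t = s
      · subst ht
        simp [ee]
        omega
      · simp [ee, ht]
    have h3 := sum_ee (Function.update y s (y s - 1)) s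
    rw [h2] at h3
    obtain ⟨y', t, h4, h5⟩ := ih (Function.update y s (y s - 1)) (by omega) (by omega)
    refine ⟨y', t + ee s, ?_, h5⟩
    rw [← add_assoc, h4, h2]

theorem seen_card (H : Hyp d N ξ W c u) (hN : d ≤ N) {p : ℕ} (hp : p ≤ d) {y : Fin k → ℕ}
    (hy : ∑ s, y s + p = N) :
    ∃ Γ : Finset (Fin k), Γ.card ≤ d ∧ ∀ v, v ∈ Γ ↔ v ∈ Seen W c p y := by
  classical
  obtain ⟨y', t, h1, h2⟩ := exists_le y (N - d) (by omega)
  obtain ⟨Γ, h3, h4⟩ := H.h2 y' (by omega)
  have h5 : ∀ v, v ∈ Seen W c p y → v ∈ Γ := by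
    rintro v ⟨z, h6, h7, h8⟩
    have h9 : y' + (t + z) = y + z := by rw [← add_assoc, h1]
    have h10 := h4 (t + z) ?_ (by rwa [h9])
    · rwa [h9, h8] at h10
    · have h11 : ∑ s, y s = ∑ s, y' s + ∑ s, t s := by
        rw [← Finset.sum_add_distrib, ← h1]
        rfl
      have h12 : ∑ s, (t + z) s = ∑ s, t s + ∑ s, z s := by
        rw [← Finset.sum_add_distrib]
        rfl
      omega
  refine ⟨Γ.filter (fun v => v ∈ Seen W c p y), (Finset.card_filter_le _ _).trans h3, ?_⟩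
  intro v
  simp only [Finset.mem_filter]
  exact ⟨fun h => h.2, fun h => ⟨h5 v h, h⟩⟩

theorem P1 {p : ℕ} {y : Fin k → ℕ} {I : Finset (Fin k)} (h : wn d N ξ W c u p y I ≠ 0) :
    ∑ s, y s + p = N := by
  classical
  cases p with
  | zero =>
    rw [wn] at h
    split_ifs at h with h1
    · simpa using h1.1
    · exact absurd rfl h
  | succ p =>
    rw [wn] at h
    split_ifs at h with h1 h2
    · exact h1.1
    · exact absurd rfl h
    · exact absurd rfl h

theorem Z1 {p : ℕ} {y : Fin k → ℕ} {I : Finset (Fin k)} (h : zn d N ξ W c u p y I ≠ 0) :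
    ∑ s, y s + (p + 1) = N := by
  rw [zn] at h
  obtain ⟨s, -, hs⟩ := Finset.exists_ne_zero_of_sum_ne_zero h
  have h1 : wn d N ξ W c u p (y + ee s) I ≠ 0 := by
    intro h2
    rw [h2, mul_zero] at hs
    exact hs rfl
  have h2 := P1 h1
  rw [sum_ee] at h2
  omega

theorem wn_succ (p : ℕ) (y : Fin k → ℕ) :
    (∃ v, v ∈ Seen W c (p + 1) y ∧ 1 ≤ y v ∧ ∑ s, y s + (p + 1) = N ∧
      ∀ I, wn d N ξ W c u (p + 1) y I =
        if v ∈ I then zn d N ξ W c u p y (I.erase v) else 0) ∨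
    ((∀ I, wn d N ξ W c u (p + 1) y I = 0) ∧ (∑ s, y s + (p + 1) = N →
      ∀ v ∈ Seen W c (p + 1) y, y v = 0)) := by
  classical
  by_cases h : ∑ s, y s + (p + 1) = N ∧ ∃ v, v ∈ Seen W c (p + 1) y ∧ 1 ≤ y v
  · left
    refine ⟨h.2.choose, h.2.choose_spec.1, h.2.choose_spec.2, h.1, ?_⟩
    intro I
    rw [wn, dif_pos h]
    congr 1
  · right
    refine ⟨?_, ?_⟩
    · intro I
      rw [wn, dif_neg h]
    · intro h1 v hv
      by_contra h2
      exact h ⟨h1, v, hv, by omega⟩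

theorem P2Z {p : ℕ} (h : ∀ y I, wn d N ξ W c u p y I ∈ ⋀[F]^p (Fin d → F)) (y : Fin k → ℕ)
    (I : Finset (Fin k)) : zn d N ξ W c u p y I ∈ ⋀[F]^(p + 1) (Fin d → F) := by
  rw [zn]
  refine Submodule.sum_mem _ (fun s _ => ?_)
  rw [ExteriorAlgebra.exteriorPower, pow_succ']
  exact Submodule.mul_mem_mul (LinearMap.mem_range_self _ _) (h _ _)

theorem P2 (p : ℕ) : ∀ (y : Fin k → ℕ) (I : Finset (Fin k)),
    wn d N ξ W c u p y I ∈ ⋀[F]^p (Fin d → F) := by
  classical
  induction p with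
  | zero =>
    intro y I
    rw [wn]
    split_ifs with h1
    · rw [ExteriorAlgebra.exteriorPower, pow_zero]
      exact Submodule.algebraMap_mem _
    · exact Submodule.zero_mem _
  | succ p ih =>
    intro y I
    rcases wn_succ (d := d) (N := N) (ξ := ξ) (W := W) (c := c) (u := u) p y with
      ⟨v, -, -, -, h⟩ | ⟨h, -⟩
    · rw [h I]
      split_ifs
      · exact P2Z ih _ _
      · exact Submodule.zero_mem _
    · rw [h I]
      exact Submodule.zero_mem _

theorem P3Z {p : ℕ} (h : ∀ y I, wn d N ξ W c u p y I ≠ 0 → (∀ v ∈ I, v ∈ Seen W c p y) ∧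
      I.card = p + 1) (y : Fin k → ℕ) (I : Finset (Fin k)) (h0 : zn d N ξ W c u p y I ≠ 0) :
    (∀ v ∈ I, v ∈ Seen W c (p + 1) y) ∧ I.card = p + 1 := by
  rw [zn] at h0
  obtain ⟨s, -, hs⟩ := Finset.exists_ne_zero_of_sum_ne_zero h0
  have h1 : wn d N ξ W c u p (y + ee s) I ≠ 0 := by
    intro h2
    rw [h2, mul_zero] at hs
    exact hs rfl
  have h2 := h _ _ h1
  exact ⟨fun v hv => seen_step (h2.1 v hv), h2.2⟩

theorem P3 (p : ℕ) : ∀ (y : Fin k → ℕ) (I : Finset (Fin k)), wn d N ξ W c u p y I ≠ 0 →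
    (∀ v ∈ I, v ∈ Seen W c p y) ∧ I.card = p + 1 := by
  classical
  induction p with
  | zero =>
    intro y I h
    rw [wn] at h
    split_ifs at h with h1
    · obtain ⟨h1, h2, h3⟩ := h1
      subst h3
      refine ⟨?_, by simp⟩
      intro v hv
      rw [Finset.mem_singleton] at hv
      subst hv
      exact ⟨0, by simp, by simpa using h2, by simp⟩
    · exact absurd rfl h
  | succ p ih =>
    intro y I h0
    rcases wn_succ (d := d) (N := N) (ξ := ξ) (W := W) (c := c) (u := u) p y with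
      ⟨v, hv, -, -, h⟩ | ⟨h, -⟩
    · rw [h I] at h0
      split_ifs at h0 with h1
      · have h2 := P3Z ih _ _ h0
        refine ⟨?_, ?_⟩
        · intro w hw
          by_cases hwv : w = v
          · rw [hwv]; exact hv
          · exact h2.1 w (Finset.mem_erase.2 ⟨hwv, hw⟩)
        · have h3 := Finset.card_erase_add_one h1
          omega
      · exact absurd rfl h0
    · exact absurd (h I) h0

theorem P4Z {p : ℕ} (h : ∀ y I, ∀ i ∈ I, y i = 0 → Th d ξ i * wn d N ξ W c u p y I = 0)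
    (y : Fin k → ℕ) (I : Finset (Fin k)) (i : Fin k) (hi : i ∈ I) (h0 : y i = 0) :
    Th d ξ i * zn d N ξ W c u p y I = 0 := by
  rw [zn, Finset.mul_sum]
  refine Finset.sum_eq_zero (fun s _ => ?_)
  by_cases hs : s = i
  · subst hs
    exact Th_sq ξ s _
  · have h1 := Th_anti ξ i s (wn d N ξ W c u p (y + ee s) I)
    rw [h (y + ee s) I i hi (by simp [ee, h0, Ne.symm hs]), mul_zero, add_zero] at h1
    exact h1

theorem P4 (H : Hyp d N ξ W c u) (p : ℕ) : ∀ (y : Fin k → ℕ) (I : Finset (Fin k)), ∀ i ∈ I,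
    y i = 0 → Th d ξ i * wn d N ξ W c u p y I = 0 := by
  classical
  induction p with
  | zero =>
    intro y I i hi h0
    rw [wn]
    split_ifs with h1
    · exfalso
      obtain ⟨h1, h2, h3⟩ := h1
      subst h3
      rw [Finset.mem_singleton] at hi
      subst hi
      have := H.h1 y h1 h2
      omega
    · rw [mul_zero]
  | succ p ih =>
    intro y I i hi h0
    rcases wn_succ (d := d) (N := N) (ξ := ξ) (W := W) (c := c) (u := u) p y with
      ⟨v, hv, hv1, -, h⟩ | ⟨h, -⟩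
    · rw [h I]
      split_ifs with h1
      · refine P4Z ih y _ i (Finset.mem_erase.2 ⟨?_, hi⟩) h0
        rintro rfl
        omega
      · rw [mul_zero]
    · rw [h I, mul_zero]

/-- the sum of the values at `y + ee s` -/
theorem base_sum (hd : 1 ≤ d) (H : Hyp d N ξ W c u) (y : Fin k → ℕ) :
    ∑ l, zn d N ξ W c u 0 y {l} = 0 := by
  classical
  by_cases hy : ∑ s, y s + 1 = N
  · have h1 : ∀ s, ∑ l, wn d N ξ W c u 0 (y + ee s) {l} =
        algebraMap F (Lam F d) (u (y + ee s)) := by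
      intro s
      have hs : ∑ t, (y + ee s) t = N := by rw [sum_ee, hy]
      by_cases hW : y + ee s ∈ W
      · rw [H.h4 _ hs hW, map_zero]
        refine Finset.sum_eq_zero (fun l _ => ?_)
        rw [wn, if_neg]
        exact fun h => h.2.1 hW
      · rw [Finset.sum_eq_single (c (y + ee s))]
        · rw [wn, if_pos ⟨hs, hW, rfl⟩]
        · intro l _ hl
          rw [wn, if_neg]
          rintro ⟨-, -, h⟩
          exact hl (Finset.singleton_injective h)
        · simp
    have h2 : ∑ l, zn d N ξ W c u 0 y {l} =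
        ∑ s, Th d ξ s * ∑ l, wn d N ξ W c u 0 (y + ee s) {l} := by
      simp_rw [zn, Finset.mul_sum]
      exact Finset.sum_comm
    rw [h2]
    have h3 : ∀ s, Th d ξ s * ∑ l, wn d N ξ W c u 0 (y + ee s) {l} =
        ExteriorAlgebra.ι F (u (y + ee s) • (fun r : Fin d => ξ s ^ r.val)) := by
      intro s
      rw [h1 s, map_smul, ← Algebra.commutes, ← Algebra.smul_def]
      rfl
    rw [Finset.sum_congr rfl (fun s _ => h3 s), ← map_sum]
    have h4 : (∑ s, u (y + ee s) • (fun r : Fin d => ξ s ^ r.val)) = (0 : Fin d → F) := by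
      funext r
      rw [Finset.sum_apply]
      simp only [Pi.smul_apply, smul_eq_mul, Pi.zero_apply]
      rw [← H.h3 y hy r.val r.isLt]
      exact Finset.sum_congr rfl (fun s _ => mul_comm _ _)
    rw [h4, map_zero]
  · refine Finset.sum_eq_zero (fun l _ => ?_)
    by_contra h
    exact hy (Z1 h)

/-- the statement P5 in the degree `p + 1` -/
def P5 (d N : ℕ) (ξ : Fin k → F) (W : Set (Fin k → ℕ)) (c : (Fin k → ℕ) → Fin k)
    (u : (Fin k → ℕ) → F) (p : ℕ) : Prop :=
  ∀ (y : Fin k → ℕ) (I : Finset (Fin k)),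
    ∑ l ∈ Iᶜ, wn d N ξ W c u (p + 1) y (insert l I) = zn d N ξ W c u p y I

/-- the sum of `z_p` over the sets `insert l I` -/
def PZ (d N : ℕ) (ξ : Fin k → F) (W : Set (Fin k → ℕ)) (c : (Fin k → ℕ) → Fin k)
    (u : (Fin k → ℕ) → F) (p : ℕ) : Prop :=
  ∀ (y : Fin k → ℕ) (I : Finset (Fin k)),
    ∑ l ∈ Iᶜ, zn d N ξ W c u p y (insert l I) = 0

theorem PZ_zero (hd : 1 ≤ d) (H : Hyp d N ξ W c u) : PZ d N ξ W c u 0 := by
  classical
  intro y I
  by_cases hI : I = ∅
  · subst hI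
    simpa using base_sum hd H y
  · refine Finset.sum_eq_zero (fun l hl => ?_)
    by_contra h
    have h1 := (P3Z (P3 0) _ _ h).2
    rw [Finset.card_insert_of_notMem (Finset.mem_compl.1 hl)] at h1
    have h2 := Finset.card_pos.2 (Finset.nonempty_iff_ne_empty.2 hI)
    omega

theorem PZ_succ {p : ℕ} (h : P5 d N ξ W c u p) : PZ d N ξ W c u (p + 1) := by
  intro y I
  have h1 : ∑ l ∈ Iᶜ, zn d N ξ W c u (p + 1) y (insert l I) =
      ∑ s, Th d ξ s * ∑ l ∈ Iᶜ, wn d N ξ W c u (p + 1) (y + ee s) (insert l I) := by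
    simp_rw [zn, Finset.mul_sum]
    exact Finset.sum_comm
  rw [h1]
  have h2 : ∀ s, Th d ξ s * ∑ l ∈ Iᶜ, wn d N ξ W c u (p + 1) (y + ee s) (insert l I) =
      Th d ξ s * ∑ t, Th d ξ t * wn d N ξ W c u p (y + ee s + ee t) I := by
    intro s
    rw [h (y + ee s) I]
    rfl
  rw [Finset.sum_congr rfl (fun s _ => h2 s)]
  refine double ξ (fun s t => wn d N ξ W c u p (y + ee s + ee t) I) ?_
  intro s t
  rw [add_right_comm]

theorem P5_of [CharP F 2] (hN : d ≤ N) (hξ : Function.Injective ξ) (H : Hyp d N ξ W c u)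
    {p : ℕ} (hp : p + 1 ≤ d) (hz : PZ d N ξ W c u p) : P5 d N ξ W c u p := by
  classical
  intro y I
  rcases wn_succ (d := d) (N := N) (ξ := ξ) (W := W) (c := c) (u := u) p y with
    ⟨v, hv, hv1, -, h⟩ | ⟨h, hs⟩
  · simp_rw [h]
    by_cases hI : v ∈ I
    · have h1 : ∀ l ∈ Iᶜ, (if v ∈ insert l I then zn d N ξ W c u p y ((insert l I).erase v)
          else 0) = zn d N ξ W c u p y (insert l (I.erase v)) := by
        intro l hl
        rw [if_pos (Finset.mem_insert_of_mem hI), Finset.erase_insert_of_ne]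
        rintro rfl
        exact Finset.mem_compl.1 hl hI
      rw [Finset.sum_congr rfl h1]
      have h2 := hz y (I.erase v)
      have h3 : (I.erase v)ᶜ = insert v Iᶜ := by
        ext a
        simp only [Finset.mem_compl, Finset.mem_erase, Finset.mem_insert]
        tauto
      rw [h3, Finset.sum_insert (by simpa using hI), Finset.insert_erase hI] at h2
      have h4 : ∀ a : Lam F d, a + a = 0 := by
        intro a
        rw [← two_smul F a, CharTwo.two_eq_zero, zero_smul]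
      have h5 := h4 (zn d N ξ W c u p y I)
      rw [← h2] at h5
      exact (add_left_cancel h5).symm
    · rw [Finset.sum_eq_single v]
      · rw [if_pos (Finset.mem_insert_self v I), Finset.erase_insert hI]
      · intro l _ hl
        rw [if_neg]
        rw [Finset.mem_insert]
        rintro (h1 | h1)
        · exact hl h1.symm
        · exact hI h1
      · intro h1
        exact absurd (Finset.mem_compl.2 hI) h1
  · rw [Finset.sum_eq_zero (fun l _ => h _)]
    by_cases hy : ∑ s, y s + (p + 1) = N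
    · obtain ⟨Γ, hΓ1, hΓ2⟩ := seen_card H hN hp hy
      refine (vanish hξ (p := p + 1) (by omega) hΓ1 (fun J => zn d N ξ W c u p y J) ?_ ?_ ?_ ?_
        I).symm
      · intro J
        exact P2Z (P2 p) y J
      · intro J hJ
        have h1 := P3Z (P3 p) y J hJ
        exact ⟨fun v hv => (hΓ2 v).2 (h1.1 v hv), h1.2⟩
      · intro J i hi
        by_cases hJ : zn d N ξ W c u p y J = 0
        · rw [hJ, mul_zero]
        · have h1 := P3Z (P3 p) y J hJ
          exact P4Z (P4 H p) y J i hi (hs hy i (h1.1 i hi))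
      · intro J
        exact hz y J
    · by_contra h1
      exact hy (Z1 (Ne.symm h1))

theorem PZ_all [CharP F 2] (hd : 1 ≤ d) (hN : d ≤ N) (hξ : Function.Injective ξ)
    (H : Hyp d N ξ W c u) (p : ℕ) (hp : p < d) : PZ d N ξ W c u p := by
  induction p with
  | zero => exact PZ_zero hd H
  | succ p ih => exact PZ_succ (P5_of hN hξ H (by omega) (ih (by omega)))

theorem P6 [CharP F 2] (hd : 1 ≤ d) (hN : d ≤ N) (hξ : Function.Injective ξ)
    (H : Hyp d N ξ W c u) (y : Fin k → ℕ) (I : Finset (Fin k)) (hI : I.card = d) :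
    zn d N ξ W c u (d - 1) y I = 0 := by
  classical
  by_contra h0
  have h1 := P3Z (P3 (d - 1)) y I h0
  have h2 := Z1 h0
  obtain ⟨Γ, hΓ1, hΓ2⟩ := seen_card H hN (p := d - 1 + 1) (by omega) h2
  have h3 : I = Γ := Finset.eq_of_subset_of_card_le (fun v hv => (hΓ2 v).2 (h1.1 v hv))
    (by omega)
  obtain ⟨v, hv⟩ := Finset.card_pos.1 (show 0 < I.card by omega)
  have h4 := PZ_all hd hN hξ H (d - 1) (by omega) y (I.erase v)
  rw [Finset.sum_eq_single v] at h4
  · rw [Finset.insert_erase hv] at h4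
    exact h0 h4
  · intro l hl hlv
    by_contra h5
    have h6 := P3Z (P3 (d - 1)) y _ h5
    have h7 : l ∈ I := by
      rw [h3]
      exact (hΓ2 l).2 (h6.1 l (Finset.mem_insert_self _ _))
    exact Finset.mem_compl.1 hl (Finset.mem_erase.2 ⟨hlv, h7⟩)
  · intro h5
    exact absurd (Finset.mem_compl.2 (Finset.notMem_erase v I)) h5

end

/-- the chain on the integer points -/
noncomputable def wz (d N : ℕ) (ξ : Fin k → F) (W : Set (Fin k → ℕ)) (c : (Fin k → ℕ) → Fin k)
    (u : (Fin k → ℕ) → F) (p : ℕ) (I : Finset (Fin k)) (y : Fin k → ℤ) : Lam F d :=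
  if ∀ s, 0 ≤ y s then wn d N ξ W c u p (fun s => (y s).toNat) I else 0

theorem wz_nat {N : ℕ} {ξ : Fin k → F} {W : Set (Fin k → ℕ)} {c : (Fin k → ℕ) → Fin k}
    {u : (Fin k → ℕ) → F} (p : ℕ) (I : Finset (Fin k)) (x : Fin k → ℕ) :
    wz d N ξ W c u p I (fun s => (x s : ℤ)) = wn d N ξ W c u p x I := by
  rw [wz, if_pos (fun s => Int.natCast_nonneg _)]
  simp

theorem wz_DD_nat {N : ℕ} {ξ : Fin k → F} {W : Set (Fin k → ℕ)} {c : (Fin k → ℕ) → Fin k}
    {u : (Fin k → ℕ) → F} (p : ℕ) (I : Finset (Fin k)) (x : Fin k → ℕ) :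
    DD ξ (wz d N ξ W c u p I) (fun s => (x s : ℤ)) = zn d N ξ W c u p x I := by
  rw [DD, zn]
  refine Finset.sum_congr rfl (fun s _ => ?_)
  rw [← wz_nat]
  congr 2
  funext t
  by_cases ht : t = s
  · subst ht
    simp [ee, ez]
  · simp [ee, ez, ht]

theorem wz_neg {N : ℕ} {ξ : Fin k → F} {W : Set (Fin k → ℕ)} {c : (Fin k → ℕ) → Fin k}
    {u : (Fin k → ℕ) → F} (p : ℕ) (I : Finset (Fin k)) {y : Fin k → ℤ} {i : Fin k}
    (hi : y i < 0) : wz d N ξ W c u p I y = 0 := by
  rw [wz, if_neg]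
  intro h
  exact absurd (h i) (by omega)

theorem wz_DD_neg {N : ℕ} {ξ : Fin k → F} {W : Set (Fin k → ℕ)} {c : (Fin k → ℕ) → Fin k}
    {u : (Fin k → ℕ) → F} (H : Hyp d N ξ W c u) (p : ℕ) (I : Finset (Fin k)) {y : Fin k → ℤ}
    (hy : y ∈ ZC I) {i : Fin k} (hi : y i < 0) : DD ξ (wz d N ξ W c u p I) y = 0 := by
  have hiI : i ∈ I := by
    by_contra h
    exact absurd (hy i h) (by omega)
  rw [DD]
  refine Finset.sum_eq_zero (fun s _ => ?_)
  by_cases hs : s = i
  · subst hs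
    rw [wz]
    split_ifs with h
    · refine P4 H p _ I s hiI ?_
      have h1 := h s
      simp only [ez, Pi.add_apply, Pi.single_eq_same] at h1 ⊢
      omega
    · rw [mul_zero]
  · rw [wz_neg p I (i := i), mul_zero]
    simpa [ez, Ne.symm hs] using hi

end Ch

open Ch

theorem chain [CharP F 2] {N : ℕ} (hd : 1 ≤ d) (hN : d ≤ N) {ξ : Fin k → F}
    (hξ : Function.Injective ξ) {W : Set (Fin k → ℕ)} {c : (Fin k → ℕ) → Fin k}
    {u : (Fin k → ℕ) → F} (H : Hyp d N ξ W c u) :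
    ∃ w : ℕ → Finset (Fin k) → (Fin k → ℤ) → Lam F d,
      (∀ p I, Bd (w p I)) ∧
      (∀ x : Fin k → ℕ, ∑ s, x s = N →
        ∑ i, w 0 {i} (fun s => (x s : ℤ)) = algebraMap F (Lam F d) (u x)) ∧
      (∀ p, p + 1 < d → ∀ I : Finset (Fin k), I.card = p + 1 → ∀ y ∈ ZC I,
        ∑ l ∈ Iᶜ, w (p + 1) (insert l I) y = DD ξ (w p I) y) ∧
      (∀ I : Finset (Fin k), I.card = d → ∀ y ∈ ZC I, DD ξ (w (d - 1) I) y = 0) := by
  have hnat : ∀ y : Fin k → ℤ, (∀ s, 0 ≤ y s) → ∃ x : Fin k → ℕ, y = fun s => (x s : ℤ) := by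
    intro y hy
    exact ⟨fun s => (y s).toNat, funext fun s => (Int.toNat_of_nonneg (hy s)).symm⟩
  refine ⟨wz d N ξ W c u, ?_, ?_, ?_, ?_⟩
  · intro p I
    refine ⟨N, ?_⟩
    intro x hx n
    by_cases h : ∀ s, 0 ≤ x s
    · obtain ⟨x', rfl⟩ := hnat x h
      rw [wz_nat] at hx
      have h1 := P1 hx
      have h2 := Finset.single_le_sum (f := x') (fun s _ => Nat.zero_le _) (Finset.mem_univ n)
      simp only
      omega
    · exact absurd (by rw [wz, if_neg h]) hx
  · intro x hx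
    simp_rw [wz_nat]
    by_cases hW : x ∈ W
    · rw [H.h4 _ hx hW, map_zero]
      refine Finset.sum_eq_zero (fun l _ => ?_)
      rw [wn, if_neg]
      exact fun h => h.2.1 hW
    · rw [Finset.sum_eq_single (c x)]
      · rw [wn, if_pos ⟨hx, hW, rfl⟩]
      · intro l _ hl
        rw [wn, if_neg]
        rintro ⟨-, -, h⟩
        exact hl (Finset.singleton_injective h)
      · simp
  · intro p hp I hI y hy
    by_cases h : ∀ s, 0 ≤ y s
    · obtain ⟨x, rfl⟩ := hnat y h
      rw [wz_DD_nat]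
      simp_rw [wz_nat]
      exact P5_of hN hξ H (by omega) (PZ_all hd hN hξ H p (by omega)) x I
    · push Not at h
      obtain ⟨i, hi⟩ := h
      rw [wz_DD_neg H p I hy hi]
      exact Finset.sum_eq_zero (fun l _ => wz_neg _ _ hi)
  · intro I hI y hy
    by_cases h : ∀ s, 0 ≤ y s
    · obtain ⟨x, rfl⟩ := hnat y h
      rw [wz_DD_nat]
      exact P6 hd hN hξ H x I hI
    · push Not at h
      obtain ⟨i, hi⟩ := h
      exact wz_DD_neg H (d - 1) I hy hi

end SY
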