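import Pool.Agent.H27.SY.Disc

/-!
Project SY (MP_38b231_co), row SY-9: from covers to colourings (helper35; the planar case
is `Pool/Agent/H27/SX/Col.lean` of helper48).
-/

set_option autoImplicit false
set_option linter.all false

open MeasureTheory Metric Set Filter Module
open scoped Topology MeasureTheory RealInnerProductSpace Nat Pointwise

namespace SY

open SP SP.Mea SX

theorem few_colours {k d : ℕ} (hk : 1 ≤ k) {A : Fin k → Set (V k)} (hA : Adm0 k A)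
    {U : Set (V k)} (hU : IsOpen U) (hcov : meet k A (d + 1) ⊆ U) :
    ∃ δ > 0, ∀ z ∈ Sx k, z ∉ U → ∃ Γ : Finset (Fin k), Γ.card ≤ d ∧
      ∀ x, dist x z < δ → ∀ i, x ∈ A i → i ∈ Γ := by
  classical
  have hcomp : IsCompact (Sx k \ U) := (Comp_Sx_compact k).diff hU
  have hop : ∀ Γ : {Γ : Finset (Fin k) // Γ.card ≤ d},
      IsOpen {x : V k | ∀ i, x ∈ A i → i ∈ Γ.1} := by
    intro Γ
    have h1 : {x : V k | ∀ i, x ∈ A i → i ∈ Γ.1} = ⋂ i, {x : V k | x ∈ A i → i ∈ Γ.1} := by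
      ext x; simp
    rw [h1]
    apply isOpen_iInter_of_finite
    intro i
    by_cases h : i ∈ Γ.1
    · have h2 : {x : V k | x ∈ A i → i ∈ Γ.1} = univ := by
        ext x; simp [h]
      rw [h2]
      exact isOpen_univ
    · have h2 : {x : V k | x ∈ A i → i ∈ Γ.1} = (A i)ᶜ := by
        ext x
        simp only [mem_setOf_eq, mem_compl_iff]
        constructor
        · intro h3 h4
          exact h (h3 h4)
        · intro h3 h4
          exact absurd h4 h3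
      rw [h2]
      exact (hA.closed i).isOpen_compl
  obtain ⟨δ, hδ, h⟩ := lebesgue_number_lemma_of_metric hcomp hop (by
    rintro z ⟨hz, hzU⟩
    rw [mem_iUnion]
    have hcard : (Finset.univ.filter (fun i => z ∈ A i)).card < d + 1 := by
      by_contra hge
      exact hzU (hcov ⟨_, not_lt.1 hge, fun i hi => (Finset.mem_filter.1 hi).2⟩)
    exact ⟨⟨Finset.univ.filter (fun i => z ∈ A i), by omega⟩, fun i hi =>
      Finset.mem_filter.2 ⟨Finset.mem_univ i, hi⟩⟩)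
  refine ⟨δ, hδ, fun z hz hzU => ?_⟩
  obtain ⟨Γ, hΓ⟩ := h z ⟨hz, hzU⟩
  exact ⟨Γ.1, Γ.2, fun x hx i hi => hΓ (mem_ball.2 hx) i hi⟩

theorem col_pv_add {k : ℕ} (N : ℕ) (y z : Fin k → ℕ) : pv N (y + z) = pv N y + pv N z := by
  ext i
  simp only [pv, Pi.add_apply, Nat.cast_add, PiLp.add_apply]
  ring

theorem col_norm {k : ℕ} (N : ℕ) (z : Fin k → ℕ) : ‖pv N z‖ ≤ (∑ s, z s : ℕ) / N := by
  rw [EuclideanSpace.norm_eq]
  refine Real.sqrt_le_iff.2 ⟨by positivity, ?_⟩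
  have h1 : ∀ i, ‖pv N z i‖ ^ 2 = ((z i : ℝ) / N) ^ 2 := by
    intro i
    rw [Real.norm_eq_abs, sq_abs]
    rfl
  simp only [h1]
  push_cast
  rw [Finset.sum_div]
  have h2 : ∀ i ∈ (Finset.univ : Finset (Fin k)), (0 : ℝ) ≤ (z i : ℝ) / N := by
    intro i _
    positivity
  rw [pow_two (∑ i, (z i : ℝ) / N), Finset.sum_mul]
  refine Finset.sum_le_sum fun i hi => ?_
  rw [pow_two]
  exact mul_le_mul_of_nonneg_left (Finset.single_le_sum h2 hi) (h2 i hi)

theorem col_dist {k N d : ℕ} (y z z' : Fin k → ℕ) (hz : ∑ s, z s = d) (hz' : ∑ s, z' s = d) :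
    dist (pv N (y + z)) (pv N (y + z')) ≤ 2 * d / N := by
  rw [col_pv_add, col_pv_add, dist_add_left, dist_eq_norm]
  refine (norm_sub_le _ _).trans ?_
  have h1 := col_norm N z
  have h2 := col_norm N z'
  rw [hz] at h1
  rw [hz'] at h2
  refine (add_le_add h1 h2).trans (le_of_eq ?_)
  ring

theorem discrete_cov {m d : ℕ} (hd : 1 ≤ d) {A : Fin (d + m + 1) → Set (V (d + m + 1))}
    (hA : Adm0 (d + m + 1) A) {ι : Type} [Fintype ι] (K : ι → Set (V (d + m + 1)))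
    (hK : ∀ i, IsOpen (K i)) (hcov : meet (d + m + 1) A (d + 1) ⊆ ⋃ i, K i) :
    ∃ N0 : ℕ, ∀ N ≥ N0, ∀ R : ι → ℕ, ((N + m).choose m : ℝ) ≤
      ∑ i, ((WN N (K i) + smp (d + m + 1) (R i)).card : ℝ) / ((R i + d).choose d : ℝ) := by
  classical
  obtain ⟨δ, hδ, h⟩ := few_colours (by omega) hA (isOpen_iUnion hK) hcov
  obtain ⟨n, hn⟩ := exists_nat_gt (2 * d / δ)
  refine ⟨n + d, fun N hN R => ?_⟩
  have hN2 : d ≤ N := by omega
  have hN0 : (0 : ℝ) < N := by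
    have : 0 < N := by omega
    exact_mod_cast this
  have hNδ : 2 * d / (N : ℝ) < δ := by
    rw [div_lt_iff₀ hN0]
    rw [div_lt_iff₀ hδ] at hn
    have h1 : (n : ℝ) ≤ N := by
      have : n ≤ N := by omega
      exact_mod_cast this
    nlinarith
  have hmem : ∀ x : Fin (d + m + 1) → ℕ, ∑ s, x s = N → pv N x ∈ Sx (d + m + 1) := by
    intro x hx
    refine ⟨fun i => ?_, ?_⟩
    · exact div_nonneg (Nat.cast_nonneg _) (Nat.cast_nonneg _)
    · change ∑ i, (x i : ℝ) / (N : ℝ) = 1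
      rw [← Finset.sum_div, ← Nat.cast_sum, hx, div_self hN0.ne']
  have hex : ∀ x : Fin (d + m + 1) → ℕ, ∃ i, (∑ s, x s = N → pv N x ∈ A i) := by
    intro x
    by_cases hx : ∑ s, x s = N
    · have h1 := hmem x hx
      rw [← hA.cover, mem_iUnion] at h1
      obtain ⟨i, hi⟩ := h1
      exact ⟨i, fun _ => hi⟩
    · exact ⟨0, fun h => absurd h hx⟩
  choose c hc using hex
  have hWN : ∀ x : Fin (d + m + 1) → ℕ, ∑ s, x s = N → (∀ i, x ∉ WN N (K i)) →
      pv N x ∉ ⋃ i, K i := by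
    intro x hx h1 h2
    obtain ⟨i, hi⟩ := mem_iUnion.1 h2
    apply h1 i
    rw [WN, Finset.mem_filter, smp, Finset.mem_piAntidiag]
    exact ⟨⟨hx, fun _ _ => Finset.mem_univ _⟩, hi⟩
  apply disc rfl hd hN2 (fun i => WN N (K i)) c R
  · intro x hx _
    have h1 := hA.pos _ _ (hc x hx)
    have h2 : (0 : ℝ) < (x (c x) : ℝ) / (N : ℝ) := h1
    rw [div_pos_iff_of_pos_right hN0] at h2
    have h3 : 0 < x (c x) := by exact_mod_cast h2
    omega
  · intro y hy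
    have hsum : ∀ z : Fin (d + m + 1) → ℕ, ∑ s, z s = d → ∑ i, (y + z) i = N := by
      intro z hz
      simp only [Pi.add_apply, Finset.sum_add_distrib]
      omega
    by_cases hst : ∃ z₀ : Fin (d + m + 1) → ℕ, ∑ s, z₀ s = d ∧ ∀ i, y + z₀ ∉ WN N (K i)
    · obtain ⟨z₀, hz₀, h0⟩ := hst
      obtain ⟨Γ, hΓ, hpq⟩ := h _ (hmem _ (hsum z₀ hz₀)) (hWN _ (hsum z₀ hz₀) h0)
      refine ⟨Γ, hΓ, fun z hz _ => ?_⟩
      exact hpq (pv N (y + z)) ((col_dist y z z₀ hz hz₀).trans_lt hNδ) _ (hc _ (hsum z hz))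
    · exact ⟨∅, by simp, fun z hz h1 => absurd ⟨z, hz, h1⟩ hst⟩

end SY
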