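import Pool.Agent.H27.SY.Defs
import Pool.Agent.H27.SX.ConeMeet

/-!
# Project SY, row SY-21: the sets where several parts of a cone partition meet (helper95)
-/

set_option autoImplicit false

open MeasureTheory Metric Set Filter Module
open scoped Topology MeasureTheory RealInnerProductSpace Nat Pointwise

namespace SY

open SP SP.Mea SX

theorem cone_meet {k j : ℕ} (hj : 1 ≤ j) {A : Fin k → Set (V k)} {δ : ℝ} (h0 : 0 < δ)
    (h1 : δ < 1) :
    meet (k + 1) (coneA δ A) (j + 1) ⊆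
      {x | ∃ t ∈ Icc (0 : ℝ) (1 - δ), ∃ y ∈ meet k A (j + 1), x = cn t y} ∪
      {x | ∃ y ∈ meet k A j, x = cn (1 - δ) y} := by
  intro x hx
  rcases coneMeet_gen hj h0 hx with h | h
  · exact Or.inl h
  · exact Or.inr h.1

theorem cone_planar {k q j : ℕ} (hj : 1 ≤ j) {A : Fin k → Set (V k)} {δ : ℝ} (h0 : 0 < δ)
    (h1 : δ < 1) (h3 : Planar k q (meet k A (j + 1))) (h2 : Planar k (q + 1) (meet k A j)) :
    Planar (k + 1) (q + 1) (meet (k + 1) (coneA δ A) (j + 1)) := by
  refine coneMeet_mono ((cone_meet hj h0 h1).trans ?_)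
    (coneMeet_union (coneMeet_cone h3) (coneMeet_copy h2 (1 - δ)))
  refine union_subset_union ?_ subset_rfl
  rintro x ⟨t, _, y, hy, rfl⟩
  exact ⟨t, y, hy, rfl⟩

theorem cone_simplex (k : ℕ) : Planar (k + 1) k (Sx (k + 1)) := by
  refine ⟨1, fun _ => EuclideanSpace.single 0 1,
    fun _ a => EuclideanSpace.single a.succ 1 - EuclideanSpace.single 0 1, ?_, ?_, ?_⟩
  · intro _
    change ∑ j, (EuclideanSpace.single (0 : Fin (k + 1)) (1 : ℝ) : V (k + 1)) j = 1
    simp
  · intro _ a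
    rw [mem_E0]
    simp
  · rintro x ⟨h0, h1⟩
    refine mem_iUnion.2 ⟨0, fun a => x a.succ, ?_⟩
    ext j
    refine Fin.cases ?_ (fun j => ?_) j
    · simp only [PiLp.add_apply, coneMeet_sum_apply, PiLp.sub_apply, PiLp.single_apply]
      rw [Fin.sum_univ_succ] at h1
      have h2 : ∀ a : Fin k, ¬ ((0 : Fin (k + 1)) = a.succ) :=
        fun a h => (Fin.succ_ne_zero a) h.symm
      simp only [h2, if_false, if_true]
      rw [← Finset.sum_mul]
      linarith
    · simp only [PiLp.add_apply, coneMeet_sum_apply, PiLp.sub_apply, PiLp.single_apply]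
      have h2 : ¬ (j.succ = (0 : Fin (k + 1))) := Fin.succ_ne_zero j
      simp [h2, Fin.succ_inj]

theorem simplex_planar {k : ℕ} (hk : 1 ≤ k) (A : Fin (k + 1) → Set (V (k + 1)))
    (hA : Adm0 (k + 1) A) : Planar (k + 1) k (meet (k + 1) A 1) :=
  coneMeet_mono (meet_compact hA 1 (le_refl 1)).2 (cone_simplex k)

end SY
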