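import Pool.Agent.H27.SY.Defs
import Pool.Agent.H27.SY.Col
import Pool.Agent.H27.SX.CovAux
import Pool.Agent.H27.SX.Count

/-!
# Project SY (MP_38b231_co), row SY-10: the limit argument (helper8; the case `d = 2` is
`Pool/Agent/H27/SX/CovAux.lean`, `Cov.lean`)
-/

set_option autoImplicit false
set_option linter.all false

open MeasureTheory Metric Set Filter Module
open scoped Topology MeasureTheory RealInnerProductSpace Nat Pointwise

namespace SY

open SP SP.Mea SX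

/-- the limit argument: `hdc` is `discrete_cov` -/
theorem Cov_aux {m d : ℕ} (hd : 1 ≤ d) {ι : Type} [Fintype ι] (K : ι → Set (V (d + m + 1)))
    (hKb : ∀ i, Bornology.IsBounded (K i))
    (hdc : ∃ N0 : ℕ, ∀ N ≥ N0, ∀ R : ι → ℕ, ((N + m).choose m : ℝ) ≤
      ∑ i, ((WN N (K i) + smp (d + m + 1) (R i)).card : ℝ) / ((R i + d).choose d : ℝ))
    (ε : ι → ℝ) (hε : ∀ i, 0 < ε i) :
    Real.sqrt ((d : ℝ) + m + 1) / (m ! : ℝ) ≤
      ∑ i, (d ! : ℝ) * (μHE[d + m] (closure (K i ∩ Hp (d + m + 1)) +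
        ε i • D0 (d + m + 1))).toReal / ε i ^ d := by
  classical
  have hsq : Real.sqrt (((d + m : ℕ) : ℝ) + 1) = Real.sqrt ((d : ℝ) + m + 1) := by
    congr 1
    push_cast
    ring
  have hct : ∀ X : Set (V (d + m + 1)), IsCompact X → X ⊆ Hp (d + m + 1) → ∀ η : ℝ, 0 < η →
      ∃ N0 : ℕ, ∀ N ≥ N0, ∀ (T : Finset (Fin (d + m + 1) → ℕ)) (v : V (d + m + 1)),
      (∀ x ∈ T, pv N x + v ∈ X) →
      (T.card : ℝ) * Real.sqrt ((d : ℝ) + m + 1) ≤
        (N : ℝ) ^ (d + m) * ((μHE[d + m] X).toReal + η) := fun X hX hXH η hη => by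
    have h := count (n := d + m) (by omega) hX hXH hη
    rw [hsq] at h
    exact h
  set M : ι → ℝ := fun i =>
    (μHE[d + m] (closure (K i ∩ Hp (d + m + 1)) + ε i • D0 (d + m + 1))).toReal with hM
  have hfd : (0 : ℝ) < (d ! : ℝ) := by exact_mod_cast Nat.factorial_pos d
  have key : ∀ η : ℝ, 0 < η → Real.sqrt ((d : ℝ) + m + 1) / (m ! : ℝ) ≤
      ∑ i, (d ! : ℝ) * (M i + η) / ε i ^ d := by
    intro η hη
    have h1 : ∀ i, ∃ N0 : ℕ, ∀ N ≥ N0, ∀ (T : Finset (Fin (d + m + 1) → ℕ)) (v : V (d + m + 1)),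
        (∀ x ∈ T, pv N x + v ∈ closure (K i ∩ Hp (d + m + 1)) + ε i • D0 (d + m + 1)) →
        (T.card : ℝ) * Real.sqrt ((d : ℝ) + m + 1) ≤ (N : ℝ) ^ (d + m) * (M i + η) := fun i =>
      hct _ (CovAux_X_compact (hKb i) (ε i)) (CovAux_X_sub (K i) (ε i)) η hη
    choose N1 hN1 using h1
    obtain ⟨N0, hN0⟩ := hdc
    obtain ⟨N, hN, hNi, hNp⟩ : ∃ N : ℕ, N0 ≤ N ∧ (∀ i, N1 i ≤ N) ∧ 1 ≤ N := by
      refine ⟨N0 + ∑ i, N1 i + 1, by omega, fun i => ?_, by omega⟩
      have := Finset.single_le_sum (f := N1) (fun j _ => Nat.zero_le _) (Finset.mem_univ i)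
      omega
    have hNR : (0 : ℝ) < N := by exact_mod_cast hNp
    set R : ι → ℕ := fun i => ⌊ε i * N⌋₊ with hRdef
    have h2 := hN0 N hN R
    have h3 : (N : ℝ) ^ m / (m ! : ℝ) ≤ ((N + m).choose m : ℝ) := by
      have h4 := Nat.pow_le_choose (α := ℝ) m (N + m)
      refine le_trans ?_ h4
      apply div_le_div_of_nonneg_right _ (by positivity)
      have h5 : N + m + 1 - m = N + 1 := by omega
      rw [h5]
      push_cast
      exact pow_le_pow_left₀ hNR.le (by linarith) m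
    have h6 : ∀ i, Real.sqrt ((d : ℝ) + m + 1) *
        (((WN N (K i) + smp (d + m + 1) (R i)).card : ℝ) / ((R i + d).choose d : ℝ)) ≤
        (N : ℝ) ^ m * ((d ! : ℝ) * (M i + η) / ε i ^ d) := by
      intro i
      have h7 := hN1 i N (hNi i) (WN N (K i) + smp (d + m + 1) (R i))
        (WithLp.toLp 2 (fun _ => -((R i : ℝ) / N * (1 / ((d + m + 1 : ℕ) : ℝ)))))
        (fun x hx => CovAux_mem (by omega) hNp (hε i) (Nat.floor_le (by
          have := hε i
          positivity)) x hx)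
      have h10 : 0 < ε i * N := by
        have := hε i
        positivity
      have h8 : (ε i * N) ^ d / (d ! : ℝ) ≤ ((R i + d).choose d : ℝ) := by
        have h4 := Nat.pow_le_choose (α := ℝ) d (R i + d)
        refine le_trans ?_ h4
        apply div_le_div_of_nonneg_right _ (by positivity)
        have h5 : R i + d + 1 - d = R i + 1 := by omega
        rw [h5]
        push_cast
        exact pow_le_pow_left₀ h10.le (Nat.lt_floor_add_one _).le d
      have h12 : 0 < (ε i * N) ^ d / (d ! : ℝ) := by positivity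
      have hM0 : 0 ≤ M i := ENNReal.toReal_nonneg
      calc Real.sqrt ((d : ℝ) + m + 1) *
          (((WN N (K i) + smp (d + m + 1) (R i)).card : ℝ) / ((R i + d).choose d : ℝ))
          = (((WN N (K i) + smp (d + m + 1) (R i)).card : ℝ) * Real.sqrt ((d : ℝ) + m + 1)) /
            ((R i + d).choose d : ℝ) := by ring
        _ ≤ ((N : ℝ) ^ (d + m) * (M i + η)) / ((R i + d).choose d : ℝ) :=
            div_le_div_of_nonneg_right h7 (by positivity)
        _ ≤ ((N : ℝ) ^ (d + m) * (M i + η)) / ((ε i * N) ^ d / (d ! : ℝ)) :=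
            div_le_div_of_nonneg_left (by positivity) h12 h8
        _ = (N : ℝ) ^ m * ((d ! : ℝ) * (M i + η) / ε i ^ d) := by
            have := (hε i).ne'
            rw [mul_pow, pow_add]
            field_simp
    have h13 : (N : ℝ) ^ m * (Real.sqrt ((d : ℝ) + m + 1) / (m ! : ℝ)) ≤
        (N : ℝ) ^ m * ∑ i, (d ! : ℝ) * (M i + η) / ε i ^ d := by
      calc (N : ℝ) ^ m * (Real.sqrt ((d : ℝ) + m + 1) / (m ! : ℝ))
          = Real.sqrt ((d : ℝ) + m + 1) * ((N : ℝ) ^ m / (m ! : ℝ)) := by ring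
        _ ≤ Real.sqrt ((d : ℝ) + m + 1) * ((N + m).choose m : ℝ) :=
            mul_le_mul_of_nonneg_left h3 (Real.sqrt_nonneg _)
        _ ≤ Real.sqrt ((d : ℝ) + m + 1) *
            ∑ i, ((WN N (K i) + smp (d + m + 1) (R i)).card : ℝ) / ((R i + d).choose d : ℝ) :=
            mul_le_mul_of_nonneg_left h2 (Real.sqrt_nonneg _)
        _ = ∑ i, Real.sqrt ((d : ℝ) + m + 1) *
            (((WN N (K i) + smp (d + m + 1) (R i)).card : ℝ) / ((R i + d).choose d : ℝ)) :=
            Finset.mul_sum _ _ _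
        _ ≤ ∑ i, (N : ℝ) ^ m * ((d ! : ℝ) * (M i + η) / ε i ^ d) :=
            Finset.sum_le_sum fun i _ => h6 i
        _ = (N : ℝ) ^ m * ∑ i, (d ! : ℝ) * (M i + η) / ε i ^ d := (Finset.mul_sum _ _ _).symm
    exact le_of_mul_le_mul_left h13 (by positivity)
  refine le_of_forall_pos_le_add fun δ hδ => ?_
  set S : ℝ := ∑ i, (d ! : ℝ) / ε i ^ d with hS
  have hS0 : 0 ≤ S := Finset.sum_nonneg fun i _ => by
    have := hε i
    positivity
  have h14 := key (δ / (S + 1)) (by positivity)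
  have h15 : ∑ i, (d ! : ℝ) * (M i + δ / (S + 1)) / ε i ^ d =
      ∑ i, (d ! : ℝ) * M i / ε i ^ d + δ / (S + 1) * S := by
    rw [hS, Finset.mul_sum, ← Finset.sum_add_distrib]
    refine Finset.sum_congr rfl fun i _ => ?_
    ring
  rw [h15] at h14
  have h16 : δ / (S + 1) * S ≤ δ := by
    rw [div_mul_eq_mul_div, div_le_iff₀ (by linarith)]
    nlinarith
  linarith

theorem cov {m d : ℕ} (hd : 1 ≤ d) {A : Fin (d + m + 1) → Set (V (d + m + 1))}
    (hA : Adm0 (d + m + 1) A) {ι : Type} [Fintype ι] (K : ι → Set (V (d + m + 1)))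
    (hK : ∀ i, IsOpen (K i)) (hKb : ∀ i, Bornology.IsBounded (K i))
    (hcov : meet (d + m + 1) A (d + 1) ⊆ ⋃ i, K i) (ε : ι → ℝ) (hε : ∀ i, 0 < ε i) :
    Real.sqrt ((d : ℝ) + m + 1) / (m ! : ℝ) ≤
      ∑ i, (d ! : ℝ) * (μHE[d + m] (closure (K i ∩ Hp (d + m + 1)) +
        ε i • D0 (d + m + 1))).toReal / ε i ^ d :=
  Cov_aux hd K hKb (discrete_cov hd hA K hK hcov) ε hε

end SY
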