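import Pool.Agent.H27.SY.Inj
import Pool.Agent.H27.SY.Ext

/-!
# Project SY: the zigzag descent
-/

set_option autoImplicit false

open MeasureTheory Metric Set Filter Module
open scoped Topology MeasureTheory RealInnerProductSpace Nat Pointwise

namespace SY

open SP SP.Mea SX

section

variable {F : Type} [Field F] {k d : ℕ}

theorem Bd_zero {M : Type} [AddCommGroup M] : Bd (fun _ : Fin k → ℤ => (0 : M)) :=
  ⟨0, fun _ h => absurd rfl h⟩

theorem Bd_sub {M : Type} [AddCommGroup M] {f g : (Fin k → ℤ) → M} (hf : Bd f) (hg : Bd g) :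
    Bd (fun x => f x - g x) := by
  obtain ⟨A, hA⟩ := hf
  obtain ⟨B, hB⟩ := hg
  refine ⟨max A B, fun x hx n => ?_⟩
  by_cases h : f x = 0
  · have h2 : g x ≠ 0 := by
      intro h3
      exact hx (by show f x - g x = 0; rw [h, h3, sub_zero])
    exact (hB x h2 n).trans (le_max_right _ _)
  · exact (hA x h n).trans (le_max_left _ _)

theorem Bd_sum {M ι : Type} [AddCommGroup M] (s : Finset ι) {f : ι → (Fin k → ℤ) → M}
    (hf : ∀ i, Bd (f i)) : Bd (fun x => ∑ i ∈ s, f i x) := by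
  choose B hB using hf
  by_cases hs : s.Nonempty
  · refine ⟨s.sup' hs B, fun x hx n => ?_⟩
    obtain ⟨i, hi, h⟩ := Finset.exists_ne_zero_of_sum_ne_zero hx
    exact (hB i x h n).trans (Finset.le_sup' B hi)
  · rw [Finset.not_nonempty_iff_eq_empty] at hs
    subst hs
    exact ⟨0, fun x hx => absurd (Finset.sum_empty) hx⟩

theorem Bd_comp {M M' : Type} [AddCommGroup M] [AddCommGroup M'] {f : (Fin k → ℤ) → M}
    (hf : Bd f) (g : M → M') (hg : g 0 = 0) : Bd (fun x => g (f x)) := by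
  obtain ⟨B, hB⟩ := hf
  refine ⟨B, fun x hx n => hB x (fun h => hx ?_) n⟩
  show g (f x) = 0
  rw [h, hg]

theorem Bd_shift {M : Type} [AddCommGroup M] {f : (Fin k → ℤ) → M} (hf : Bd f) (s : Fin k) :
    Bd (fun x => f (x + ez s)) := by
  obtain ⟨B, hB⟩ := hf
  refine ⟨B, fun x hx n => ?_⟩
  have h := hB _ hx n
  have h2 : (0 : ℤ) ≤ ez s n := by
    unfold ez
    by_cases hn : n = s
    · subst hn; simp
    · simp [hn]
  have h3 : (x + ez s) n = x n + ez s n := rfl
  omega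

theorem Bd_DD {f : (Fin k → ℤ) → Lam F d} (ξ : Fin k → F) (hf : Bd f) : Bd (DD ξ f) :=
  Bd_sum Finset.univ (fun s => Bd_comp (Bd_shift hf s) (fun z => Th d ξ s * z) (mul_zero _))

theorem ZC_shift {I : Finset (Fin k)} {y : Fin k → ℤ} (hy : y ∈ ZC I) (s : Fin k) :
    y + ez s ∈ ZC I := by
  intro n hn
  have h2 : (0 : ℤ) ≤ ez s n := by
    unfold ez
    by_cases h : n = s
    · subst h; simp
    · simp [h]
  exact add_nonneg (hy n hn) h2

theorem ZC_mono {I J : Finset (Fin k)} (h : I ⊆ J) {y : Fin k → ℤ} (hy : y ∈ ZC I) : y ∈ ZC J :=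
  fun n hn => hy n (fun h2 => hn (h h2))

theorem self_add [CharP F 2] {M : Type} [AddCommGroup M] [Module F M] (x : M) : x + x = 0 := by
  have h : ((1 : F) + 1) • x = 0 := by rw [CharTwo.add_self_eq_zero, zero_smul]
  rw [add_smul, one_smul] at h
  exact h

theorem sum_sym [CharP F 2] {M : Type} [AddCommGroup M] [Module F M] (I : Finset (Fin k))
    (g : Finset (Fin k) → M) :
    ∑ l ∈ Iᶜ, ∑ l' ∈ (insert l I)ᶜ, g (insert l' (insert l I)) = 0 := by
  classical
  rw [Finset.sum_sigma']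
  refine Finset.sum_involution (fun p _ => ⟨p.2, p.1⟩) ?_ ?_ ?_ ?_
  · rintro ⟨l, l'⟩ _
    show g (insert l' (insert l I)) + g (insert l (insert l' I)) = 0
    rw [Finset.insert_comm]
    exact self_add (F := F) _
  · rintro ⟨l, l'⟩ h1 _ h2
    simp only [Finset.mem_sigma, Finset.mem_compl, Finset.mem_insert, not_or] at h1
    simp only [Sigma.mk.injEq, heq_eq_eq] at h2
    exact h1.2.1 h2.1
  · rintro ⟨l, l'⟩ h1
    simp only [Finset.mem_sigma, Finset.mem_compl, Finset.mem_insert, not_or] at h1 ⊢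
    exact ⟨h1.2.2, fun h => h1.2.1 h.symm, h1.1⟩
  · rintro ⟨l, l'⟩ _
    rfl

theorem DD_sub (ξ : Fin k → F) (f g : (Fin k → ℤ) → Lam F d) (y : Fin k → ℤ) :
    DD ξ (fun x => f x - g x) y = DD ξ f y - DD ξ g y := by
  simp only [DD, mul_sub, Finset.sum_sub_distrib]

theorem DD_sum {ι : Type} (ξ : Fin k → F) (s : Finset ι) (f : ι → (Fin k → ℤ) → Lam F d)
    (y : Fin k → ℤ) : DD ξ (fun x => ∑ i ∈ s, f i x) y = ∑ i ∈ s, DD ξ (f i) y := by
  simp only [DD, Finset.mul_sum]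
  exact Finset.sum_comm

theorem Lo_sub {M : Type} [AddCommGroup M] [Module F M] (α : Fin k → F)
    (f g : (Fin k → ℤ) → M) (y : Fin k → ℤ) :
    Lo α (fun x => f x - g x) y = Lo α f y - Lo α g y := by
  simp only [Lo, smul_sub, Finset.sum_sub_distrib]

/-- a cocycle on `ZC I` is a coboundary there -/
theorem cobound {ξ : Fin k → F} (hξ : Function.Injective ξ) {I : Finset (Fin k)}
    (h0 : I.Nonempty) (hI : I.card ≤ d) {z : (Fin k → ℤ) → Lam F d} (hz : Bd z)
    (h : ∀ y ∈ ZC I, DD ξ z y = 0) :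
    ∃ s : (Fin k → ℤ) → Lam F d, Bd s ∧ ∀ y ∈ ZC I, DD ξ s y = z y := by
  obtain ⟨i, hi⟩ := h0
  obtain ⟨a, ha, ha'⟩ := exists_ev (d := d) hξ hI hi
  have h1 : ev a ξ i ≠ 0 := by rw [ha]; exact one_ne_zero
  obtain ⟨s, hs, hs'⟩ := solve (ev a ξ) hi h1 ha'
    (Bd_comp hz (fun x => co a x) (map_zero _))
  refine ⟨s, hs, ?_⟩
  have key : ∀ x ∈ ZC I, (fun x => DD ξ s x - z x) x = 0 := by
    refine inj (ev a ξ) hi h1 ha' (Bd_sub (Bd_DD ξ hs) hz) ?_
    intro y hy
    rw [Lo_sub, Lo_DD]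
    have e1 : DD ξ (Lo (ev a ξ) s) y = DD ξ (fun x => co a (z x)) y := by
      unfold DD
      exact Finset.sum_congr rfl (fun t _ => by rw [hs' _ (ZC_shift hy t)])
    have e2 := co_DD ξ a z y
    rw [h y hy, map_zero, zero_add] at e2
    rw [e1, e2, sub_self]
  intro y hy
  exact sub_eq_zero.mp (key y hy)

theorem desc_step [CharP F 2] {ξ : Fin k → F} (hξ : Function.Injective ξ)
    (w : ℕ → Finset (Fin k) → (Fin k → ℤ) → Lam F d) (hB : ∀ p I, Bd (w p I))
    (h1 : ∀ p, p + 1 < d → ∀ I : Finset (Fin k), I.card = p + 1 → ∀ y ∈ ZC I,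
      ∑ l ∈ Iᶜ, w (p + 1) (insert l I) y = DD ξ (w p I) y)
    (h2 : ∀ I : Finset (Fin k), I.card = d → ∀ y ∈ ZC I, DD ξ (w (d - 1) I) y = 0)
    (n : ℕ) : ∀ q, q + n = d → 1 ≤ q →
    ∃ s : Finset (Fin k) → (Fin k → ℤ) → Lam F d, (∀ I, Bd (s I)) ∧
      ∀ I : Finset (Fin k), I.card = q → ∀ y ∈ ZC I,
        DD ξ (fun x => w (q - 1) I x - ∑ l ∈ Iᶜ, s (insert l I) x) y = 0 := by
  classical
  induction n with
  | zero =>
    intro q hq _
    obtain rfl : q = d := by omega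
    refine ⟨fun _ _ => 0, fun _ => Bd_zero, fun I hI y hy => ?_⟩
    have e : (fun x => w (q - 1) I x - ∑ l ∈ Iᶜ, (0 : Lam F q)) = w (q - 1) I := by
      funext x
      rw [Finset.sum_const_zero, sub_zero]
    rw [e]
    exact h2 I hI y hy
  | succ n ih =>
    intro q hq hq1
    obtain ⟨s', hs', h3⟩ := ih (q + 1) (by omega) (by omega)
    have key : ∀ I : Finset (Fin k), ∃ s : (Fin k → ℤ) → Lam F d, Bd s ∧ (I.card = q + 1 →
        ∀ y ∈ ZC I, DD ξ s y = w q I y - ∑ l ∈ Iᶜ, s' (insert l I) y) := by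
      intro I
      by_cases hI : I.card = q + 1
      · obtain ⟨s, hs, hs2⟩ := cobound (d := d) hξ (I := I) (Finset.card_pos.mp (by omega))
          (by omega) (z := fun x => w q I x - ∑ l ∈ Iᶜ, s' (insert l I) x)
          (Bd_sub (hB q I) (Bd_sum _ (fun l => hs' (insert l I))))
          (fun y hy => h3 I hI y hy)
        exact ⟨s, hs, fun _ => hs2⟩
      · exact ⟨fun _ => 0, Bd_zero, fun h => absurd h hI⟩
    choose s hs hs2 using key
    refine ⟨s, hs, fun I hI y hy => ?_⟩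
    rw [DD_sub, DD_sum]
    have e1 : ∀ l ∈ Iᶜ, DD ξ (s (insert l I)) y =
        w q (insert l I) y - ∑ l' ∈ (insert l I)ᶜ, s' (insert l' (insert l I)) y := by
      intro l hl
      refine hs2 _ ?_ y (ZC_mono (Finset.subset_insert _ _) hy)
      rw [Finset.card_insert_of_notMem (Finset.mem_compl.mp hl), hI]
    rw [Finset.sum_congr rfl e1, Finset.sum_sub_distrib, sum_sym (F := F) I (fun J => s' J y),
      sub_zero]
    obtain ⟨p, rfl⟩ : ∃ p, q = p + 1 := ⟨q - 1, by omega⟩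
    rw [h1 p (by omega) I hI y hy]
    exact sub_self _

theorem eps_Th (ξ : Fin k → F) (s : Fin k) (z : Lam F d) :
    ExteriorAlgebra.algebraMapInv (Th d ξ s * z) = 0 := by
  rw [map_mul]
  have h : ExteriorAlgebra.algebraMapInv (Th d ξ s) = 0 := by
    unfold Th ExteriorAlgebra.algebraMapInv
    simp
  rw [h, zero_mul]

theorem desc [CharP F 2] (hd : 1 ≤ d) {ξ : Fin k → F} (hξ : Function.Injective ξ)
    (w : ℕ → Finset (Fin k) → (Fin k → ℤ) → Lam F d) (hB : ∀ p I, Bd (w p I))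
    (h1 : ∀ p, p + 1 < d → ∀ I : Finset (Fin k), I.card = p + 1 → ∀ y ∈ ZC I,
      ∑ l ∈ Iᶜ, w (p + 1) (insert l I) y = DD ξ (w p I) y)
    (h2 : ∀ I : Finset (Fin k), I.card = d → ∀ y ∈ ZC I, DD ξ (w (d - 1) I) y = 0) :
    ∀ x ∈ ZC (∅ : Finset (Fin k)), ∑ i, ExteriorAlgebra.algebraMapInv (w 0 {i} x) = 0 := by
  classical
  obtain ⟨s, hs, h3⟩ := desc_step hξ w hB h1 h2 (d - 1) 1 (by omega) le_rfl
  set a : Fin d → F := fun r => if r.val = 0 then 1 else 0 with ha
  have hev : ∀ t, ev a ξ t = 1 := by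
    intro t
    unfold ev
    rw [Finset.sum_eq_single (⟨0, hd⟩ : Fin d)]
    · simp [ha]
    · intro b _ hb
      have : b.val ≠ 0 := fun h => hb (Fin.ext h)
      simp [ha, this]
    · intro h; exact absurd (Finset.mem_univ _) h
  have key : ∀ i : Fin k, ∀ x ∈ ZC ({i} : Finset (Fin k)),
      ExteriorAlgebra.algebraMapInv (w 0 {i} x - ∑ l ∈ ({i} : Finset (Fin k))ᶜ,
        s (insert l {i}) x) = 0 := by
    intro i
    refine inj (M := F) (ev a ξ) (Finset.mem_singleton_self i)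
      (by rw [hev]; exact one_ne_zero) (fun l hl hn => absurd (Finset.mem_singleton.mp hl) hn)
      (f := fun x => ExteriorAlgebra.algebraMapInv (w 0 {i} x - ∑ l ∈ ({i} : Finset (Fin k))ᶜ,
        s (insert l {i}) x))
      (Bd_comp (Bd_sub (hB 0 {i}) (Bd_sum _ (fun l => hs (insert l {i}))))
        (fun z => ExteriorAlgebra.algebraMapInv z) (map_zero _)) ?_
    intro y hy
    have e1 := co_DD ξ a (fun x => w 0 {i} x - ∑ l ∈ ({i} : Finset (Fin k))ᶜ,
        s (insert l {i}) x) y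
    rw [h3 {i} (Finset.card_singleton i) y hy, map_zero, zero_add] at e1
    have e2 := congrArg ExteriorAlgebra.algebraMapInv e1
    unfold DD Lo at e2
    rw [map_sum, map_sum] at e2
    simp only [eps_Th, Finset.sum_const_zero, map_smul] at e2
    unfold Lo
    exact e2.symm
  intro x hx
  have e3 : ∀ i ∈ (Finset.univ : Finset (Fin k)), ExteriorAlgebra.algebraMapInv (w 0 {i} x) =
      ∑ l ∈ ({i} : Finset (Fin k))ᶜ, ExteriorAlgebra.algebraMapInv (s (insert l {i}) x) := by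
    intro i _
    have h := key i x (ZC_mono (Finset.empty_subset _) hx)
    rw [map_sub, map_sum, sub_eq_zero] at h
    exact h
  rw [Finset.sum_congr rfl e3]
  have h4 := sum_sym (F := F) (M := F) (∅ : Finset (Fin k))
    (fun J => ExteriorAlgebra.algebraMapInv (s J x))
  simpa using h4

end

end SY
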