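import Mathlib
import Pool.Agent.H27.SY.Defs

/-!
# Project SY, row SY-7: the sumset inequality
-/

set_option autoImplicit false

open Module Finset
open scoped Pointwise

namespace SY

open SX

section Sumset

variable {F : Type} [Field F]

/-- the exponents: the first entry is the exponent of `q`, the others are the exponents of the new
variables -/
abbrev sumT (d R : ℕ) : Finset (Fin (d + 1) →₀ ℕ) := finsuppAntidiag Finset.univ R

theorem card_sumT (d R : ℕ) : (sumT d R).card = (R + d).choose d := by
  rw [card_finsuppAntidiag_nat_eq_choose, Finset.card_univ, Fintype.card_fin,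
    show d + 1 + R - 1 = R + d by omega]
  exact Nat.choose_symm_add

theorem mem_sumT {d R : ℕ} (p : sumT d R) : ∑ j, p.1 j = R := by
  have h := p.2
  rw [mem_finsuppAntidiag] at h
  exact h.1

theorem sumT_tail {d R : ℕ} (p : sumT d R) : ∑ r, p.1.tail r + p.1 0 = R := by
  have h := mem_sumT p
  rw [Fin.sum_univ_succ] at h
  simp only [Finsupp.tail_apply]
  omega

theorem sumT_ext {d R : ℕ} {p p' : sumT d R} (h : p.1.tail = p'.1.tail) : p = p' := by
  have h1 := sumT_tail p
  have h2 := sumT_tail p'
  rw [h] at h1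
  have h3 : p.1 0 = p'.1 0 := by omega
  apply Subtype.ext
  ext j
  refine Fin.cases h3 (fun r => ?_) j
  have h4 := DFunLike.congr_fun h r
  simpa [Finsupp.tail_apply] using h4

/-- the products of `n` elements of a family span the powers of its span -/
theorem sumset_pow_le {A : Type*} [CommRing A] [Algebra F A] {k : ℕ} (Z : Fin k → A) (n : ℕ) :
    (Submodule.span F (Set.range Z)) ^ n ≤
      Submodule.span F ((fun ρ : Fin k → ℕ => ∏ s, Z s ^ ρ s) ''
        (smp k n : Set (Fin k → ℕ))) := by
  induction n with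
  | zero =>
    rw [pow_zero, Submodule.one_le]
    apply Submodule.subset_span
    refine ⟨0, ?_, ?_⟩
    · simp [smp]
    · simp
  | succ n ih =>
    rw [pow_succ]
    refine (mul_le_mul' ih le_rfl).trans ?_
    rw [Submodule.span_mul_span]
    apply Submodule.span_mono
    rintro _ ⟨_, ⟨ρ, hρ, rfl⟩, _, ⟨s, rfl⟩, rfl⟩
    refine ⟨ρ + Pi.single s 1, ?_, ?_⟩
    · have h1 : ∑ i, ρ i = n := (Finset.mem_piAntidiag.mp (Finset.mem_coe.mp hρ)).1
      apply Finset.mem_coe.mpr
      apply Finset.mem_piAntidiag.mpr
      refine ⟨?_, fun i _ => Finset.mem_univ i⟩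
      simp only [Pi.add_apply]
      rw [Finset.sum_add_distrib, h1, Finset.sum_pi_single']
      simp
    · beta_reduce
      simp only [Pi.add_apply, pow_add]
      rw [Finset.prod_mul_distrib]
      congr 1
      rw [Finset.prod_eq_single s]
      · simp
      · intro b _ hb
        simp [Pi.single_eq_of_ne hb]
      · intro h
        exact absurd (Finset.mem_univ s) h

/-- the products over a sumset -/
theorem sumset_mem {A : Type*} [CommRing A] [Algebra F A] {k : ℕ} (Z : Fin k → A) (R : ℕ)
    (W : Finset (Fin k → ℕ)) (x : Fin k → ℕ) (hx : x ∈ W) (f : A)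
    (hf : f ∈ (Submodule.span F (Set.range Z)) ^ R) :
    (∏ s, Z s ^ x s) * f ∈ Submodule.span F ((fun ρ : Fin k → ℕ => ∏ s, Z s ^ ρ s) ''
        ((W + smp k R : Finset (Fin k → ℕ)) : Set (Fin k → ℕ))) := by
  have hf' := sumset_pow_le Z R hf
  clear hf
  induction hf' using Submodule.span_induction with
  | mem g hg =>
    obtain ⟨ρ, hρ, rfl⟩ := hg
    apply Submodule.subset_span
    refine ⟨x + ρ, ?_, ?_⟩
    · apply Finset.mem_coe.mpr
      exact Finset.add_mem_add hx (Finset.mem_coe.mp hρ)
    · beta_reduce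
      simp only [Pi.add_apply, pow_add]
      rw [Finset.prod_mul_distrib]
  | zero =>
    rw [mul_zero]
    exact Submodule.zero_mem _
  | add g h _ _ hg hh =>
    rw [mul_add]
    exact Submodule.add_mem _ hg hh
  | smul c g _ hg =>
    rw [mul_smul_comm]
    exact Submodule.smul_mem _ c hg

/-- products of elements of a submodule -/
theorem sumset_prod_mem {A : Type*} [CommRing A] [Algebra F A] {ι : Type*} (S : Submodule F A)
    (G : ι → A) (hG : ∀ j, G j ∈ S) (e : ι → ℕ) (s : Finset ι) :
    ∏ j ∈ s, G j ^ e j ∈ S ^ (∑ j ∈ s, e j) := by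
  classical
  induction s using Finset.induction_on with
  | empty =>
    rw [Finset.prod_empty, Finset.sum_empty, pow_zero]
    exact Submodule.one_le.mp le_rfl
  | insert a s ha ih =>
    rw [Finset.prod_insert ha, Finset.sum_insert ha, pow_add]
    exact Submodule.mul_mem_mul (Submodule.pow_mem_pow _ (hG a) (e a)) ih

/-- independence -/
theorem sumset_indep {P : Type*} [CommRing P] [IsDomain P] [Algebra F P] {r d R : ℕ}
    (y : Fin r → MvPolynomial (Fin d) P) (q : P) (hq : q ≠ 0)
    (hy : LinearIndependent F (fun i => MvPolynomial.constantCoeff (y i))) :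
    LinearIndependent F (fun ip : Fin r × sumT d R =>
      y ip.1 * MvPolynomial.monomial ip.2.1.tail (q ^ ip.2.1 0)) := by
  rw [Fintype.linearIndependent_iff]
  intro g hg
  have key : ∀ n : ℕ, ∀ p : sumT d R, ∑ r, p.1.tail r = n → ∀ i, g (i, p) = 0 := by
    intro n
    induction n using Nat.strong_induction_on with
    | _ n ih =>
      intro p0 hp0
      have h1 := congrArg (MvPolynomial.coeff p0.1.tail) hg
      rw [MvPolynomial.coeff_sum, MvPolynomial.coeff_zero, Fintype.sum_prod_type_right,
        Finset.sum_eq_single p0] at h1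
      · have h2 : ∀ i : Fin r, MvPolynomial.coeff p0.1.tail (g (i, p0) • (y i *
            MvPolynomial.monomial p0.1.tail (q ^ p0.1 0))) =
            (g (i, p0) • MvPolynomial.constantCoeff (y i)) * q ^ p0.1 0 := by
          intro i
          rw [MvPolynomial.coeff_smul, MvPolynomial.coeff_mul_monomial', if_pos le_rfl,
            tsub_self, smul_mul_assoc]
          rfl
        simp only [h2] at h1
        rw [← Finset.sum_mul] at h1
        rcases mul_eq_zero.mp h1 with h3 | h3
        · exact (Fintype.linearIndependent_iff.mp hy) (fun i => g (i, p0)) h3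
        · exact absurd h3 (pow_ne_zero _ hq)
      · intro p _ hp
        apply Finset.sum_eq_zero
        intro i _
        by_cases hlt : ∑ r, p.1.tail r < n
        · rw [ih _ hlt p rfl i, zero_smul, MvPolynomial.coeff_zero]
        · rw [MvPolynomial.coeff_smul, MvPolynomial.coeff_mul_monomial', if_neg, smul_zero]
          intro hle
          apply hp
          apply sumT_ext
          have h4 : ∀ r ∈ (Finset.univ : Finset (Fin d)), p.1.tail r ≤ p0.1.tail r :=
            fun r _ => hle r
          have h5 : ∑ r, p.1.tail r = ∑ r, p0.1.tail r :=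
            le_antisymm (Finset.sum_le_sum h4) (by rw [hp0]; exact not_lt.mp hlt)
          ext r
          exact (Finset.sum_eq_sum_iff_of_le h4).mp h5 r (Finset.mem_univ r)
      · intro h
        exact absurd (Finset.mem_univ _) h
  rintro ⟨i, p⟩
  exact key _ p rfl i

variable {m d : ℕ}

/-- the lifted forms -/
noncomputable def sumZ (c : Fin (d + m + 1) → Fin (m + 1) → F) (s : Fin (d + m + 1)) :
    MvPolynomial (Fin d) (MvPolynomial (Fin (m + 1)) F) :=
  MvPolynomial.C (lf c s) +
    (if h : s.val < m + 1 then 0 else MvPolynomial.X ⟨s.val - (m + 1), by omega⟩)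

theorem sumZ_cc (c : Fin (d + m + 1) → Fin (m + 1) → F) (s : Fin (d + m + 1)) :
    MvPolynomial.constantCoeff (sumZ c s) = lf c s := by
  unfold sumZ
  rw [map_add, MvPolynomial.constantCoeff_C]
  split_ifs <;> simp

theorem sumZ_small {c : Fin (d + m + 1) → Fin (m + 1) → F} (hv : Vars c) (i : Fin (m + 1)) :
    sumZ c ⟨i.val, by omega⟩ = MvPolynomial.C (MvPolynomial.X i) := by
  unfold sumZ
  rw [dif_pos (show (⟨i.val, by omega⟩ : Fin (d + m + 1)).val < m + 1 from i.2), add_zero]
  congr 1
  unfold lf
  rw [Finset.sum_eq_single i]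
  · rw [hv _ i i.2, if_pos rfl, map_one, one_mul]
  · intro b _ hb
    rw [hv _ b i.2, if_neg (fun h => hb (Fin.ext h.symm)), map_zero, zero_mul]
  · intro h
    exact absurd (Finset.mem_univ _) h

theorem sumZ_big {c : Fin (d + m + 1) → Fin (m + 1) → F} (hv : Vars c) (r : Fin d) :
    (MvPolynomial.X r : MvPolynomial (Fin d) (MvPolynomial (Fin (m + 1)) F)) =
      sumZ c ⟨m + 1 + r.val, by omega⟩ -
        ∑ i : Fin (m + 1), c ⟨m + 1 + r.val, by omega⟩ i • sumZ c ⟨i.val, by omega⟩ := by
  have h1 : sumZ c ⟨m + 1 + r.val, by omega⟩ =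
      MvPolynomial.C (lf c ⟨m + 1 + r.val, by omega⟩) + MvPolynomial.X r := by
    unfold sumZ
    rw [dif_neg (show ¬ (m + 1 + r.val < m + 1) by omega)]
    congr 2
    apply Fin.ext
    simp
  rw [h1, eq_sub_iff_add_eq, add_comm (MvPolynomial.X r)]
  congr 1
  unfold lf
  rw [map_sum]
  refine Finset.sum_congr rfl fun i _ => ?_
  rw [sumZ_small hv, map_mul, Algebra.smul_def]
  rfl

theorem sumset' {c : Fin (d + m + 1) → Fin (m + 1) → F} (hv : Vars c)
    (W : Finset (Fin (d + m + 1) → ℕ)) (R : ℕ) :
    rkc c W * (R + d).choose d ≤ (W + smp (d + m + 1) R).card := by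
  classical
  have hfW : Module.Finite F (Submodule.span F (mo c '' (W : Set (Fin (d + m + 1) → ℕ)))) :=
    Module.Finite.span_of_finite F (W.finite_toSet.image _)
  obtain ⟨f, hf, -, hind⟩ := Submodule.exists_fun_fin_finrank_span_eq F
    (mo c '' (W : Set (Fin (d + m + 1) → ℕ)))
  choose x hxW hx using hf
  have hq : (MvPolynomial.X 0 : MvPolynomial (Fin (m + 1)) F) ≠ 0 := MvPolynomial.X_ne_zero 0
  have hy : LinearIndependent F (fun i : Fin (rkc c W) =>
      MvPolynomial.constantCoeff (∏ s, sumZ c s ^ x i s)) := by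
    have : (fun i : Fin (rkc c W) => MvPolynomial.constantCoeff (∏ s, sumZ c s ^ x i s)) = f := by
      funext i
      rw [map_prod, ← hx i]
      unfold mo
      refine Finset.prod_congr rfl fun s _ => ?_
      rw [map_pow, sumZ_cc]
    rw [this]
    exact hind
  have hI := sumset_indep (R := R) (fun i : Fin (rkc c W) => ∏ s, sumZ c s ^ x i s)
    (MvPolynomial.X 0) hq hy
  have hS : ∀ i : Fin (m + 1), sumZ c ⟨i.val, by omega⟩ ∈ Submodule.span F (Set.range (sumZ c)) :=
    fun i => Submodule.subset_span ⟨_, rfl⟩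
  have hmem : ∀ p : sumT d R, (MvPolynomial.monomial p.1.tail
      ((MvPolynomial.X 0 : MvPolynomial (Fin (m + 1)) F) ^ p.1 0) :
        MvPolynomial (Fin d) (MvPolynomial (Fin (m + 1)) F)) ∈
      (Submodule.span F (Set.range (sumZ c))) ^ R := by
    intro p
    have h1 := sumset_prod_mem (Submodule.span F (Set.range (sumZ c)))
      (fun j : Fin (d + 1) => Fin.cases (MvPolynomial.C (MvPolynomial.X 0))
        (fun r => (MvPolynomial.X r : MvPolynomial (Fin d) (MvPolynomial (Fin (m + 1)) F))) j)
      (fun j => ?_) p.1 Finset.univ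
    · rw [mem_sumT p, Fin.prod_univ_succ] at h1
      rw [MvPolynomial.monomial_eq, map_pow, Finsupp.prod_fintype _ _ (fun i => pow_zero _)]
      exact h1
    · refine Fin.cases ?_ (fun r => ?_) j
      · have h2 := hS 0
        rw [sumZ_small hv] at h2
        exact h2
      · change (MvPolynomial.X r : MvPolynomial (Fin d) (MvPolynomial (Fin (m + 1)) F)) ∈ _
        rw [sumZ_big hv r]
        exact Submodule.sub_mem _ (Submodule.subset_span ⟨_, rfl⟩)
          (Submodule.sum_mem _ fun i _ => Submodule.smul_mem _ _ (hS i))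
  have hcard : Fintype.card (Fin (rkc c W) × sumT d R) = rkc c W * (R + d).choose d := by
    rw [Fintype.card_prod, Fintype.card_fin, Fintype.card_coe, card_sumT]
  obtain ⟨U, hU⟩ : ∃ U : Submodule F (MvPolynomial (Fin d) (MvPolynomial (Fin (m + 1)) F)),
      U = Submodule.span F ((fun ρ : Fin (d + m + 1) → ℕ => ∏ s, sumZ c s ^ ρ s) ''
        ((W + smp (d + m + 1) R : Finset (Fin (d + m + 1) → ℕ)) :
          Set (Fin (d + m + 1) → ℕ))) := ⟨_, rfl⟩
  have hUmem : ∀ ip : Fin (rkc c W) × sumT d R, (∏ s, sumZ c s ^ x ip.1 s) *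
      MvPolynomial.monomial ip.2.1.tail
        ((MvPolynomial.X 0 : MvPolynomial (Fin (m + 1)) F) ^ ip.2.1 0) ∈ U := by
    intro ip
    rw [hU]
    exact sumset_mem (sumZ c) R W (x ip.1) (Finset.mem_coe.mp (hxW ip.1)) _ (hmem ip.2)
  have hfin : Module.Finite F U := by
    rw [hU]
    exact Module.Finite.span_of_finite F (((W + smp (d + m + 1) R).finite_toSet).image _)
  have hI' : LinearIndependent F (fun ip : Fin (rkc c W) × sumT d R =>
      (⟨_, hUmem ip⟩ : U)) := by
    apply LinearIndependent.of_comp U.subtype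
    exact hI
  have h1 := hI'.fintype_card_le_finrank
  rw [hcard] at h1
  refine h1.trans ?_
  rw [hU, ← Finset.coe_image]
  exact (finrank_span_finset_le_card _).trans Finset.card_image_le

end Sumset

variable {F : Type} [Field F] {k d : ℕ}

theorem sumset {m : ℕ} (hk : k = d + m + 1) {c : Fin k → Fin (m + 1) → F} (hv : Vars c)
    (W : Finset (Fin k → ℕ)) (R : ℕ) :
    rkc c W * (R + d).choose d ≤ (W + smp k R).card := by
  subst hk
  exact sumset' hv W R

end SY
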