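import Pool.Agent.H27.SY.Rank
import Pool.Agent.H27.SY.Sumset

/-!
# Project SY: the discrete inequality for covers of the set of exceptional exponents
-/

set_option autoImplicit false

open MeasureTheory Metric Set Filter Module
open scoped Topology MeasureTheory RealInnerProductSpace Nat Pointwise

namespace SY

open SP SP.Mea SX

section

variable {F : Type} [Field F] {k m : ℕ}

theorem rkc_empty (c : Fin k → Fin (m + 1) → F) : rkc c ∅ = 0 := by
  unfold rkc
  rw [Finset.coe_empty, Set.image_empty, Submodule.span_empty, finrank_bot]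

theorem rkc_union (c : Fin k → Fin (m + 1) → F) (A B : Finset (Fin k → ℕ)) :
    rkc c (A ∪ B) ≤ rkc c A + rkc c B := by
  unfold rkc
  rw [Finset.coe_union, Set.image_union, Submodule.span_union]
  have hA : (mo c '' (A : Set (Fin k → ℕ))).Finite := A.finite_toSet.image _
  have hB : (mo c '' (B : Set (Fin k → ℕ))).Finite := B.finite_toSet.image _
  have := FiniteDimensional.span_of_finite F hA
  have := FiniteDimensional.span_of_finite F hB
  exact Submodule.finrank_add_le_finrank_add_finrank _ _

theorem rkc_biUnion (c : Fin k → Fin (m + 1) → F) {ι : Type} [Fintype ι]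
    (W : ι → Finset (Fin k → ℕ)) : rkc c (Finset.univ.biUnion W) ≤ ∑ i, rkc c (W i) := by
  classical
  have h : ∀ s : Finset ι, rkc c (s.biUnion W) ≤ ∑ i ∈ s, rkc c (W i) := by
    intro s
    induction s using Finset.induction_on with
    | empty => rw [Finset.biUnion_empty, rkc_empty, Finset.sum_empty]
    | insert a s ha ih =>
      rw [Finset.biUnion_insert, Finset.sum_insert ha]
      exact (rkc_union _ _ _).trans (Nat.add_le_add_left ih _)
  exact h Finset.univ

end

theorem disc {k m d N : ℕ} (hk : k = d + m + 1) (hd : 1 ≤ d) (hN : d ≤ N) {ι : Type} [Fintype ι]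
    (W : ι → Finset (Fin k → ℕ)) (g : (Fin k → ℕ) → Fin k) (R : ι → ℕ)
    (h1 : ∀ x, ∑ s, x s = N → (∀ i, x ∉ W i) → 1 ≤ x (g x))
    (h2 : ∀ y : Fin k → ℕ, ∑ s, y s + d = N → ∃ Γ : Finset (Fin k), Γ.card ≤ d ∧
      ∀ z : Fin k → ℕ, ∑ s, z s = d → (∀ i, y + z ∉ W i) → g (y + z) ∈ Γ) :
    ((N + m).choose m : ℝ) ≤
      ∑ i, ((W i + smp k (R i)).card : ℝ) / ((R i + d).choose d : ℝ) := by
  -- a field of characteristic two with `k` different elements
  let F : Type := AlgebraicClosure (ZMod 2)
  have hinf : Infinite F := inferInstance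
  let ξ : Fin k → F := fun s => Infinite.natEmbedding F s.val
  have hξ : Function.Injective ξ := by
    intro s t hst
    exact Fin.val_injective ((Infinite.natEmbedding F).injective hst)
  obtain ⟨c, hv, hr⟩ := exists_nice (F := F) hk hξ
  have hmem : ∀ x : Fin k → ℕ, x ∉ Finset.univ.biUnion W → ∀ i, x ∉ W i := by
    intro x hx i hi
    exact hx (Finset.mem_biUnion.2 ⟨i, Finset.mem_univ i, hi⟩)
  have h3 := rank_full hk hd hN hξ hv hr (Finset.univ.biUnion W) g
    (fun x hx hW => h1 x hx (hmem x hW))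
    (fun y hy => by
      obtain ⟨Γ, hΓ, hΓ2⟩ := h2 y hy
      exact ⟨Γ, hΓ, fun z hz hW => hΓ2 z hz (hmem _ hW)⟩)
  have h4 : ((N + m).choose m : ℝ) ≤ ∑ i, (rkc c (W i) : ℝ) := by
    exact_mod_cast h3.trans (rkc_biUnion c W)
  refine h4.trans (Finset.sum_le_sum fun i _ => ?_)
  have h5 : 0 < (R i + d).choose d := Nat.choose_pos (by omega)
  rw [le_div_iff₀ (by exact_mod_cast h5)]
  exact_mod_cast sumset hk hv (W i) (R i)

end SY
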