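import Pool.Agent.H27.SY.Defs
import Pool.Agent.H27.SX.Fin

/-!
# Finite Minkowski content implies finite Hausdorff measure (project SY, row SY-16)
-/

set_option autoImplicit false

open MeasureTheory Metric Set Filter Module
open scoped Topology MeasureTheory RealInnerProductSpace Nat Pointwise ENNReal

namespace SY

open SP SP.Mea SX

/-- finite Minkowski content implies finite Hausdorff measure -/
theorem meas_fin {m d : ℕ} (hd : 1 ≤ d) {S : Set (V (d + m + 1))} (hS : IsCompact S)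
    (hH : S ⊆ Hp (d + m + 1)) {L : ℝ} (hL : HasContent (d + m + 1) m S L) : μHE[m] S < ⊤ := by
  have hk : 2 ≤ d + m + 1 := by omega
  have e2 : d + m + 1 - 1 - m = d := by omega
  have e1 : d + m + 1 - 1 = m + d := by omega
  have hα := al_pos (m + d)
  have hα2 := al_pos d
  have hfin : ∀ ε : ℝ, μHE[m + d] (cthickening ε S ∩ Hp (d + m + 1)) < ⊤ := fun ε => by
    have h := mu_fin hk hS.isBounded ε
    rwa [e1] at h
  unfold HasContent at hL
  rw [e2, e1] at hL
  set c : ℝ := (|L| + 1) * al d with hc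
  have hc0 : 0 < c := by positivity
  have hev : ∀ᶠ ε : ℝ in 𝓝[>] 0,
      μHE[m + d] (cthickening ε S ∩ Hp (d + m + 1)) ≤ ENNReal.ofReal (c * ε ^ d) := by
    have h1 : ∀ᶠ ε : ℝ in 𝓝[>] 0, (μHE[m + d] (cthickening ε S ∩ Hp (d + m + 1))).toReal /
        (al d * ε ^ d) < |L| + 1 :=
      hL.eventually_lt_const (by linarith [le_abs_self L])
    filter_upwards [h1, self_mem_nhdsWithin] with ε h2 h3
    have h3' : 0 < ε := h3
    rw [div_lt_iff₀ (by positivity)] at h2
    rw [← ENNReal.ofReal_toReal (hfin ε).ne]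
    apply ENNReal.ofReal_le_ofReal
    rw [hc]
    linarith
  set C : ℝ := c / al (m + d) with hC
  have hC0 : 0 < C := by positivity
  -- separated sets
  have hcard : ∀ ε : ℝ, 0 < ε →
      μHE[m + d] (cthickening ε S ∩ Hp (d + m + 1)) ≤ ENNReal.ofReal (c * ε ^ d) →
      ∀ F : Finset (V (d + m + 1)), (∀ x ∈ F, x ∈ S) →
      (∀ x ∈ F, ∀ y ∈ F, x ≠ y → 2 * ε < dist x y) → (F.card : ℝ) * ε ^ m ≤ C := by
    intro ε hε h1 F hF hs
    have h2 := fin_card hk hH hε F hF hs
    rw [e1] at h2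
    replace h2 := h2.trans h1
    rw [← ENNReal.ofReal_natCast, ← ENNReal.ofReal_mul (by positivity),
      ENNReal.ofReal_le_ofReal_iff (by positivity)] at h2
    rw [hC, le_div_iff₀ hα]
    have h3 : (F.card : ℝ) * ε ^ m * al (m + d) * ε ^ d ≤ c * ε ^ d := by
      calc _ = (F.card : ℝ) * (al (m + d) * ε ^ (m + d)) := by ring
        _ ≤ _ := h2
    exact le_of_mul_le_mul_right h3 (by positivity)
  have hnet : ∀ ε : ℝ, ∃ F : Finset (V (d + m + 1)), 0 < ε →
      μHE[m + d] (cthickening ε S ∩ Hp (d + m + 1)) ≤ ENNReal.ofReal (c * ε ^ d) →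
      ((F.card : ℝ) * ε ^ m ≤ C ∧ ∀ y ∈ S, ∃ x ∈ F, dist y x ≤ 2 * ε) := by
    intro ε
    by_cases h : 0 < ε ∧ μHE[m + d] (cthickening ε S ∩ Hp (d + m + 1)) ≤ ENNReal.ofReal (c * ε ^ d)
    · obtain ⟨hε, h1⟩ := h
      obtain ⟨F, h2, h3, h4⟩ := fin_net (S := S) (δ := 2 * ε) (by positivity)
        (N := ⌈C / ε ^ m⌉₊) (fun F hF hs => by
          have h5 := hcard ε hε h1 F hF hs
          rw [← le_div_iff₀ (by positivity)] at h5
          exact_mod_cast h5.trans (Nat.le_ceil _))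
      exact ⟨F, fun _ _ => ⟨hcard ε hε h1 F h2 h3, h4⟩⟩
    · exact ⟨∅, fun h1 h2 => absurd ⟨h1, h2⟩ h⟩
  choose F hF using hnet
  have hH : (μH[m] : Measure (V (d + m + 1))) S ≤ ENNReal.ofReal (4 ^ m * C) := by
    have hl := Measure.hausdorffMeasure_le_liminf_sum (m : ℝ) S (l := 𝓝[>] (0 : ℝ))
      (ι := fun ε => F ε) (fun ε => ENNReal.ofReal (4 * ε)) (by
        have : Tendsto (fun ε : ℝ => ENNReal.ofReal (4 * ε)) (𝓝 0) (𝓝 (ENNReal.ofReal (4 * 0))) :=
          ENNReal.tendsto_ofReal (Tendsto.const_mul 4 tendsto_id)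
        rw [mul_zero, ENNReal.ofReal_zero] at this
        exact this.mono_left nhdsWithin_le_nhds)
      (fun ε x => closedBall (x : V (d + m + 1)) (2 * ε)) (by
        filter_upwards [self_mem_nhdsWithin] with ε h3 x
        have h3' : 0 < ε := h3
        exact fin_diam _ h3'.le)
      (by
        filter_upwards [hev, self_mem_nhdsWithin] with ε h1 h3 y hy
        obtain ⟨x, hx, hxy⟩ := (hF ε h3 h1).2 y hy
        exact mem_iUnion.2 ⟨⟨x, hx⟩, hxy⟩)
    refine hl.trans ?_
    refine liminf_le_of_frequently_le' (Eventually.frequently ?_)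
    filter_upwards [hev, self_mem_nhdsWithin] with ε h1 h3
    have h3' : 0 < ε := h3
    have h4 : ∀ x : F ε, Metric.ediam (closedBall (x : V (d + m + 1)) (2 * ε)) ^ (m : ℝ)
        ≤ ENNReal.ofReal ((4 * ε) ^ m) := by
      intro x
      rw [ENNReal.ofReal_pow (by positivity), ENNReal.rpow_natCast]
      gcongr
      exact fin_diam _ h3'.le
    refine (Finset.sum_le_sum fun x _ => h4 x).trans ?_
    rw [Finset.sum_const, nsmul_eq_mul, Finset.card_univ, Fintype.card_coe,
      ← ENNReal.ofReal_natCast, ← ENNReal.ofReal_mul (by positivity)]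
    apply ENNReal.ofReal_le_ofReal
    calc ((F ε).card : ℝ) * (4 * ε) ^ m = 4 ^ m * ((F ε).card * ε ^ m) := by
          rw [mul_pow]; ring
      _ ≤ 4 ^ m * C := by
          gcongr
          exact (hF ε h3 h1).1
  rw [Measure.euclideanHausdorffMeasure_def, Measure.smul_apply]
  exact ENNReal.mul_lt_top ENNReal.coe_lt_top (hH.trans_lt ENNReal.ofReal_lt_top)

end SY
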