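import Pool.Agent.H27.SY.Main

/-!
# The minimal measure of the set where at least `j` parts meet, in terms of `k` and `j`
-/

set_option autoImplicit false

open scoped Nat

namespace SY

open SP SX

theorem final (k j : ℕ) (hj : 3 ≤ j) (hjk : j + 1 ≤ k) :
    (2 * (j - 1) ≤ k →
      IsGLB {L : ℝ | ∃ A : Fin k → Set (V k), Adm k A ∧ Rect k (k - j) (meet k A j) ∧
        HasContent k (k - j) (meet k A j) L}
        (Real.sqrt k / (((k - j) ! : ℝ) * Real.sqrt (2 ^ (j - 1))))) ∧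
    (∀ A : Fin k → Set (V k), Adm0 k A → Rect k (k - j) (meet k A j) → ∀ L : ℝ,
      HasContent k (k - j) (meet k A j) L →
        Real.sqrt k / (((k - j) ! : ℝ) * Real.sqrt (2 ^ (j - 1))) ≤ L) ∧
    ∀ A : Fin k → Set (V k), Adm0 k A → ∀ L : ℝ, HasContent k (k - j) (meet k A j) L →
      Real.sqrt k / (((k - j) ! : ℝ) *
        (((j - 1) ! : ℝ) * (al (j - 1) * Real.sqrt (1 - 1 / k) ^ (j - 1)))) ≤ L := by
  obtain ⟨d, rfl⟩ : ∃ d, j = d + 1 := ⟨j - 1, by omega⟩
  obtain ⟨m, rfl⟩ : ∃ m, k = d + m + 1 := ⟨k - d - 1, by omega⟩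
  have h1 : d + m + 1 - (d + 1) = m := by omega
  have h2 : d + 1 - 1 = d := by omega
  have h3 : ((d + m + 1 : ℕ) : ℝ) = (d : ℝ) + m + 1 := by push_cast; ring
  rw [h1, h2, h3]
  exact ⟨fun h => main (by omega) (by omega) (by omega),
    fun A hA hR L hL => lower (by omega) (by omega) hA hR hL,
    fun A hA L hL => lower_gen (by omega) hA hL⟩

end SY
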