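import Pool.Agent.H27.SY.Defs
import Pool.Agent.H27.SX.Flat
import Pool.Agent.H27.SY.Cov

/-! Project SY (MP_38b231_co), row SY-19: the lower bound without rectifiability. -/

set_option autoImplicit false
set_option linter.all false

open MeasureTheory Metric Set Filter Module
open scoped Topology MeasureTheory RealInnerProductSpace Nat Pointwise

namespace SY

open SP SP.Mea SX

/-- the neighbourhood of `S` used with `cov` -/
theorem gen_subset {k : ℕ} (hk : 1 ≤ k) {S : Set (V k)} {t ε R : ℝ}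
    (ht : 0 < t) (hε : 0 < ε) (hR : 0 ≤ R) (hR2 : R ^ 2 = 1 - 1 / (k : ℝ)) :
    closure (thickening (t * ε) S ∩ Hp k) + ε • D0 k ⊆
      cthickening ((t + R) * ε) S ∩ Hp k := by
  have hHc : IsClosed (Hp k) := by
    unfold Hp
    exact isClosed_eq (by fun_prop) continuous_const
  rintro _ ⟨x, hx, _, ⟨y, hy, rfl⟩, rfl⟩
  have hxH : x ∈ Hp k := by
    have := closure_mono inter_subset_right hx
    rwa [hHc.closure_eq] at this
  have hxS : x ∈ cthickening (t * ε) S := by
    have h1 := closure_mono inter_subset_left hx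
    exact closure_thickening_subset_cthickening _ _ h1
  have hy2 : ‖y‖ ≤ R := by
    have h1 := D0_norm hk hy
    have h2 : ‖y‖ ^ 2 ≤ R ^ 2 := by
      rw [hR2]
      exact h1
    exact le_of_sq_le_sq h2 hR
  refine ⟨?_, ?_⟩
  · rw [mem_cthickening_iff] at hxS ⊢
    show infEDist (x + ε • y) S ≤ _
    have h3 : edist (x + ε • y) x ≤ ENNReal.ofReal (ε * R) := by
      rw [edist_dist, dist_eq_norm, add_sub_cancel_left, norm_smul, Real.norm_eq_abs,
        abs_of_pos hε]
      exact ENNReal.ofReal_le_ofReal (mul_le_mul_of_nonneg_left hy2 hε.le)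
    calc infEDist (x + ε • y) S ≤ infEDist x S + edist (x + ε • y) x := infEDist_le_infEDist_add_edist
      _ ≤ ENNReal.ofReal (t * ε) + ENNReal.ofReal (ε * R) := add_le_add hxS h3
      _ = ENNReal.ofReal ((t + R) * ε) := by
          rw [← ENNReal.ofReal_add (by positivity) (by positivity)]
          congr 1
          ring
  · have h1 : ∑ i, x i = 1 := hxH
    have h2 : ∑ i, y i = 0 := hy.1
    show ∑ i, (x + ε • y) i = 1
    simp only [PiLp.add_apply, PiLp.smul_apply, smul_eq_mul, Finset.sum_add_distrib, h1,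
      ← Finset.mul_sum, h2, mul_zero, add_zero]

theorem lower_gen {m d : ℕ} (hd : 1 ≤ d) {A : Fin (d + m + 1) → Set (V (d + m + 1))}
    (hA : Adm0 (d + m + 1) A) {L : ℝ}
    (hL : HasContent (d + m + 1) m (meet (d + m + 1) A (d + 1)) L) :
    Real.sqrt ((d : ℝ) + m + 1) / ((m ! : ℝ) *
      ((d ! : ℝ) * (al d * Real.sqrt (1 - 1 / ((d : ℝ) + m + 1)) ^ d))) ≤ L := by
  obtain ⟨hSc, hSx⟩ := meet_compact hA (d + 1) (by omega)
  set S := meet (d + m + 1) A (d + 1) with hSdef
  have hk3 : (1 : ℝ) < (d : ℝ) + m + 1 := by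
    have h1 : (1 : ℝ) ≤ d := by exact_mod_cast hd
    have h2 : (0 : ℝ) ≤ m := Nat.cast_nonneg m
    linarith
  set R := Real.sqrt (1 - 1 / ((d : ℝ) + m + 1)) with hRdef
  have hRnn : (0 : ℝ) < 1 - 1 / ((d : ℝ) + m + 1) := by
    rw [sub_pos, div_lt_one (by linarith)]
    exact hk3
  have hR : 0 < R := Real.sqrt_pos.2 hRnn
  have hR2 : R ^ 2 = 1 - 1 / ((d + m + 1 : ℕ) : ℝ) := by
    rw [hRdef, Real.sq_sqrt hRnn.le]
    push_cast
    rfl
  have hα := al_pos d
  set c := Real.sqrt ((d : ℝ) + m + 1) / (m ! : ℝ) with hc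
  set F : ℝ → ℝ := fun δ => (μHE[d + m] (cthickening δ S ∩ Hp (d + m + 1))).toReal with hF
  -- the inequality for all `t`, `ε`
  have key : ∀ t : ℝ, 0 < t → ∀ ε : ℝ, 0 < ε → c ≤ (d ! : ℝ) * F ((t + R) * ε) / ε ^ d := by
    intro t ht ε hε
    have h1 := cov hd hA (ι := Unit) (fun _ => thickening (t * ε) S) (fun _ => isOpen_thickening)
      (fun _ => hSc.isBounded.thickening)
      (fun x hx => mem_iUnion.2 ⟨(), self_subset_thickening (by positivity) S hx⟩)
      (fun _ => ε) (fun _ => hε)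
    rw [Fintype.sum_unique] at h1
    refine h1.trans ?_
    apply div_le_div_of_nonneg_right _ (by positivity)
    apply mul_le_mul_of_nonneg_left _ (by positivity)
    apply ENNReal.toReal_mono
    · exact (mu_fin (k := d + m + 1) (by omega) hSc.isBounded _).ne
    · exact measure_mono (gen_subset (by omega) ht hε hR.le hR2)
  -- the limit
  have hlim : ∀ t : ℝ, 0 < t → c ≤ (d ! : ℝ) * al d * (t + R) ^ d * L := by
    intro t ht
    have htR : 0 < t + R := by linarith
    have h1 : Tendsto (fun δ : ℝ => F δ / (al d * δ ^ d)) (𝓝[>] 0) (𝓝 L) := by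
      have h2 := hL
      unfold HasContent at h2
      have e1 : d + m + 1 - 1 = d + m := rfl
      have e2 : d + m + 1 - 1 - m = d := by omega
      rw [e2, e1] at h2
      exact h2
    have h3 : Tendsto (fun ε : ℝ => (t + R) * ε) (𝓝[>] 0) (𝓝[>] 0) := by
      rw [tendsto_nhdsWithin_iff]
      refine ⟨?_, ?_⟩
      · have : Tendsto (fun ε : ℝ => (t + R) * ε) (𝓝 0) (𝓝 ((t + R) * 0)) :=
          (continuous_const.mul continuous_id).tendsto 0
        rw [mul_zero] at this
        exact this.mono_left nhdsWithin_le_nhds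
      · filter_upwards [self_mem_nhdsWithin] with ε hε
        exact mul_pos htR hε
    have h4 := (h1.comp h3).const_mul ((d ! : ℝ) * al d * (t + R) ^ d)
    refine ge_of_tendsto h4 ?_
    filter_upwards [self_mem_nhdsWithin] with ε hε
    have hε : 0 < ε := hε
    refine (key t ht ε hε).trans (le_of_eq ?_)
    show (d ! : ℝ) * F ((t + R) * ε) / ε ^ d =
      (d ! : ℝ) * al d * (t + R) ^ d * (F ((t + R) * ε) / (al d * ((t + R) * ε) ^ d))
    rw [mul_pow]
    have h5 : (t + R) ^ d ≠ 0 := (pow_pos htR d).ne'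
    have h6 : ε ^ d ≠ 0 := (pow_pos hε d).ne'
    field_simp
  have hfin : c ≤ (d ! : ℝ) * al d * R ^ d * L := by
    have h1 : Tendsto (fun t : ℝ => (d ! : ℝ) * al d * (t + R) ^ d * L) (𝓝[>] 0)
        (𝓝 ((d ! : ℝ) * al d * (0 + R) ^ d * L)) := by
      apply Tendsto.mono_left _ nhdsWithin_le_nhds
      apply Continuous.tendsto
      fun_prop
    rw [zero_add] at h1
    refine ge_of_tendsto h1 ?_
    filter_upwards [self_mem_nhdsWithin] with t ht
    exact hlim t ht
  have hfac : (0 : ℝ) < (m ! : ℝ) := by positivity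
  have h5 : Real.sqrt ((d : ℝ) + m + 1) / ((m ! : ℝ) * ((d ! : ℝ) * (al d * R ^ d))) =
      c / ((d ! : ℝ) * al d * R ^ d) := by
    rw [hc, div_div]
    congr 1
    ring
  rw [h5, div_le_iff₀ (by positivity)]
  linarith

end SY
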