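import Mathlib
import Pool.Agent.H27.SY.Defs
import Pool.Agent.H82.Ten.BM

/-!
# The isodiametric step: `iso`, `ball_plus` (SY-12)
-/

set_option autoImplicit false

open MeasureTheory Metric Set Filter Module
open scoped Topology MeasureTheory RealInnerProductSpace Nat Pointwise

namespace SY

open SP SP.Mea SX

/-- the synthesis map of a Parseval frame is a contraction -/
theorem x12_norm {n d : ℕ} (p : Fin n → EuclideanSpace ℝ (Fin d))
    (h1 : ∀ y, ∑ i, ⟪p i, y⟫ ^ 2 = ‖y‖ ^ 2) (l : Fin n → ℝ) :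
    ‖∑ i, l i • p i‖ ^ 2 ≤ ∑ i, l i ^ 2 := by
  set v := ∑ i, l i • p i with hv
  have h2 : ‖v‖ ^ 2 = ∑ i, l i * ⟪p i, v⟫ := by
    rw [← real_inner_self_eq_norm_sq]
    conv_lhs => rw [hv]
    rw [← hv, sum_inner]
    exact Finset.sum_congr rfl fun i _ => by rw [real_inner_smul_left]
  have h3 : (‖v‖ ^ 2) ^ 2 ≤ (∑ i, l i ^ 2) * ‖v‖ ^ 2 := by
    have h4 := Finset.sum_mul_sq_le_sq_mul_sq Finset.univ l (fun i => ⟪p i, v⟫)
    rw [← h2, h1 v] at h4
    exact h4
  rcases eq_or_lt_of_le (sq_nonneg ‖v‖) with h5 | h5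
  · rw [← h5]
    exact Finset.sum_nonneg fun i _ => sq_nonneg _
  · have h6 : ‖v‖ ^ 2 * ‖v‖ ^ 2 ≤ (∑ i, l i ^ 2) * ‖v‖ ^ 2 := by
      rw [← sq]; exact h3
    exact le_of_mul_le_mul_right h6 h5

theorem iso {n d : ℕ} (p : Fin n → EuclideanSpace ℝ (Fin d))
    (h1 : ∀ y, ∑ i, ⟪p i, y⟫ ^ 2 = ‖y‖ ^ 2) :
    volume {y : EuclideanSpace ℝ (Fin d) | ∃ l : Fin n → ℝ, (∀ i, 0 ≤ l i) ∧ ∑ i, l i ^ 2 ≤ 1 ∧
      y = ∑ i, l i • p i} ≤ volume (closedBall (0 : EuclideanSpace ℝ (Fin d)) (Real.sqrt 2 / 2)) := by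
  set Z : Set (EuclideanSpace ℝ (Fin d)) := {y | ∃ l : Fin n → ℝ, (∀ i, 0 ≤ l i) ∧
    ∑ i, l i ^ 2 ≤ 1 ∧ y = ∑ i, l i • p i} with hZ
  -- the parameter set is compact
  have hK : IsCompact {l : Fin n → ℝ | (∀ i, 0 ≤ l i) ∧ ∑ i, l i ^ 2 ≤ 1} := by
    have hsub : {l : Fin n → ℝ | (∀ i, 0 ≤ l i) ∧ ∑ i, l i ^ 2 ≤ 1} ⊆
        Set.pi Set.univ (fun _ => Icc (0 : ℝ) 1) := by
      intro l hl i _
      refine ⟨hl.1 i, ?_⟩
      have h2 : l i ^ 2 ≤ 1 :=
        (Finset.single_le_sum (f := fun i => l i ^ 2) (fun i _ => sq_nonneg (l i))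
          (Finset.mem_univ i)).trans hl.2
      nlinarith [hl.1 i]
    refine IsCompact.of_isClosed_subset (isCompact_univ_pi fun _ => isCompact_Icc) ?_ hsub
    apply IsClosed.inter
    · have : {l : Fin n → ℝ | ∀ i, 0 ≤ l i} = ⋂ i, {l : Fin n → ℝ | 0 ≤ l i} := by
        ext l; simp
      rw [show (fun l : Fin n → ℝ => ∀ i, 0 ≤ l i) = {l : Fin n → ℝ | ∀ i, 0 ≤ l i} from rfl, this]
      exact isClosed_iInter fun i => isClosed_le continuous_const (continuous_apply i)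
    · show IsClosed {l : Fin n → ℝ | ∑ i, l i ^ 2 ≤ 1}
      exact isClosed_le (by fun_prop) continuous_const
  have hZc : IsCompact Z := by
    have : Z = (fun l : Fin n → ℝ => ∑ i, l i • p i) '' {l : Fin n → ℝ | (∀ i, 0 ≤ l i) ∧
        ∑ i, l i ^ 2 ≤ 1} := by
      ext y
      constructor
      · rintro ⟨l, h2, h3, h4⟩; exact ⟨l, ⟨h2, h3⟩, h4.symm⟩
      · rintro ⟨l, ⟨h2, h3⟩, h4⟩; exact ⟨l, h2, h3, h4.symm⟩
    rw [this]
    exact hK.image (by fun_prop)
  have hmp := PiLp.volume_preserving_toLp (Fin d)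
  rw [← hmp.measure_preimage hZc.measurableSet.nullMeasurableSet,
    ← hmp.measure_preimage measurableSet_closedBall.nullMeasurableSet]
  refine Pool.Agent.H82.Ten.hd (hmp.measurable hZc.measurableSet)
    (hmp.measurable measurableSet_closedBall) ?_
  intro x hx y hy
  obtain ⟨l, h2, h3, h4⟩ := hx
  obtain ⟨l', h2', h3', h4'⟩ := hy
  rw [mem_preimage, mem_closedBall_zero_iff]
  have h5 : (WithLp.toLp 2 ((1 / 2 : ℝ) • (x - y)) : EuclideanSpace ℝ (Fin d)) =
      ∑ i, ((l i - l' i) / 2) • p i := by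
    rw [WithLp.toLp_smul, WithLp.toLp_sub, h4, h4', ← Finset.sum_sub_distrib, Finset.smul_sum]
    refine Finset.sum_congr rfl fun i _ => ?_
    rw [← sub_smul, smul_smul]
    congr 1
    ring
  rw [h5]
  have h6 := x12_norm p h1 (fun i => (l i - l' i) / 2)
  have h7 : ∑ i, ((l i - l' i) / 2) ^ 2 ≤ 1 / 2 := by
    calc ∑ i, ((l i - l' i) / 2) ^ 2 ≤ ∑ i, (l i ^ 2 / 4 + l' i ^ 2 / 4) := by
          refine Finset.sum_le_sum fun i _ => ?_
          nlinarith [mul_nonneg (h2 i) (h2' i)]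
      _ = (∑ i, l i ^ 2) / 4 + (∑ i, l' i ^ 2) / 4 := by
          rw [Finset.sum_add_distrib, Finset.sum_div, Finset.sum_div]
      _ ≤ 1 / 2 := by linarith
  have h8 : ‖∑ i, ((l i - l' i) / 2) • p i‖ ^ 2 ≤ (Real.sqrt 2 / 2) ^ 2 := by
    refine (h6.trans h7).trans (le_of_eq ?_)
    rw [div_pow, Real.sq_sqrt (by norm_num)]
    norm_num
  exact (sq_le_sq₀ (norm_nonneg _) (by positivity)).1 h8

/-- the reflection of the coordinates given by `s` -/
def x12_refl {d : ℕ} (s : Fin d → Bool) (x : Fin d → ℝ) : Fin d → ℝ :=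
  fun i => (if s i then (fun t => t) else (fun t => -t) : ℝ → ℝ) (x i)

theorem x12_refl_mp {d : ℕ} (s : Fin d → Bool) :
    MeasurePreserving (x12_refl s) volume volume := by
  refine volume_preserving_pi (f := fun i => (if s i then (fun t => t) else (fun t => -t) : ℝ → ℝ))
    fun i => ?_
  by_cases h : s i
  · simp only [h, if_true]
    exact MeasurePreserving.id _
  · simp only [h]
    exact Measure.measurePreserving_neg volume

theorem ball_plus (d : ℕ) : volume (closedBall (0 : EuclideanSpace ℝ (Fin d)) 1) ≤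
    2 ^ d * volume {l : Fin d → ℝ | (∀ a, 0 ≤ l a) ∧ ∑ a, l a ^ 2 ≤ 1} := by
  set C : Set (Fin d → ℝ) := {l | (∀ a, 0 ≤ l a) ∧ ∑ a, l a ^ 2 ≤ 1} with hC
  have hCm : MeasurableSet C := by
    apply IsClosed.measurableSet
    apply IsClosed.inter
    · have : {l : Fin d → ℝ | ∀ i, 0 ≤ l i} = ⋂ i, {l : Fin d → ℝ | 0 ≤ l i} := by
        ext l; simp
      rw [show (fun l : Fin d → ℝ => ∀ i, 0 ≤ l i) = {l : Fin d → ℝ | ∀ i, 0 ≤ l i} from rfl, this]
      exact isClosed_iInter fun i => isClosed_le continuous_const (continuous_apply i)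
    · show IsClosed {l : Fin d → ℝ | ∑ i, l i ^ 2 ≤ 1}
      exact isClosed_le (by fun_prop) continuous_const
  have hmp := PiLp.volume_preserving_toLp (Fin d)
  rw [← hmp.measure_preimage measurableSet_closedBall.nullMeasurableSet]
  have hsub : (WithLp.toLp 2 : (Fin d → ℝ) → EuclideanSpace ℝ (Fin d)) ⁻¹'
      closedBall (0 : EuclideanSpace ℝ (Fin d)) 1 ⊆ ⋃ s : Fin d → Bool, x12_refl s ⁻¹' C := by
    intro x hx
    rw [mem_preimage, mem_closedBall_zero_iff] at hx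
    have h2 : ∑ a, x a ^ 2 ≤ 1 := by
      have h3 : ‖(WithLp.toLp 2 x : EuclideanSpace ℝ (Fin d))‖ ^ 2 ≤ 1 := by
        nlinarith [norm_nonneg (WithLp.toLp 2 x : EuclideanSpace ℝ (Fin d))]
      rw [EuclideanSpace.norm_sq_eq] at h3
      simpa using h3
    refine mem_iUnion.2 ⟨fun a => decide (0 ≤ x a), ?_⟩
    rw [mem_preimage]
    refine ⟨fun a => ?_, ?_⟩
    · by_cases h : 0 ≤ x a
      · simp [x12_refl, h]
      · simp only [x12_refl, h, decide_false]
        simp only [Bool.false_eq_true, if_false]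
        linarith [not_le.1 h]
    · refine le_trans (le_of_eq (Finset.sum_congr rfl fun a _ => ?_)) h2
      by_cases h : 0 ≤ x a
      · simp [x12_refl, h]
      · simp [x12_refl, h]
  calc volume ((WithLp.toLp 2 : (Fin d → ℝ) → EuclideanSpace ℝ (Fin d)) ⁻¹'
        closedBall (0 : EuclideanSpace ℝ (Fin d)) 1)
      ≤ volume (⋃ s : Fin d → Bool, x12_refl s ⁻¹' C) := measure_mono hsub
    _ ≤ ∑ s : Fin d → Bool, volume (x12_refl s ⁻¹' C) := measure_iUnion_fintype_le _ _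
    _ = ∑ s : Fin d → Bool, volume C := by
        refine Finset.sum_congr rfl fun s _ => ?_
        exact (x12_refl_mp s).measure_preimage hCm.nullMeasurableSet
    _ = 2 ^ d * volume C := by
        rw [Finset.sum_const, Finset.card_univ, Fintype.card_fun, Fintype.card_bool,
          Fintype.card_fin, nsmul_eq_mul]
        push_cast
        rfl

end SY
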