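import Pool.Agent.H27.SY.Defs

/-!
# Project SY, row 11: the generic simplicial star of a polytope (helper98)
-/

set_option autoImplicit false

open MeasureTheory Metric Set Filter Module
open scoped Topology MeasureTheory RealInnerProductSpace Nat Pointwise

namespace SY

open SP SP.Mea SX

/-- the linear map with the values `p (G a)` on the basis -/
noncomputable def tm {n d : ℕ} (p : Fin n → EuclideanSpace ℝ (Fin d)) (G : Fin d → Fin n)
    (l : Fin d → ℝ) : EuclideanSpace ℝ (Fin d) := ∑ a, l a • p (G a)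

/-! ### generic costs -/

/-- a point of a small segment where finitely many nonzero functionals do not vanish -/
theorem star_generic {n : ℕ} {ι : Type} [Finite ι] (F : ι → Dual ℝ (Fin n → ℝ))
    (hF : ∀ i, F i ≠ 0) {ε : ℝ} (hε : 0 < ε) :
    ∃ c : Fin n → ℝ, (∀ i, 1 ≤ c i ∧ c i ≤ 1 + ε) ∧ ∀ j, F j c ≠ 0 := by
  obtain ⟨v, hv⟩ := Module.Dual.exists_forall_ne_zero_of_forall_exists F fun i => by
    by_contra h
    push Not at h
    exact hF i (LinearMap.ext h)
  -- a bound for `v`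
  obtain ⟨M, hM0, hM⟩ : ∃ M : ℝ, 0 < M ∧ ∀ i, |v i| ≤ M := by
    refine ⟨1 + ∑ i, |v i|, by positivity, fun i => ?_⟩
    have : |v i| ≤ ∑ i, |v i| := Finset.single_le_sum (f := fun i => |v i|)
      (fun i _ => abs_nonneg _) (Finset.mem_univ i)
    linarith
  set c₀ : Fin n → ℝ := fun _ => 1 + ε / 2 with hc₀
  have hfin : (⋃ j, {δ : ℝ | F j (c₀ + δ • v) = 0}).Finite := by
    refine Set.finite_iUnion fun j => ?_
    refine Set.Subsingleton.finite ?_
    intro a ha b hb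
    simp only [mem_ofPred_eq, map_add, map_smul, smul_eq_mul] at ha hb
    have : (a - b) * F j v = 0 := by linarith
    rcases mul_eq_zero.1 this with h | h
    · linarith
    · exact absurd h (hv j)
  have hpos : 0 < ε / (2 * M) := by positivity
  obtain ⟨δ, hδ, hδ'⟩ := ((Set.Ioo_infinite hpos).sdiff hfin).nonempty
  refine ⟨c₀ + δ • v, fun i => ?_, fun j hj => hδ' (mem_iUnion.2 ⟨j, hj⟩)⟩
  have h1 : |δ * v i| ≤ ε / 2 := by
    rw [abs_mul, abs_of_pos hδ.1]
    calc δ * |v i| ≤ ε / (2 * M) * M := by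
          exact mul_le_mul hδ.2.le (hM i) (abs_nonneg _) hpos.le
      _ = ε / 2 := by field_simp
  obtain ⟨h2, h3⟩ := abs_le.1 h1
  simp only [Pi.add_apply, Pi.smul_apply, smul_eq_mul, hc₀]
  constructor <;> linarith

/-- generic costs: the functionals which take the value `c i` at `p i` for `i ∈ S` exist only for
independent families -/
theorem star_costs {n d : ℕ} (p : Fin n → EuclideanSpace ℝ (Fin d)) {ε : ℝ} (hε : 0 < ε) :
    ∃ c : Fin n → ℝ, (∀ i, 1 ≤ c i ∧ c i ≤ 1 + ε) ∧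
      ∀ (f : EuclideanSpace ℝ (Fin d) →ₗ[ℝ] ℝ) (S : Finset (Fin n)), (∀ i ∈ S, f (p i) = c i) →
        LinearIndependent ℝ (fun i : {i // i ∈ S} => p i.1) := by
  classical
  have h : ∀ S : {S : Finset (Fin n) // ¬ LinearIndependent ℝ (fun i : {i // i ∈ S} => p i.1)},
      ∃ g : {i // i ∈ S.1} → ℝ, ∑ i, g i • p i.1 = 0 ∧ ∃ i, g i ≠ 0 := fun S =>
    Fintype.not_linearIndependent_iff.1 S.2
  choose g hg hg0 using h
  set F : {S : Finset (Fin n) // ¬ LinearIndependent ℝ (fun i : {i // i ∈ S} => p i.1)} →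
      Dual ℝ (Fin n → ℝ) := fun S => ∑ i, g S i • LinearMap.proj (i : Fin n) with hF
  have hFa : ∀ S c, F S c = ∑ i, g S i * c i.1 := by
    intro S c
    simp [hF]
  obtain ⟨c, hc, hcF⟩ := star_generic F (fun S h0 => by
    obtain ⟨i, hi⟩ := hg0 S
    have h1 : F S (Pi.single i.1 1) = 0 := by rw [h0]; rfl
    rw [hFa, Finset.sum_eq_single i] at h1
    · rw [Pi.single_eq_same, mul_one] at h1
      exact hi h1
    · intro b _ hb
      rw [Pi.single_eq_of_ne (fun h => hb (Subtype.ext h)), mul_zero]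
    · intro h
      exact absurd (Finset.mem_univ i) h) hε
  refine ⟨c, hc, fun f S hS => ?_⟩
  by_contra hdep
  refine hcF ⟨S, hdep⟩ ?_
  rw [hFa]
  have h1 := congrArg f (hg ⟨S, hdep⟩)
  rw [map_sum, map_zero] at h1
  rw [← h1]
  refine Finset.sum_congr rfl fun i _ => ?_
  rw [map_smul, smul_eq_mul, hS i i.2]

/-! ### the body -/

/-- the convex hull of the origin and the points `p i / c i` -/
noncomputable def sK {n d : ℕ} (p : Fin n → EuclideanSpace ℝ (Fin d)) (c : Fin n → ℝ) :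
    Set (EuclideanSpace ℝ (Fin d)) :=
  (fun μ : Fin n → ℝ => ∑ i, μ i • ((c i)⁻¹ • p i)) '' {μ | (∀ i, 0 ≤ μ i) ∧ ∑ i, μ i ≤ 1}

theorem sK_convex {n d : ℕ} (p : Fin n → EuclideanSpace ℝ (Fin d)) (c : Fin n → ℝ) :
    Convex ℝ (sK p c) := by
  rintro _ ⟨μ, hμ, rfl⟩ _ ⟨ν, hν, rfl⟩ a b ha hb hab
  refine ⟨fun i => a * μ i + b * ν i, ⟨fun i => ?_, ?_⟩, ?_⟩
  · have := hμ.1 i
    have := hν.1 i
    positivity
  · rw [Finset.sum_add_distrib, ← Finset.mul_sum, ← Finset.mul_sum]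
    calc a * ∑ i, μ i + b * ∑ i, ν i ≤ a * 1 + b * 1 :=
          add_le_add (mul_le_mul_of_nonneg_left hμ.2 ha) (mul_le_mul_of_nonneg_left hν.2 hb)
      _ = 1 := by linarith
  · simp only
    rw [Finset.smul_sum, Finset.smul_sum, ← Finset.sum_add_distrib]
    refine Finset.sum_congr rfl fun i _ => ?_
    rw [add_smul, mul_smul, mul_smul]

theorem sK_compact {n d : ℕ} (p : Fin n → EuclideanSpace ℝ (Fin d)) (c : Fin n → ℝ) :
    IsCompact (sK p c) := by
  refine IsCompact.image ?_ (by fun_prop)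
  have hcl : IsClosed {μ : Fin n → ℝ | (∀ i, 0 ≤ μ i) ∧ ∑ i, μ i ≤ 1} := by
    rw [show {μ : Fin n → ℝ | (∀ i, 0 ≤ μ i) ∧ ∑ i, μ i ≤ 1} =
      (⋂ i, {μ | 0 ≤ μ i}) ∩ {μ | ∑ i, μ i ≤ 1} by ext; simp]
    refine IsClosed.inter (isClosed_iInter fun i => ?_) ?_
    · exact isClosed_le continuous_const (continuous_apply i)
    · exact isClosed_le (by fun_prop) continuous_const
  refine (isCompact_Icc (a := (0 : Fin n → ℝ)) (b := fun _ => 1)).of_isClosed_subset hcl ?_
  rintro μ ⟨h0, h1⟩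
  refine ⟨h0, fun i => ?_⟩
  exact (Finset.single_le_sum (fun i _ => h0 i) (Finset.mem_univ i)).trans h1

theorem sK_zero {n d : ℕ} (p : Fin n → EuclideanSpace ℝ (Fin d)) (c : Fin n → ℝ) :
    0 ∈ sK p c :=
  ⟨fun _ => 0, ⟨fun _ => le_rfl, by simp⟩, by simp⟩

theorem sK_hull {n d : ℕ} (p : Fin n → EuclideanSpace ℝ (Fin d)) (c : Fin n → ℝ) {ε : ℝ}
    (hε : 0 < ε) (hc : ∀ i, 1 ≤ c i ∧ c i ≤ 1 + ε) :
    convexHull ℝ (range p) ⊆ (1 + ε) • sK p c := by
  refine convexHull_min ?_ ((sK_convex p c).smul _)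
  rintro _ ⟨i, rfl⟩
  have hci : 0 < c i := lt_of_lt_of_le one_pos (hc i).1
  have hε1 : (0 : ℝ) < 1 + ε := by linarith
  refine ⟨∑ j, (if j = i then c i / (1 + ε) else 0) • ((c j)⁻¹ • p j),
    ⟨fun j => if j = i then c i / (1 + ε) else 0, ⟨fun j => ?_, ?_⟩, rfl⟩, ?_⟩
  · simp only
    split_ifs
    · positivity
    · exact le_rfl
  · rw [Finset.sum_ite_eq' Finset.univ i, if_pos (Finset.mem_univ i), div_le_one hε1]
    exact (hc i).2
  · simp only [ite_smul, zero_smul]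
    rw [Finset.sum_ite_eq' Finset.univ i, if_pos (Finset.mem_univ i), smul_smul, smul_smul]
    rw [show (1 + ε) * (c i / (1 + ε)) * (c i)⁻¹ = 1 by field_simp, one_smul]

/-! ### the tight frame -/

section Frame

variable {n d : ℕ} (p : Fin n → EuclideanSpace ℝ (Fin d))

theorem star_frame (h1 : ∀ y, ∑ i, ⟪p i, y⟫ ^ 2 = ‖y‖ ^ 2) (y : EuclideanSpace ℝ (Fin d)) :
    ∑ i, ⟪p i, y⟫ • p i = y := by
  refine ext_inner_right ℝ fun z => ?_
  rw [sum_inner]
  simp_rw [real_inner_smul_left]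
  have h2 := h1 (y + z)
  have h3 := h1 y
  have h4 := h1 z
  rw [norm_add_sq_real] at h2
  simp_rw [inner_add_right, add_sq] at h2
  rw [Finset.sum_add_distrib, Finset.sum_add_distrib, h3, h4] at h2
  have h5 : ∑ i, 2 * ⟪p i, y⟫ * ⟪p i, z⟫ = 2 * ∑ i, ⟪p i, y⟫ * ⟪p i, z⟫ := by
    rw [Finset.mul_sum]
    exact Finset.sum_congr rfl fun i _ => by ring
  rw [h5] at h2
  linarith

theorem star_norm (h1 : ∀ y, ∑ i, ⟪p i, y⟫ ^ 2 = ‖y‖ ^ 2) (i : Fin n) : ‖p i‖ ≤ 1 := by
  have h2 := h1 (p i)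
  have h3 : ⟪p i, p i⟫ ^ 2 ≤ ∑ j, ⟪p j, p i⟫ ^ 2 :=
    Finset.single_le_sum (f := fun j => ⟪p j, p i⟫ ^ 2) (fun j _ => sq_nonneg _)
      (Finset.mem_univ i)
  rw [h2, real_inner_self_eq_norm_sq] at h3
  by_contra h
  push Not at h
  have h4 : 1 < ‖p i‖ ^ 2 := by nlinarith
  nlinarith

theorem sK_interior (h0 : ∑ i, p i = 0) (h1 : ∀ y, ∑ i, ⟪p i, y⟫ ^ 2 = ‖y‖ ^ 2)
    (c : Fin n → ℝ) {ε : ℝ} (hε : 0 < ε) (hc : ∀ i, 1 ≤ c i ∧ c i ≤ 1 + ε) :
    0 ∈ interior (sK p c) := by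
  rw [mem_interior_iff_mem_nhds, Metric.mem_nhds_iff]
  set r : ℝ := 1 / (2 * (1 + ε) * (n + 1)) with hr
  have hr0 : 0 < r := by positivity
  refine ⟨r, hr0, fun y hy => ?_⟩
  rw [mem_ball_zero_iff] at hy
  have hin : ∀ i, |⟪p i, y⟫| ≤ ‖y‖ := fun i => by
    calc |⟪p i, y⟫| ≤ ‖p i‖ * ‖y‖ := abs_real_inner_le_norm _ _
      _ ≤ 1 * ‖y‖ := mul_le_mul_of_nonneg_right (star_norm p h1 i) (norm_nonneg _)
      _ = ‖y‖ := one_mul _
  refine ⟨fun i => (⟪p i, y⟫ + ‖y‖) * c i, ⟨fun i => ?_, ?_⟩, ?_⟩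
  · have h2 := (abs_le.1 (hin i)).1
    have h3 := (hc i).1
    exact mul_nonneg (by linarith) (by linarith)
  · calc ∑ i, (⟪p i, y⟫ + ‖y‖) * c i ≤ ∑ _i : Fin n, 2 * r * (1 + ε) := by
          refine Finset.sum_le_sum fun i _ => ?_
          have h2 := abs_le.1 (hin i)
          have h3 := hc i
          refine mul_le_mul ?_ h3.2 (by linarith) (by positivity)
          linarith [h2.2]
      _ = n * (2 * r * (1 + ε)) := by simp
      _ ≤ 1 := by
          rw [hr]
          rw [show (n : ℝ) * (2 * (1 / (2 * (1 + ε) * (n + 1))) * (1 + ε)) = n / (n + 1) by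
            field_simp]
          rw [div_le_one (by positivity)]
          linarith
  · simp only
    have : ∀ i, ((⟪p i, y⟫ + ‖y‖) * c i) • ((c i)⁻¹ • p i) = ⟪p i, y⟫ • p i + ‖y‖ • p i := by
      intro i
      have hci : c i ≠ 0 := by have := (hc i).1; positivity
      rw [smul_smul, mul_assoc, mul_inv_cancel₀ hci, mul_one, add_smul]
    simp_rw [this]
    rw [Finset.sum_add_distrib, star_frame p h1, ← Finset.smul_sum, h0, smul_zero, add_zero]

end Frame

/-! ### the faces -/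

theorem tm_map {n d : ℕ} (p : Fin n → EuclideanSpace ℝ (Fin d)) (G : Fin d → Fin n)
    (f : EuclideanSpace ℝ (Fin d) →ₗ[ℝ] ℝ) (l : Fin d → ℝ) :
    f (tm p G l) = ∑ a, l a * f (p (G a)) := by
  rw [tm, map_sum]
  exact Finset.sum_congr rfl fun a _ => by rw [map_smul, smul_eq_mul]

/-- the index maps of the faces -/
def IsFace {n d : ℕ} (p : Fin n → EuclideanSpace ℝ (Fin d)) (c : Fin n → ℝ)
    (G : Fin d → Fin n) : Prop :=
  StrictMono G ∧ LinearIndependent ℝ (fun a => p (G a)) ∧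
    ∃ f : EuclideanSpace ℝ (Fin d) →ₗ[ℝ] ℝ, (∀ a, f (p (G a)) = c (G a)) ∧
      ∀ i, i ∉ range G → f (p i) < c i

theorem face_disj {n d : ℕ} (p : Fin n → EuclideanSpace ℝ (Fin d)) (c : Fin n → ℝ)
    {G G' : Fin d → Fin n} (hG : IsFace p c G) (hG' : IsFace p c G') (hne : G ≠ G') :
    Disjoint (tm p G '' {l | ∀ a, 0 < l a}) (tm p G' '' {l | ∀ a, 0 < l a}) := by
  obtain ⟨hs, -, f, hf, hfo⟩ := hG
  obtain ⟨hs', -, f', hf', hfo'⟩ := hG'
  have hle : ∀ i, f (p i) ≤ c i := fun i => by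
    by_cases h : i ∈ range G
    · obtain ⟨a, rfl⟩ := h
      exact (hf a).le
    · exact (hfo i h).le
  have hle' : ∀ i, f' (p i) ≤ c i := fun i => by
    by_cases h : i ∈ range G'
    · obtain ⟨a, rfl⟩ := h
      exact (hf' a).le
    · exact (hfo' i h).le
  have hex : ∃ a, G a ∉ range G' := by
    by_contra h
    push Not at h
    apply hne
    refine (StrictMono.range_inj hs hs').1 ?_
    have hsub : Finset.univ.image G ⊆ Finset.univ.image G' := by
      intro i hi
      obtain ⟨a, -, rfl⟩ := Finset.mem_image.1 hi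
      obtain ⟨b, hb⟩ := h a
      exact Finset.mem_image.2 ⟨b, Finset.mem_univ _, hb⟩
    have hcard : (Finset.univ.image G').card ≤ (Finset.univ.image G).card := by
      rw [Finset.card_image_of_injective _ hs.injective,
        Finset.card_image_of_injective _ hs'.injective]
    have := Finset.eq_of_subset_of_card_le hsub hcard
    have h2 : ((Finset.univ.image G : Finset (Fin n)) : Set (Fin n)) =
        (Finset.univ.image G' : Finset (Fin n)) := by rw [this]
    simpa using h2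
  obtain ⟨a₀, ha₀⟩ := hex
  rw [Set.disjoint_left]
  rintro _ ⟨l, hl, rfl⟩ ⟨l', hl', he⟩
  have e1 : f (tm p G l) = ∑ a, l a * c (G a) := by
    rw [tm_map]
    exact Finset.sum_congr rfl fun a _ => by rw [hf a]
  have e2 : f' (tm p G' l') = ∑ a, l' a * c (G' a) := by
    rw [tm_map]
    exact Finset.sum_congr rfl fun a _ => by rw [hf' a]
  have e3 : f' (tm p G l) < ∑ a, l a * c (G a) := by
    rw [tm_map]
    refine Finset.sum_lt_sum (fun a _ => mul_le_mul_of_nonneg_left (hle' _) (hl a).le)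
      ⟨a₀, Finset.mem_univ _, mul_lt_mul_of_pos_left (hfo' _ ha₀) (hl a₀)⟩
  have e4 : f (tm p G' l') ≤ ∑ a, l' a * c (G' a) := by
    rw [tm_map]
    exact Finset.sum_le_sum fun a _ => mul_le_mul_of_nonneg_left (hle _) (hl' a).le
  rw [he] at e4 e2
  linarith

/-- a point of the body which is not in the span of fewer than `d` of the points lies in the cone
over a face -/
theorem face_cover {n d : ℕ} (hd : 1 ≤ d) (p : Fin n → EuclideanSpace ℝ (Fin d))
    (h0 : ∑ i, p i = 0) (h1 : ∀ y, ∑ i, ⟪p i, y⟫ ^ 2 = ‖y‖ ^ 2) (c : Fin n → ℝ) {ε : ℝ}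
    (hε : 0 < ε) (hc : ∀ i, 1 ≤ c i ∧ c i ≤ 1 + ε)
    (hgen : ∀ (f : EuclideanSpace ℝ (Fin d) →ₗ[ℝ] ℝ) (S : Finset (Fin n)),
      (∀ i ∈ S, f (p i) = c i) → LinearIndependent ℝ (fun i : {i // i ∈ S} => p i.1))
    {y : EuclideanSpace ℝ (Fin d)} (hy : y ∈ sK p c)
    (hN : ∀ S : Finset (Fin n), S.card < d → y ∉ Submodule.span ℝ (p '' S)) :
    ∃ G, IsFace p c G ∧ y ∈ tm p G '' {l | (∀ a, 0 ≤ l a) ∧ ∑ a, l a ≤ 1} := by
  classical
  have hK := sK_convex p c
  have hKc := sK_compact p c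
  have hKi := sK_interior p h0 h1 c hε hc
  have hc0 : ∀ i, 0 < c i := fun i => lt_of_lt_of_le one_pos (hc i).1
  have hy0 : y ≠ 0 := by
    rintro rfl
    exact hN ∅ (by rw [Finset.card_empty]; omega) (Submodule.zero_mem _)
  -- the last point of the ray
  obtain ⟨t, ht, htmax⟩ : ∃ t, t ∈ {t : ℝ | t • y ∈ sK p c} ∧ ∀ s, s • y ∈ sK p c → s ≤ t := by
    have hcl : IsClosed {t : ℝ | t • y ∈ sK p c} := by
      exact hKc.isClosed.preimage (by fun_prop : Continuous fun t : ℝ => t • y)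
    obtain ⟨M, hM⟩ := hKc.isBounded.exists_norm_le
    have hbd : {t : ℝ | t • y ∈ sK p c} ⊆ Icc (-(M / ‖y‖)) (M / ‖y‖) := by
      intro s hs
      have h2 := hM _ hs
      rw [norm_smul, Real.norm_eq_abs] at h2
      have h3 : |s| ≤ M / ‖y‖ := by rwa [le_div_iff₀ (norm_pos_iff.2 hy0)]
      exact ⟨(abs_le.1 h3).1, (abs_le.1 h3).2⟩
    have hcomp : IsCompact {t : ℝ | t • y ∈ sK p c} := isCompact_Icc.of_isClosed_subset hcl hbd
    obtain ⟨t, ht, hmax⟩ := hcomp.exists_isGreatest ⟨1, by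
      change (1 : ℝ) • y ∈ sK p c
      rwa [one_smul]⟩
    exact ⟨t, ht, fun s hs => hmax hs⟩
  have ht1 : 1 ≤ t := htmax 1 (by rwa [one_smul])
  have ht0 : 0 < t := lt_of_lt_of_le one_pos ht1
  have hz : t • y ∈ sK p c := ht
  have hzi : t • y ∉ interior (sK p c) := by
    intro h
    rw [mem_interior_iff_mem_nhds] at h
    have hcont : Tendsto (fun s : ℝ => s • y) (𝓝 t) (𝓝 (t • y)) :=
      (by fun_prop : Continuous fun s : ℝ => s • y).tendsto t
    have h2 := hcont h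
    rw [Filter.mem_map, Metric.mem_nhds_iff] at h2
    obtain ⟨δ, hδ, hb⟩ := h2
    have h3 : t + δ / 2 ∈ ball t δ := by
      rw [Metric.mem_ball, Real.dist_eq, add_sub_cancel_left, abs_of_pos (by positivity)]
      linarith
    have h4 := htmax _ (hb h3)
    linarith
  obtain ⟨f₀, hf₀⟩ := geometric_hahn_banach_open_point hK.interior isOpen_interior hzi
  have hfz : 0 < f₀ (t • y) := by
    have := hf₀ 0 hKi
    rwa [map_zero] at this
  set f : EuclideanSpace ℝ (Fin d) →ₗ[ℝ] ℝ := (f₀ (t • y))⁻¹ • (f₀ : _ →ₗ[ℝ] ℝ) with hf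
  have hfa : ∀ x, f x = (f₀ (t • y))⁻¹ * f₀ x := fun x => rfl
  have hf1 : f (t • y) = 1 := by
    rw [hfa]
    exact inv_mul_cancel₀ hfz.ne'
  have hfK : ∀ x ∈ sK p c, f x ≤ 1 := by
    intro x hx
    have hcl : IsClosed {x : EuclideanSpace ℝ (Fin d) | f₀ x ≤ f₀ (t • y)} :=
      isClosed_le f₀.continuous continuous_const
    have hsub : closure (interior (sK p c)) ⊆ {x | f₀ x ≤ f₀ (t • y)} :=
      closure_minimal (fun a ha => (hf₀ a ha).le) hcl
    rw [hK.closure_interior_eq_closure_of_nonempty_interior ⟨0, hKi⟩] at hsub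
    have h2 : f₀ x ≤ f₀ (t • y) := hsub (subset_closure hx)
    rw [hfa, inv_mul_le_iff₀ hfz, mul_one]
    exact h2
  -- the vertices
  have hv : ∀ i, (c i)⁻¹ • p i ∈ sK p c := by
    intro i
    refine ⟨Pi.single i 1, ⟨fun j => ?_, ?_⟩, ?_⟩
    · by_cases h : j = i
      · subst h
        simp
      · rw [Pi.single_eq_of_ne h]
    · rw [Finset.sum_pi_single']
      simp
    · simp only
      rw [Finset.sum_eq_single i]
      · rw [Pi.single_eq_same, one_smul]
      · intro j _ hj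
        rw [Pi.single_eq_of_ne hj, zero_smul]
      · intro h
        exact absurd (Finset.mem_univ i) h
  have hfp : ∀ i, f (p i) ≤ c i := by
    intro i
    have h2 := hfK _ (hv i)
    rw [map_smul, smul_eq_mul, inv_mul_le_iff₀ (hc0 i), mul_one] at h2
    exact h2
  obtain ⟨μ, ⟨hμ0, hμ1⟩, hμz⟩ := hz
  simp only at hμz
  have hsum : ∑ i, μ i * (1 - (c i)⁻¹ * f (p i)) ≤ 0 := by
    have h2 := congrArg f hμz
    rw [map_sum, hf1] at h2
    have h3 : ∑ i, f (μ i • (c i)⁻¹ • p i) = ∑ i, μ i * ((c i)⁻¹ * f (p i)) :=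
      Finset.sum_congr rfl fun i _ => by rw [map_smul, map_smul, smul_eq_mul, smul_eq_mul]
    rw [h3] at h2
    have h4 : ∑ i, μ i * (1 - (c i)⁻¹ * f (p i)) = ∑ i, μ i - ∑ i, μ i * ((c i)⁻¹ * f (p i)) := by
      rw [← Finset.sum_sub_distrib]
      exact Finset.sum_congr rfl fun i _ => by ring
    rw [h4, h2]
    linarith
  have hnn : ∀ i, 0 ≤ μ i * (1 - (c i)⁻¹ * f (p i)) := fun i => by
    refine mul_nonneg (hμ0 i) ?_
    have h2 : (c i)⁻¹ * f (p i) ≤ 1 := by
      rw [inv_mul_le_iff₀ (hc0 i), mul_one]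
      exact hfp i
    linarith
  have hzero : ∀ i, μ i * (1 - (c i)⁻¹ * f (p i)) = 0 := fun i => by
    have h2 := Finset.single_le_sum (f := fun i => μ i * (1 - (c i)⁻¹ * f (p i)))
      (fun i _ => hnn i) (Finset.mem_univ i)
    exact le_antisymm (h2.trans hsum) (hnn i)
  -- the tight set
  set B : Finset (Fin n) := Finset.univ.filter fun i => f (p i) = c i with hB
  have hBm : ∀ i, i ∈ B ↔ f (p i) = c i := fun i => by simp [hB]
  have hμB : ∀ i, i ∉ B → μ i = 0 := by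
    intro i hi
    rcases mul_eq_zero.1 (hzero i) with h | h
    · exact h
    · exfalso
      apply hi
      rw [hBm]
      have h2 : (c i)⁻¹ * f (p i) = 1 := by linarith
      rw [inv_mul_eq_one₀ (hc0 i).ne'] at h2
      exact h2.symm
  have hBind := hgen f B fun i hi => (hBm i).1 hi
  have hBle : B.card ≤ d := by
    have := hBind.fintype_card_le_finrank
    rw [finrank_euclideanSpace_fin, Fintype.card_coe] at this
    exact this
  have hyz : y = ∑ i, (μ i * (c i)⁻¹ / t) • p i := by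
    have h2 : y = t⁻¹ • (t • y) := by rw [smul_smul, inv_mul_cancel₀ ht0.ne', one_smul]
    rw [h2, ← hμz, Finset.smul_sum]
    refine Finset.sum_congr rfl fun i _ => ?_
    rw [smul_smul, smul_smul]
    congr 1
    ring
  have hcard : B.card = d := by
    refine le_antisymm hBle ?_
    by_contra h
    push Not at h
    refine hN B h ?_
    rw [hyz]
    refine Submodule.sum_mem _ fun i _ => ?_
    by_cases hi : i ∈ B
    · exact Submodule.smul_mem _ _ (Submodule.subset_span ⟨i, hi, rfl⟩)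
    · rw [hμB i hi, zero_mul, zero_div, zero_smul]
      exact Submodule.zero_mem _
  set G : Fin d → Fin n := fun a => B.orderEmbOfFin hcard a with hG
  have hGm : ∀ a, G a ∈ B := fun a => Finset.orderEmbOfFin_mem B hcard a
  have hGr : range G = B := Finset.range_orderEmbOfFin B hcard
  have hGs : StrictMono G := (B.orderEmbOfFin hcard).strictMono
  have hpull : ∀ {M : Type} [AddCommMonoid M] (F : Fin n → M), (∀ i, i ∉ B → F i = 0) →
      ∑ a, F (G a) = ∑ i, F i := by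
    intro M _ F hF
    refine Finset.sum_of_injOn G hGs.injective.injOn (fun _ _ => Finset.mem_coe.2
      (Finset.mem_univ _)) (fun i _ hi => hF i fun hiB => hi ?_) fun _ _ => rfl
    have : i ∈ range G := by rw [hGr]; exact hiB
    obtain ⟨a, ha⟩ := this
    exact ⟨a, Finset.mem_coe.2 (Finset.mem_univ _), ha⟩
  refine ⟨G, ⟨hGs, ?_, f, fun a => (hBm _).1 (hGm a), fun i hi => ?_⟩,
    fun a => μ (G a) * (c (G a))⁻¹ / t, ⟨fun a => ?_, ?_⟩, ?_⟩
  · exact hBind.comp (fun a : Fin d => (⟨G a, hGm a⟩ : {i // i ∈ B})) fun a b hab =>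
      hGs.injective (congrArg Subtype.val hab)
  · refine lt_of_le_of_ne (hfp i) fun h => hi ?_
    rw [hGr]
    exact (hBm i).2 h
  · have h2 := hμ0 (G a)
    have h3 := hc0 (G a)
    positivity
  · rw [hpull (fun i => μ i * (c i)⁻¹ / t) fun i hi => by
      rw [hμB i hi, zero_mul, zero_div]]
    refine le_trans (Finset.sum_le_sum fun i _ => ?_) hμ1
    have h2 : (c i)⁻¹ ≤ 1 := inv_le_one_of_one_le₀ (hc i).1
    calc μ i * (c i)⁻¹ / t ≤ μ i * 1 / 1 := by
          have h4 := hμ0 i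
          have h3 := hc0 i
          gcongr
      _ = μ i := by ring
  · rw [tm, hpull (fun i => (μ i * (c i)⁻¹ / t) • p i) fun i hi => by
      rw [hμB i hi, zero_mul, zero_div, zero_smul]]
    exact hyz.symm

/-- **Row 11.** -/
theorem star {n d : ℕ} (hd : 1 ≤ d) (p : Fin n → EuclideanSpace ℝ (Fin d)) (h0 : ∑ i, p i = 0)
    (h1 : ∀ y, ∑ i, ⟪p i, y⟫ ^ 2 = ‖y‖ ^ 2) {ε : ℝ} (hε : 0 < ε) :
    ∃ T : Finset (Fin d → Fin n),
      (∀ G ∈ T, Function.Injective G) ∧ (∀ G ∈ T, Function.Injective (tm p G)) ∧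
      (∀ G ∈ T, ∀ G' ∈ T, G ≠ G' →
        Disjoint (tm p G '' {l | ∀ a, 0 < l a}) (tm p G' '' {l | ∀ a, 0 < l a})) ∧
      volume (convexHull ℝ (range p)) ≤ ENNReal.ofReal ((1 + ε) ^ d) *
        ∑ G ∈ T, volume (tm p G '' {l | (∀ a, 0 ≤ l a) ∧ ∑ a, l a ≤ 1}) := by
  classical
  obtain ⟨c, hc, hgen⟩ := star_costs p hε
  refine ⟨Finset.univ.filter fun G => IsFace p c G, ?_, ?_, ?_, ?_⟩
  · intro G hG
    exact (Finset.mem_filter.1 hG).2.1.injective
  · intro G hG l l' hll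
    have hind := (Finset.mem_filter.1 hG).2.2.1
    have h2 : ∑ a, (l a - l' a) • p (G a) = 0 := by
      simp_rw [sub_smul]
      rw [Finset.sum_sub_distrib]
      exact sub_eq_zero.2 hll
    funext a
    have := Fintype.linearIndependent_iff.1 hind (fun a => l a - l' a) h2 a
    simpa [sub_eq_zero] using this
  · intro G hG G' hG' hne
    exact face_disj p c (Finset.mem_filter.1 hG).2 (Finset.mem_filter.1 hG').2 hne
  · set T := Finset.univ.filter fun G : Fin d → Fin n => IsFace p c G with hT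
    set Nl : Finset (Finset (Fin n)) := Finset.univ.filter fun S => S.card < d with hNl
    have hcov : sK p c ⊆
        (⋃ G ∈ T, tm p G '' {l | (∀ a, 0 ≤ l a) ∧ ∑ a, l a ≤ 1}) ∪
          ⋃ S ∈ Nl, (Submodule.span ℝ (p '' (S : Set (Fin n))) : Set _) := by
      intro y hy
      by_cases hN : ∀ S : Finset (Fin n), S.card < d → y ∉ Submodule.span ℝ (p '' (S : Set _))
      · left
        obtain ⟨G, hG, hyG⟩ := face_cover hd p h0 h1 c hε hc hgen hy hN
        simp only [mem_iUnion]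
        exact ⟨G, Finset.mem_filter.2 ⟨Finset.mem_univ _, hG⟩, hyG⟩
      · right
        push Not at hN
        obtain ⟨S, hS, hyS⟩ := hN
        simp only [mem_iUnion]
        exact ⟨S, Finset.mem_filter.2 ⟨Finset.mem_univ _, hS⟩, hyS⟩
    have hnull : volume (⋃ S ∈ Nl, (Submodule.span ℝ (p '' (S : Set (Fin n))) :
        Set (EuclideanSpace ℝ (Fin d)))) = 0 := by
      refine (measure_biUnion_null_iff (I := (Nl : Set (Finset (Fin n))))
        Nl.countable_toSet).2 fun S hS => ?_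
      have hSc : S.card < d := (Finset.mem_filter.1 hS).2
      refine Measure.addHaar_submodule _ _ fun htop => ?_
      have h2 : finrank ℝ (Submodule.span ℝ (p '' (S : Set (Fin n)))) ≤ S.card := by
        have h3 := finrank_span_finset_le_card (R := ℝ) (S.image p)
        rw [Set.finrank, Finset.coe_image] at h3
        exact h3.trans Finset.card_image_le
      rw [htop, finrank_top, finrank_euclideanSpace_fin] at h2
      omega
    calc volume (convexHull ℝ (range p)) ≤ volume ((1 + ε) • sK p c) :=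
          measure_mono (sK_hull p c hε hc)
      _ = ENNReal.ofReal ((1 + ε) ^ d) * volume (sK p c) := by
          rw [Measure.addHaar_smul, finrank_euclideanSpace_fin, abs_of_pos (by positivity)]
      _ ≤ ENNReal.ofReal ((1 + ε) ^ d) *
          ∑ G ∈ T, volume (tm p G '' {l | (∀ a, 0 ≤ l a) ∧ ∑ a, l a ≤ 1}) := by
          refine mul_le_mul_right ?_ _
          refine (measure_mono hcov).trans ((measure_union_le _ _).trans ?_)
          rw [hnull, add_zero]
          exact measure_biUnion_finset_le _ _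

end SY
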