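import Mathlib
import Pool.Agent.H27.SY.Defs
import Pool.Agent.H27.SY.Star
import Pool.Agent.H27.SY.Iso
import Pool.Agent.H27.SX.Vol

/-!
Project SY (MP_38b231_co), row SY-13 (helper29): the volume of the convex hull.
-/

set_option autoImplicit false

open MeasureTheory Metric Set Filter Module
open scoped Topology MeasureTheory RealInnerProductSpace Nat Pointwise

namespace SY

open SP SP.Mea SX

/-- the map `tm p G` as a linear map into the function space -/
noncomputable def sy13_L {n d : ℕ} (p : Fin n → EuclideanSpace ℝ (Fin d)) (G : Fin d → Fin n) :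
    (Fin d → ℝ) →ₗ[ℝ] (Fin d → ℝ) where
  toFun l := WithLp.ofLp (tm p G l)
  map_add' x y := by
    simp only [tm, Pi.add_apply, add_smul, Finset.sum_add_distrib, WithLp.ofLp_add]
  map_smul' c x := by
    simp only [tm, Pi.smul_apply, smul_eq_mul, mul_smul, ← Finset.smul_sum, WithLp.ofLp_smul,
      RingHom.id_apply]

theorem sy13_image {n d : ℕ} (p : Fin n → EuclideanSpace ℝ (Fin d)) (G : Fin d → Fin n)
    (A : Set (Fin d → ℝ)) :
    volume (tm p G '' A) = ENNReal.ofReal |LinearMap.det (sy13_L p G)| * volume A := by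
  rw [← Measure.addHaar_image_linearMap volume (sy13_L p G) A]
  have h := EuclideanSpace.volume_preserving_symm_measurableEquiv_toLp (Fin d)
  rw [← h.symm.measure_preimage_equiv]
  congr 1
  ext y
  simp only [mem_preimage, mem_image]
  constructor
  · rintro ⟨l, hl, h2⟩
    exact ⟨l, hl, congrArg WithLp.ofLp h2⟩
  · rintro ⟨l, hl, h2⟩
    exact ⟨l, hl, congrArg (WithLp.toLp 2) h2⟩

theorem sy13_meas {n d : ℕ} (p : Fin n → EuclideanSpace ℝ (Fin d)) (G : Fin d → Fin n)
    (hG : Function.Injective (tm p G)) {A : Set (Fin d → ℝ)} (hA : MeasurableSet A) :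
    MeasurableSet (tm p G '' A) := by
  refine hA.image_of_continuousOn_injOn ?_ hG.injOn
  refine Continuous.continuousOn ?_
  unfold tm
  fun_prop

theorem sy13_measB (d : ℕ) : MeasurableSet {l : Fin d → ℝ | (∀ a, 0 < l a) ∧ ∑ a, l a ^ 2 ≤ 1} := by
  have h1 : {l : Fin d → ℝ | (∀ a, 0 < l a) ∧ ∑ a, l a ^ 2 ≤ 1} =
      (⋂ a, {l | 0 < l a}) ∩ {l | ∑ a, l a ^ 2 ≤ 1} := by
    ext l
    simp
  rw [h1]
  refine (MeasurableSet.iInter fun a => ?_).inter ?_
  · exact measurableSet_lt measurable_const (measurable_pi_apply a)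
  · exact measurableSet_le (by fun_prop) measurable_const

theorem sy13_pos (d : ℕ) :
    volume {l : Fin d → ℝ | (∀ a, 0 ≤ l a) ∧ ∑ a, l a ^ 2 ≤ 1} =
      volume {l : Fin d → ℝ | (∀ a, 0 < l a) ∧ ∑ a, l a ^ 2 ≤ 1} := by
  refine le_antisymm ?_ (measure_mono fun l hl => ⟨fun a => (hl.1 a).le, hl.2⟩)
  have h1 : {l : Fin d → ℝ | (∀ a, 0 ≤ l a) ∧ ∑ a, l a ^ 2 ≤ 1} ⊆
      {l : Fin d → ℝ | (∀ a, 0 < l a) ∧ ∑ a, l a ^ 2 ≤ 1} ∪ ⋃ a, {l : Fin d → ℝ | l a = 0} := by
    rintro l ⟨h2, h3⟩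
    by_cases h4 : ∀ a, 0 < l a
    · exact Or.inl ⟨h4, h3⟩
    · rw [not_forall] at h4
      obtain ⟨a, ha⟩ := h4
      exact Or.inr (mem_iUnion.2 ⟨a, le_antisymm (not_lt.1 ha) (h2 a)⟩)
  refine (measure_mono h1).trans ((measure_union_le _ _).trans ?_)
  have h5 : volume (⋃ a, {l : Fin d → ℝ | l a = 0}) = 0 := by
    refine measure_iUnion_null fun a => ?_
    exact Measure.pi_hyperplane (fun _ => (volume : Measure ℝ)) a 0
  rw [h5, add_zero]

/-- the sum of the determinants -/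
theorem sy13_det {n d : ℕ} (p : Fin n → EuclideanSpace ℝ (Fin d))
    (h1 : ∀ y, ∑ i, ⟪p i, y⟫ ^ 2 = ‖y‖ ^ 2) (T : Finset (Fin d → Fin n))
    (hi : ∀ G ∈ T, Function.Injective G) (ht : ∀ G ∈ T, Function.Injective (tm p G))
    (hdis : ∀ G ∈ T, ∀ G' ∈ T, G ≠ G' →
      Disjoint (tm p G '' {l | ∀ a, 0 < l a}) (tm p G' '' {l | ∀ a, 0 < l a})) :
    ∑ G ∈ T, ENNReal.ofReal |LinearMap.det (sy13_L p G)| ≤ ENNReal.ofReal (Real.sqrt (2 ^ d)) := by
  have hb := ball_plus d
  rw [sy13_pos] at hb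
  set B : Set (Fin d → ℝ) := {l | (∀ a, 0 < l a) ∧ ∑ a, l a ^ 2 ≤ 1} with hB
  have hsub : ∀ G : Fin d → Fin n, tm p G '' B ⊆ tm p G '' {l | ∀ a, 0 < l a} := fun G =>
    image_mono fun l hl => hl.1
  have h2 : ∑ G ∈ T, volume (tm p G '' B) = volume (⋃ G ∈ T, tm p G '' B) := by
    refine (measure_biUnion_finset ?_ fun G hG => sy13_meas p G (ht G hG) (sy13_measB d)).symm
    intro G hG G' hG' hne
    exact (hdis G hG G' hG' hne).mono (hsub G) (hsub G')
  have h3 : (⋃ G ∈ T, tm p G '' B) ⊆ {y : EuclideanSpace ℝ (Fin d) | ∃ l : Fin n → ℝ,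
      (∀ i, 0 ≤ l i) ∧ ∑ i, l i ^ 2 ≤ 1 ∧ y = ∑ i, l i • p i} := by
    refine iUnion₂_subset fun G hG => ?_
    rintro _ ⟨l, ⟨hl0, hl1⟩, rfl⟩
    refine ⟨fun i => ∑ a, if G a = i then l a else 0, fun i => Finset.sum_nonneg fun a _ => ?_,
      ?_, ?_⟩
    · split_ifs
      · exact (hl0 a).le
      · exact le_rfl
    · have h4 : ∀ i, (∑ a, if G a = i then l a else 0) ^ 2 = ∑ a, if G a = i then l a ^ 2 else 0 := by
        intro i
        by_cases h5 : ∃ a, G a = i
        · obtain ⟨a, rfl⟩ := h5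
          rw [Finset.sum_eq_single a, Finset.sum_eq_single a]
          · simp
          · intro b _ hb
            rw [if_neg fun h => hb (hi G hG h)]
          · intro h
            exact absurd (Finset.mem_univ a) h
          · intro b _ hb
            rw [if_neg fun h => hb (hi G hG h)]
          · intro h
            exact absurd (Finset.mem_univ a) h
        · rw [not_exists] at h5
          simp [h5]
      simp only [h4]
      rw [Finset.sum_comm]
      simpa using hl1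
    · simp only [tm, Finset.sum_smul]
      rw [Finset.sum_comm]
      refine Finset.sum_congr rfl fun a _ => ?_
      simp [ite_smul]
  have h4 : ∑ G ∈ T, volume (tm p G '' B) ≤ volume (closedBall (0 : EuclideanSpace ℝ (Fin d))
      (Real.sqrt 2 / 2)) := by
    rw [h2]
    exact (measure_mono h3).trans (iso p h1)
  have h5 : volume (closedBall (0 : EuclideanSpace ℝ (Fin d)) (Real.sqrt 2 / 2)) =
      ENNReal.ofReal ((Real.sqrt 2 / 2) ^ d) * volume (closedBall (0 : EuclideanSpace ℝ (Fin d)) 1) := by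
    rw [Measure.addHaar_closedBall' volume 0 (by positivity : 0 ≤ Real.sqrt 2 / 2)]
    simp
  have h6 : (∑ G ∈ T, ENNReal.ofReal |LinearMap.det (sy13_L p G)|) * volume B ≤
      ENNReal.ofReal (Real.sqrt (2 ^ d)) * volume B := by
    rw [Finset.sum_mul]
    simp only [sy13_image] at h4
    refine h4.trans ?_
    rw [h5]
    refine (mul_le_mul_right hb _).trans ?_
    rw [← mul_assoc]
    refine le_of_eq ?_
    congr 1
    have h7 : (2 : ENNReal) ^ d = ENNReal.ofReal (2 ^ d) := by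
      rw [ENNReal.ofReal_pow zero_le_two]
      norm_num
    rw [h7, ← ENNReal.ofReal_mul (by positivity)]
    congr 1
    have h8 : (2 : ℝ) ^ d = (Real.sqrt 2 ^ d) ^ 2 := by
      rw [← pow_mul, mul_comm, pow_mul, Real.sq_sqrt zero_le_two]
    rw [show Real.sqrt (2 ^ d) = Real.sqrt 2 ^ d by
      rw [h8, Real.sqrt_sq (by positivity)], ← mul_pow]
    congr 1
    ring
  have hpos : volume B ≠ 0 := by
    intro h
    rw [h, mul_zero] at hb
    have := measure_closedBall_pos (volume : Measure (EuclideanSpace ℝ (Fin d))) 0 one_pos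
    exact absurd (le_antisymm hb zero_le) this.ne'
  have hfin : volume B ≠ ⊤ := by
    have h9 : B ⊆ Set.Icc 0 1 := by
      rintro l ⟨h10, h11⟩
      refine ⟨fun a => (h10 a).le, fun a => ?_⟩
      have h12 : l a ^ 2 ≤ 1 :=
        (Finset.single_le_sum (fun b _ => sq_nonneg (l b)) (Finset.mem_univ a)).trans h11
      simpa using (abs_le_one_iff_mul_self_le_one.2 (by nlinarith)).trans' (le_abs_self (l a))
    exact ((measure_mono h9).trans_lt isCompact_Icc.measure_lt_top).ne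
  exact (ENNReal.mul_le_mul_iff_left hpos hfin).1 h6

theorem hull_vol {n d : ℕ} (hd : 1 ≤ d) (p : Fin n → EuclideanSpace ℝ (Fin d))
    (h0 : ∑ i, p i = 0) (h1 : ∀ y, ∑ i, ⟪p i, y⟫ ^ 2 = ‖y‖ ^ 2) :
    volume (convexHull ℝ (range p)) ≤ ENNReal.ofReal (Real.sqrt (2 ^ d) / (d ! : ℝ)) := by
  have key : ∀ ε : ℝ, 0 < ε → volume (convexHull ℝ (range p)) ≤
      ENNReal.ofReal ((1 + ε) ^ d * (Real.sqrt (2 ^ d) / (d ! : ℝ))) := by
    intro ε hε
    obtain ⟨T, hi, ht, hdis, hvol⟩ := star hd p h0 h1 hε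
    refine hvol.trans ?_
    rw [ENNReal.ofReal_mul (by positivity)]
    refine mul_le_mul_right ?_ _
    simp only [sy13_image]
    rw [← Finset.sum_mul, vol_corner d 1 zero_le_one, one_pow, div_eq_mul_one_div (Real.sqrt _),
      ENNReal.ofReal_mul (by positivity)]
    exact mul_le_mul_left (sy13_det p h1 T hi ht hdis) _
  have h2 : Tendsto (fun ε : ℝ => ENNReal.ofReal ((1 + ε) ^ d * (Real.sqrt (2 ^ d) / (d ! : ℝ))))
      (𝓝[>] 0) (𝓝 (ENNReal.ofReal ((1 + 0) ^ d * (Real.sqrt (2 ^ d) / (d ! : ℝ))))) := by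
    refine ENNReal.tendsto_ofReal ?_
    refine Tendsto.mono_left ?_ nhdsWithin_le_nhds
    exact (Continuous.tendsto (by fun_prop) 0)
  rw [add_zero, one_pow, one_mul] at h2
  exact ge_of_tendsto h2 (eventually_mem_nhdsWithin.mono fun ε hε => key ε hε)

end SY
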