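import Pool.Agent.H27.SY.Defs
import Pool.Agent.H27.SX.Span

/-!
# Difference operators on `ℤ^k` for module-valued functions (project SY, row SY-1)

Injectivity and solvability of `Lo α` on the functions with support bounded above, on the points
which are nonnegative outside `I` (helper45 for helper27).
-/

set_option autoImplicit false

open MeasureTheory Metric Set Filter Module
open scoped Topology MeasureTheory RealInnerProductSpace Nat Pointwise

namespace SY

open SP SP.Mea SX

private theorem inj_ez {k : ℕ} (s : Fin k) : (ez s : Fin k → ℤ) = spanE s := rfl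

private theorem inj_sub {k : ℕ} {I : Finset (Fin k)} {i : Fin k} (hi : i ∈ I) (x : Fin k → ℤ) :
    spanh I (x - spanE i) = spanh I x := by
  conv_rhs => rw [← sub_add_cancel x (spanE i)]
  rw [spanh_add_in hi]

theorem inj {F : Type} [Field F] {M : Type} [AddCommGroup M] [Module F M] {k : ℕ} (α : Fin k → F)
    {I : Finset (Fin k)} {i : Fin k} (hi : i ∈ I) (h1 : α i ≠ 0) (h0 : ∀ l ∈ I, l ≠ i → α l = 0)
    {f : (Fin k → ℤ) → M} (hf : Bd f) (h : ∀ y ∈ ZC I, Lo α f y = 0) : ∀ x ∈ ZC I, f x = 0 := by
  obtain ⟨B, hB⟩ := hf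
  have key : ∀ m : ℕ, ∀ x, spanZ I x → (Iᶜ.card : ℤ) * B - m < spanh I x → f x = 0 := by
    intro m
    induction m with
    | zero =>
      intro x hx hlt
      by_contra hne
      have := spanh_le (C := I) (hB x hne)
      push_cast at hlt
      omega
    | succ m ih =>
      intro x hx hlt
      have h2 := h (x - spanE i) (spanZ_sub hx hi)
      unfold Lo at h2
      rw [Finset.sum_eq_single i] at h2
      · rw [inj_ez, sub_add_cancel] at h2
        exact (smul_eq_zero.1 h2).resolve_left h1
      · intro s _ hs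
        by_cases hsC : s ∈ I
        · rw [h0 s hsC hs, zero_smul]
        · rw [inj_ez, ih (x - spanE i + spanE s) (spanZ_add (spanZ_sub hx hi) s), smul_zero]
          rw [spanh_add_out hsC, inj_sub hi]
          push_cast at hlt
          omega
      · intro h
        exact absurd (Finset.mem_univ i) h
  intro x hx
  refine key ((Iᶜ.card : ℤ) * B + 1).toNat x hx ?_
  have h3 := spanh_nonneg (C := I) (x := x) hx
  have := Int.self_le_toNat ((Iᶜ.card : ℤ) * B + 1)
  omega

section

variable {F : Type} [Field F] {M : Type} [AddCommGroup M] [Module F M] {k : ℕ}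

/-- the iteration for the solution -/
private noncomputable def injS (α : Fin k → F) (i : Fin k) (w : (Fin k → ℤ) → M) :
    ℕ → (Fin k → ℤ) → M
  | 0 => fun _ => 0
  | p + 1 => fun x => (α i)⁻¹ • (w (x - spanE i) -
      ∑ n ∈ Finset.univ.erase i, α n • injS α i w p (x - spanE i + spanE n))

private theorem injS_bdd (α : Fin k → F) (i : Fin k) {w : (Fin k → ℤ) → M} {B : ℤ}
    (hw : ∀ y, w y ≠ 0 → ∀ n, y n ≤ B) (p : ℕ) :
    ∀ x, injS α i w p x ≠ 0 → ∀ n, x n ≤ B + p := by
  induction p with
  | zero =>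
    intro x hx
    exact absurd rfl hx
  | succ p ih =>
    intro x hx n
    have hor : w (x - spanE i) ≠ 0 ∨ ∃ m, injS α i w p (x - spanE i + spanE m) ≠ 0 := by
      by_contra hc
      push Not at hc
      apply hx
      show (α i)⁻¹ • (w (x - spanE i) -
        ∑ n ∈ Finset.univ.erase i, α n • injS α i w p (x - spanE i + spanE n)) = 0
      rw [hc.1, Finset.sum_eq_zero (fun m _ => by rw [hc.2 m, smul_zero]), sub_zero, smul_zero]
    have h1 := spanE_le i n
    rcases hor with h | ⟨m, hm⟩
    · have := hw _ h n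
      rw [Pi.sub_apply] at this
      push_cast
      omega
    · have := ih _ hm n
      rw [Pi.add_apply, Pi.sub_apply] at this
      have := spanE_nonneg m n
      push_cast
      omega

private theorem injS_stable {I : Finset (Fin k)} {i : Fin k} (hi : i ∈ I) {α : Fin k → F}
    (h0 : ∀ l ∈ I, l ≠ i → α l = 0) {w : (Fin k → ℤ) → M} {B : ℤ}
    (hw : ∀ y, w y ≠ 0 → ∀ n, y n ≤ B) (p : ℕ) :
    ∀ x, spanZ I x → (Iᶜ.card : ℤ) * B + 1 - p ≤ spanh I x →
      injS α i w (p + 1) x = injS α i w p x := by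
  induction p with
  | zero =>
    intro x hx hlt
    show (α i)⁻¹ • (w (x - spanE i) -
      ∑ n ∈ Finset.univ.erase i, α n • injS α i w 0 (x - spanE i + spanE n)) = 0
    have h1 : w (x - spanE i) = 0 := by
      by_contra hne
      have := spanh_le (C := I) (hw _ hne)
      rw [inj_sub hi] at this
      push_cast at hlt
      omega
    rw [h1, Finset.sum_eq_zero (fun m _ => by
      show α m • (0 : M) = 0
      rw [smul_zero]), sub_zero, smul_zero]
  | succ p ih =>
    intro x hx hlt
    show (α i)⁻¹ • (w (x - spanE i) -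
      ∑ n ∈ Finset.univ.erase i, α n • injS α i w (p + 1) (x - spanE i + spanE n)) =
      (α i)⁻¹ • (w (x - spanE i) -
      ∑ n ∈ Finset.univ.erase i, α n • injS α i w p (x - spanE i + spanE n))
    congr 2
    refine Finset.sum_congr rfl fun n hn => ?_
    have hni : n ≠ i := Finset.ne_of_mem_erase hn
    by_cases hnC : n ∈ I
    · rw [h0 n hnC hni, zero_smul, zero_smul]
    · rw [ih (x - spanE i + spanE n) (spanZ_add (spanZ_sub hx hi) n)]
      rw [spanh_add_out hnC, inj_sub hi]
      push_cast at hlt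
      omega

end

theorem solve {F : Type} [Field F] {M : Type} [AddCommGroup M] [Module F M] {k : ℕ} (α : Fin k → F)
    {I : Finset (Fin k)} {i : Fin k} (hi : i ∈ I) (h1 : α i ≠ 0) (h0 : ∀ l ∈ I, l ≠ i → α l = 0)
    {w : (Fin k → ℤ) → M} (hw : Bd w) :
    ∃ s : (Fin k → ℤ) → M, Bd s ∧ ∀ y ∈ ZC I, Lo α s y = w y := by
  obtain ⟨B, hw⟩ := hw
  obtain ⟨p, hp⟩ : ∃ p : ℕ, (Iᶜ.card : ℤ) * B + 1 ≤ p :=
    ⟨((Iᶜ.card : ℤ) * B + 1).toNat, Int.self_le_toNat _⟩
  refine ⟨injS α i w p, ⟨B + p, injS_bdd α i hw p⟩, ?_⟩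
  intro y hy
  have h2 := injS_stable hi h0 hw p (y + spanE i) (spanZ_add hy i) (by
    have := spanh_nonneg (spanZ_add (C := I) (x := y) hy i)
    omega)
  unfold Lo
  rw [← Finset.add_sum_erase _ _ (Finset.mem_univ i), inj_ez, ← h2]
  show α i • ((α i)⁻¹ • (w (y + spanE i - spanE i) -
      ∑ n ∈ Finset.univ.erase i, α n • injS α i w p (y + spanE i - spanE i + spanE n))) +
      ∑ n ∈ Finset.univ.erase i, α n • injS α i w p (y + spanE n) = w y
  rw [add_sub_cancel_right, smul_inv_smul₀ h1, sub_add_cancel]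

end SY
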