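import Pool.Agent.H27.SY.Defs

/-!
# SY-17: the content is at least the sum of the projections
-/

set_option autoImplicit false

open MeasureTheory Metric Set Filter Module
open scoped Topology MeasureTheory RealInnerProductSpace Nat Pointwise

namespace SY

open SP SP.Mea SX

/-- the projection of a compact set along an orthonormal family and its neighbourhoods -/
theorem Low_thick {E : Type*} [NormedAddCommGroup E] [InnerProductSpace ℝ E]
    [FiniteDimensional ℝ E] [MeasurableSpace E] [BorelSpace E] {m d : ℕ}
    (hE : finrank ℝ E = d + m) (w : Fin m → E) (hw : Orthonormal ℝ w) {K : Set E}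
    (hK : IsCompact K) {ε : ℝ} (hε : 0 < ε) :
    volume ((fun x : E => (WithLp.toLp 2 (fun a => ⟪w a, x⟫) : EuclideanSpace ℝ (Fin m))) '' K) *
      ENNReal.ofReal (al d * ε ^ d) ≤ volume (cthickening ε K) := by
  classical
  set s : Submodule ℝ E := Submodule.span ℝ (range w) with hs
  let v : Fin m → s := fun a => ⟨w a, Submodule.subset_span (mem_range_self a)⟩
  have hv : Orthonormal ℝ v := by
    rw [orthonormal_iff_ite] at hw ⊢
    intro i j
    rw [← hw i j]
    rfl
  have hspan : ⊤ ≤ Submodule.span ℝ (range v) := by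
    have h1 : range v = ((↑) : s → E) ⁻¹' range w := by
      ext x
      constructor
      · rintro ⟨a, rfl⟩
        exact ⟨a, rfl⟩
      · rintro ⟨a, ha⟩
        exact ⟨a, Subtype.ext ha⟩
    rw [h1]
    exact (Submodule.span_span_coe_preimage (R := ℝ) (s := range w)).ge
  let b : OrthonormalBasis (Fin m) ℝ s := OrthonormalBasis.mk hv hspan
  have hb : ∀ a, ((b a : s) : E) = w a := by
    intro a
    simp [b, v]
  have hfs : finrank ℝ s = m := by
    rw [finrank_eq_card_basis b.toBasis, Fintype.card_fin]
  have hfo : finrank ℝ sᗮ = d := by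
    have := Submodule.finrank_add_finrank_orthogonal s
    omega
  -- the projection to `s`
  let π : E → s := fun x => s.orthogonalProjectionOnto x
  have hπc : Continuous π := s.orthogonalProjectionOnto.continuous
  have himg : (fun x : E => (WithLp.toLp 2 (fun a => ⟪w a, x⟫) : EuclideanSpace ℝ (Fin m))) '' K =
      b.repr '' (π '' K) := by
    rw [image_image]
    refine image_congr fun x _ => ?_
    ext a
    simp only [π]
    rw [b.repr_apply_apply, Submodule.inner_orthogonalProjectionOnto_eq_of_mem_left, hb]
  have hvol : volume ((fun x : E =>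
      (WithLp.toLp 2 (fun a => ⟪w a, x⟫) : EuclideanSpace ℝ (Fin m))) '' K) =
      volume (π '' K) := by
    rw [himg, b.repr.image_eq_preimage_symm]
    exact b.measurePreserving_repr_symm.measure_preimage
      ((hK.image hπc).isClosed.measurableSet.nullMeasurableSet)
  rw [hvol]
  have hmp := s.measurePreserving_measurableEquivProd (0 : E)
  rw [InnerProductSpace.euclideanHausdorffMeasure_eq_volume] at hmp
  have hBm : MeasurableSet (cthickening ε K) := isClosed_cthickening.measurableSet
  have h1 : volume (cthickening ε K) =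
      ∫⁻ u : s, volume (Prod.mk u ⁻¹' ((s.measurableEquivProd (0 : E)).symm ⁻¹' cthickening ε K)) := by
    rw [← hmp.symm.measure_preimage_equiv, Measure.volume_eq_prod,
      Measure.prod_apply ((s.measurableEquivProd (0 : E)).symm.measurable hBm)]
  rw [h1]
  calc volume (π '' K) * ENNReal.ofReal (al d * ε ^ d)
      = ∫⁻ _ in π '' K, ENNReal.ofReal (al d * ε ^ d) := by
        rw [setLIntegral_const, mul_comm]
    _ ≤ ∫⁻ u in π '' K,
        volume (Prod.mk u ⁻¹' ((s.measurableEquivProd (0 : E)).symm ⁻¹' cthickening ε K)) := by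
        refine setLIntegral_mono' (hK.image hπc).isClosed.measurableSet ?_
        rintro u ⟨x, hx, rfl⟩
        rw [← vol_closedBall hfo (sᗮ.orthogonalProjectionOnto x) hε]
        apply measure_mono
        intro y hy
        rw [mem_preimage, mem_preimage, Submodule.measurableEquivProd_symm_apply]
        refine mem_cthickening_of_dist_le _ x _ _ hx ?_
        have hdec : x - ((s.orthogonalProjectionOnto x : s) : E) =
            ((sᗮ.orthogonalProjectionOnto x : sᗮ) : E) := by
          rw [Submodule.orthogonalProjectionOnto_orthogonal]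
          rfl
        rw [vadd_eq_add, add_zero, dist_eq_norm]
        rw [mem_closedBall, dist_eq_norm] at hy
        have h5 : ((π x : s) : E) + (y : E) - x =
            ((y - sᗮ.orthogonalProjectionOnto x : sᗮ) : E) := by
          rw [Submodule.coe_sub, ← hdec]
          simp only [π]
          abel
        simp only
        rw [h5]
        exact hy
    _ ≤ _ := setLIntegral_le_lintegral _ _

theorem thick_proj {m d : ℕ} (hd : 1 ≤ d) (w : Fin m → V (d + m + 1)) (hw : Fr w)
    {K : Set (V (d + m + 1))} (hK : IsCompact K) (hH : K ⊆ Hp (d + m + 1)) {ε : ℝ}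
    (hε : 0 < ε) :
    volume (cw w '' K) * ENNReal.ofReal (al d * ε ^ d) ≤
      μHE[d + m] (cthickening ε K ∩ Hp (d + m + 1)) := by
  rcases K.eq_empty_or_nonempty with rfl | ⟨p, hp⟩
  · simp
  have hpH := hH hp
  have hmu := mu_eq (k := d + m + 1) (by omega) hpH (cthickening ε K)
  have h2 : d + m + 1 - 1 = d + m := by omega
  rw [h2] at hmu
  rw [hmu, pre_cthick hpH hH]
  let w' : Fin m → E0 (d + m + 1) := fun a => ⟨w a, hw.2 a⟩
  have hw' : Orthonormal ℝ w' := by
    have h0 := hw.1
    rw [orthonormal_iff_ite] at h0 ⊢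
    intro i j
    rw [← h0 i j]
    rfl
  have hfr : finrank ℝ (E0 (d + m + 1)) = d + m := by
    rw [finrank_E0 (by omega)]
    omega
  have hK' : IsCompact (io p ⁻¹' K) :=
    (io_isometry p).isClosedEmbedding.isCompact_preimage hK
  refine le_trans (le_of_eq ?_) (Low_thick hfr w' hw' hK' hε)
  congr 1
  have himg : cw w '' K = (fun y => y + cw w p) ''
      ((fun x : E0 (d + m + 1) => (WithLp.toLp 2 (fun a => ⟪w' a, x⟫) : EuclideanSpace ℝ (Fin m))) ''
        (io p ⁻¹' K)) := by
    rw [image_image]
    have h3 : io p '' (io p ⁻¹' K) = K := by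
      rw [image_preimage_eq_iff, range_io hpH]
      exact hH
    conv_lhs => rw [← h3]
    rw [image_image]
    refine image_congr fun x _ => ?_
    ext a
    simp only [cw, io, PiLp.add_apply]
    rw [inner_add_right]
    rfl
  rw [himg, image_add_right, measure_preimage_add_right]

theorem content_proj {m d : ℕ} (hd : 1 ≤ d) {S : Set (V (d + m + 1))} (hH : S ⊆ Hp (d + m + 1))
    {L : ℝ} (hSb : Bornology.IsBounded S) (hL : HasContent (d + m + 1) m S L) {n : ℕ}
    (K : Fin n → Set (V (d + m + 1))) (w : Fin n → Fin m → V (d + m + 1)) (hw : ∀ i, Fr (w i))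
    (hK : ∀ i, IsCompact (K i)) (hKS : ∀ i, K i ⊆ S) (hdis : ∀ i j, i ≠ j → Disjoint (K i) (K j)) :
    ∑ i, (volume (cw (w i) '' K i)).toReal ≤ L := by
  have h2 : d + m + 1 - 1 = d + m := by omega
  have h3 : d + m - m = d := by omega
  rw [HasContent, h2, h3] at hL
  refine ge_of_tendsto hL ?_
  have e1 : ∀ i j, ∀ᶠ ε : ℝ in 𝓝[>] 0,
      i ≠ j → Disjoint (cthickening ε (K i)) (cthickening ε (K j)) := by
    intro i j
    by_cases hij : i = j
    · exact Filter.Eventually.of_forall fun δ h => absurd hij h
    · obtain ⟨r, hr', hrr⟩ := (hdis i j hij).exists_cthickenings (hK i) (hK j).isClosed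
      filter_upwards [Ioo_mem_nhdsGT hr'] with δ hδ _
      exact hrr.mono (cthickening_mono hδ.2.le _) (cthickening_mono hδ.2.le _)
  have e1' := Filter.eventually_all.2 fun i => Filter.eventually_all.2 (e1 i)
  filter_upwards [e1', self_mem_nhdsWithin] with ε hds hε
  have hε' : (0 : ℝ) < ε := hε
  have hal : 0 < al d * ε ^ d := mul_pos (al_pos d) (by positivity)
  rw [le_div_iff₀ hal]
  have hclosed : IsClosed (Hp (d + m + 1)) := by
    have : Hp (d + m + 1) = {x : V (d + m + 1) | ∑ i, x i = 1} := rfl
    rw [this]
    exact isClosed_eq (by fun_prop) continuous_const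
  have hfin : μHE[d + m] (cthickening ε S ∩ Hp (d + m + 1)) < ⊤ := by
    have := mu_fin (k := d + m + 1) (by omega) hSb ε
    rwa [h2] at this
  have hsum : ∑ i, μHE[d + m] (cthickening ε (K i) ∩ Hp (d + m + 1)) ≤
      μHE[d + m] (cthickening ε S ∩ Hp (d + m + 1)) := by
    rw [← tsum_fintype (L := SummationFilter.unconditional _), ← measure_iUnion]
    · refine measure_mono (iUnion_subset fun i => ?_)
      exact inter_subset_inter_left _ (cthickening_subset_of_subset _ (hKS i))
    · intro i j hij
      exact (hds i j hij).mono inter_subset_left inter_subset_left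
    · exact fun i => (isClosed_cthickening.inter hclosed).measurableSet
  have hle : ∑ i, volume (cw (w i) '' K i) * ENNReal.ofReal (al d * ε ^ d) ≤
      μHE[d + m] (cthickening ε S ∩ Hp (d + m + 1)) :=
    (Finset.sum_le_sum fun i _ =>
      thick_proj hd (w i) (hw i) (hK i) ((hKS i).trans hH) hε').trans hsum
  have hfi : ∀ i, volume (cw (w i) '' K i) ≠ ⊤ := by
    intro i htop
    have h5 : volume (cw (w i) '' K i) * ENNReal.ofReal (al d * ε ^ d) ≤
        μHE[d + m] (cthickening ε S ∩ Hp (d + m + 1)) :=
      (Finset.single_le_sum (f := fun i => volume (cw (w i) '' K i) *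
        ENNReal.ofReal (al d * ε ^ d)) (fun _ _ => zero_le) (Finset.mem_univ i)).trans hle
    rw [htop, ENNReal.top_mul (by simpa using hal)] at h5
    exact absurd hfin (not_lt.2 h5)
  have h6 := ENNReal.toReal_mono hfin.ne hle
  rw [ENNReal.toReal_sum (fun i _ => ENNReal.mul_ne_top (hfi i) ENNReal.ofReal_ne_top)] at h6
  rw [Finset.sum_mul]
  refine le_trans (le_of_eq ?_) h6
  refine Finset.sum_congr rfl fun i _ => ?_
  rw [ENNReal.toReal_mul, ENNReal.toReal_ofReal hal.le]

end SY
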