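import Pool.Agent.H27.SY.Hull

/-!
# Project SY: projections of the simplex
-/

set_option autoImplicit false

open MeasureTheory Metric Set Filter Module
open scoped Topology MeasureTheory RealInnerProductSpace Nat Pointwise

namespace SY

open SP SP.Mea SX

/-- the projections of the vertices -/
noncomputable def pjd {k d : ℕ} (w : Fin d → V k) (i : Fin k) : EuclideanSpace ℝ (Fin d) :=
  WithLp.toLp 2 (fun a => w a i)

theorem pjd_subset {k d : ℕ} (hk : 1 ≤ k) (w : Fin d → V k) (hw : Fr w) :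
    cw w '' D0 k ⊆ convexHull ℝ (range (pjd w)) := by
  rintro _ ⟨x, ⟨hx0, hx⟩, rfl⟩
  have hk0 : (k : ℝ) ≠ 0 := by positivity
  have hsum : ∑ i, (x i + 1 / (k : ℝ)) = 1 := by
    rw [Finset.sum_add_distrib, hx0, zero_add, Finset.sum_const, Finset.card_univ, Fintype.card_fin,
      nsmul_eq_mul]
    field_simp
  have hcw : cw w x = ∑ i, (x i + 1 / (k : ℝ)) • pjd w i := by
    apply PiLp.ext
    intro a
    have h0 : ∑ i, w a i = 0 := mem_E0.1 (hw.2 a)
    have h1 : (∑ i, (x i + 1 / (k : ℝ)) • pjd w i) a = ∑ i, (x i + 1 / (k : ℝ)) * w a i := by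
      rw [WithLp.ofLp_sum, Finset.sum_apply]
      refine Finset.sum_congr rfl fun i _ => ?_
      rfl
    rw [h1]
    have h2 : cw w x a = ∑ i, x i * w a i := by
      show ⟪w a, x⟫ = _
      rw [PiLp.inner_apply]
      refine Finset.sum_congr rfl fun i _ => ?_
      simp
    rw [h2]
    simp only [add_mul]
    rw [Finset.sum_add_distrib, ← Finset.mul_sum, h0, mul_zero, add_zero]
  rw [hcw]
  refine (convex_convexHull ℝ _).sum_mem (fun i _ => ?_) hsum (fun i _ => ?_)
  · linarith [hx i]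
  · exact subset_convexHull ℝ _ (mem_range_self i)

/-- the projections of the vertices have sum zero -/
theorem pjd_sum {k d : ℕ} (w : Fin d → V k) (hw : Fr w) : ∑ i, pjd w i = 0 := by
  apply PiLp.ext
  intro a
  have h0 : ∑ i, w a i = 0 := mem_E0.1 (hw.2 a)
  rw [WithLp.ofLp_sum, Finset.sum_apply]
  exact h0

/-- the projections of the vertices form a tight frame -/
theorem pjd_frame {k d : ℕ} (w : Fin d → V k) (hw : Fr w) (y : EuclideanSpace ℝ (Fin d)) :
    ∑ i, ⟪pjd w i, y⟫ ^ 2 = ‖y‖ ^ 2 := by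
  have h1 : ∀ i, ⟪pjd w i, y⟫ = (∑ a, y a • w a) i := by
    intro i
    rw [WithLp.ofLp_sum, Finset.sum_apply, PiLp.inner_apply]
    refine Finset.sum_congr rfl fun a _ => ?_
    simp [pjd]
  have h2 : ∑ i, ⟪pjd w i, y⟫ ^ 2 = ‖∑ a, y a • w a‖ ^ 2 := by
    rw [EuclideanSpace.norm_sq_eq]
    refine Finset.sum_congr rfl fun i _ => ?_
    rw [h1, Real.norm_eq_abs, sq_abs]
  rw [h2, ← real_inner_self_eq_norm_sq, hw.1.inner_sum, EuclideanSpace.norm_sq_eq]
  refine Finset.sum_congr rfl fun a _ => ?_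
  rw [Real.norm_eq_abs, sq_abs]
  simp [pow_two]

theorem proj_vol {k d : ℕ} (hk : 1 ≤ k) (hd : 1 ≤ d) (w : Fin d → V k) (hw : Fr w) :
    volume (cw w '' D0 k) ≤ ENNReal.ofReal (Real.sqrt (2 ^ d) / (d ! : ℝ)) :=
  (measure_mono (pjd_subset hk w hw)).trans
    (hull_vol hd (pjd w) (pjd_sum w hw) (pjd_frame w hw))

end SY
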