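import Pool.Agent.H27.SY.Cov
import Pool.Agent.H27.SY.Flat
import Pool.Agent.H27.SY.Fin
import Pool.Agent.H27.SY.Low
import Pool.Agent.H27.SY.Proj
import Pool.Agent.H27.SX.Lower

/-!
# SY-18: the lower bound for rectifiable sets
-/

set_option autoImplicit false

open MeasureTheory Metric Set Filter Module
open scoped Topology MeasureTheory RealInnerProductSpace Nat Pointwise

namespace SY

open SP SP.Mea SX

/-- the cost of a thick cube -/
theorem low_cube {m d : ℕ} (hd : 1 ≤ d) {v : ℝ} (hv0 : 0 < v)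
    (hv : ∀ w : Fin d → V (d + m + 1), Fr w → volume (cw w '' D0 (d + m + 1)) ≤ ENNReal.ofReal v)
    (w : Fin m → V (d + m + 1)) (hw : Fr w) (p : V (d + m + 1))
    (hp : p ∈ Hp (d + m + 1)) {r η : ℝ} (hr : 0 < r) (hη : 0 < η) :
    (d ! : ℝ) * (μHE[d + m] (closure (TCo w p r (4 * m * η * r) ∩ Hp (d + m + 1)) +
      (Real.sqrt η * r) • D0 (d + m + 1))).toReal / (Real.sqrt η * r) ^ d ≤
      (d ! : ℝ) * v * (1 + 2 * Real.sqrt η) ^ m *
        (1 + 4 * m * ((d : ℝ) + m + 1) * Real.sqrt η) ^ d * r ^ m := by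
  have hs : 0 < Real.sqrt η := Real.sqrt_pos.2 hη
  have hsq : Real.sqrt η * Real.sqrt η = η := Real.mul_self_sqrt hη.le
  have h1 := flat_cost hd hv0.le hv w hw p hp (r := r) (h := 4 * m * η * r)
    (ε := Real.sqrt η * r) hr.le (by positivity) (by positivity)
  have h2 : μHE[d + m] (closure (TCo w p r (4 * m * η * r) ∩ Hp (d + m + 1)) +
      (Real.sqrt η * r) • D0 (d + m + 1)) ≤
      ENNReal.ofReal ((r + 2 * (Real.sqrt η * r)) ^ m *
        ((Real.sqrt η * r + ((d : ℝ) + m + 1) * (4 * m * η * r)) ^ d * v)) :=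
    (measure_mono (Set.add_subset_add_right (low_closure w p r _))).trans h1
  have h3 := ENNReal.toReal_le_of_le_ofReal (by positivity) h2
  rw [div_le_iff₀ (by positivity)]
  have h4 : (r + 2 * (Real.sqrt η * r)) ^ m = r ^ m * (1 + 2 * Real.sqrt η) ^ m := by
    rw [← mul_pow]; ring
  have h5 : Real.sqrt η * r + ((d : ℝ) + m + 1) * (4 * m * η * r) =
      (Real.sqrt η * r) * (1 + 4 * m * ((d : ℝ) + m + 1) * Real.sqrt η) := by
    have : η * r = Real.sqrt η * (Real.sqrt η * r) := by rw [← mul_assoc, hsq]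
    calc Real.sqrt η * r + ((d : ℝ) + m + 1) * (4 * m * η * r)
        = Real.sqrt η * r + ((d : ℝ) + m + 1) * (4 * m) * (η * r) := by ring
      _ = _ := by rw [this]; ring
  rw [h4, h5, mul_pow (Real.sqrt η * r)] at h3
  calc (d ! : ℝ) * (μHE[d + m] (closure (TCo w p r (4 * m * η * r) ∩ Hp (d + m + 1)) +
      (Real.sqrt η * r) • D0 (d + m + 1))).toReal
      ≤ (d ! : ℝ) * (r ^ m * (1 + 2 * Real.sqrt η) ^ m *
        ((Real.sqrt η * r) ^ d * (1 + 4 * m * ((d : ℝ) + m + 1) * Real.sqrt η) ^ d * v)) := by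
        gcongr
    _ = _ := by ring

/-- the estimate for fixed `η` -/
theorem low_eta {m d : ℕ} (hm : 1 ≤ m) (hd : 1 ≤ d) {v : ℝ} (hv0 : 0 < v)
    (hv : ∀ w : Fin d → V (d + m + 1), Fr w →
      volume (cw w '' D0 (d + m + 1)) ≤ ENNReal.ofReal v) :
    ∃ C : ℝ, ∀ A : Fin (d + m + 1) → Set (V (d + m + 1)),
    Adm0 (d + m + 1) A → Rect (d + m + 1) m (meet (d + m + 1) A (d + 1)) → ∀ L : ℝ,
    HasContent (d + m + 1) m (meet (d + m + 1) A (d + 1)) L → ∀ η : ℝ, 0 < η → η ≤ 1 / 2 →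
    Real.sqrt ((d : ℝ) + m + 1) / (m ! : ℝ) ≤
      (d ! : ℝ) * v * (1 + 2 * Real.sqrt η) ^ m *
        (1 + 4 * m * ((d : ℝ) + m + 1) * Real.sqrt η) ^ d * (L + η) + C * η := by
  obtain ⟨C1, hC1, hcov⟩ := ball_cover (d + m + 1) m (by omega) hm
  obtain ⟨C2, hC2, hball⟩ := ball_cost m d hd
  refine ⟨(d ! : ℝ) * C2 * C1, ?_⟩
  intro A hA hR L hL η hη hη2
  obtain ⟨hSc, hSx⟩ := meet_compact hA (d + 1) (by omega)
  set S := meet (d + m + 1) A (d + 1) with hS
  have hSH : S ⊆ Hp (d + m + 1) := fun x hx => (hSx hx).2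
  have hfin := meas_fin hd hSc hSH hL
  obtain ⟨Q, w, hQc, hQH, hw, hQf, hQ0⟩ := flat_patches hR hη
  obtain ⟨n, K, hKc, hKS, hKQ, hKd, hKm⟩ := pieces hSc hfin hQc hQ0 hη
  have hcp := content_proj hd hSH hSc.isBounded hL K (fun i => w i) (fun i => hw i) hKc hKS hKd
  have hθ : 0 < η / (n + 1) := by positivity
  have hcub : ∀ i : Fin n, ∃ (r : ℝ) (T : Finset (V (d + m + 1))), 0 < r ∧ r < η / (n + 1) ∧
      (∀ p ∈ T, p ∈ Hp (d + m + 1)) ∧
      K i ⊆ ⋃ p ∈ T, TCo (w i) p r (4 * m * η * r) ∧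
      (T.card : ℝ) * r ^ m ≤ (volume (cw (w i) '' K i)).toReal + η / (n + 1) := fun i =>
    cubes hm (w i) (hw i) (hKc i) ((hKS i).trans hSH) hη hη2
      (fun x hx y hy => hQf i x (hKQ i hx) y (hKQ i hy)) hθ
  choose r T hr hrθ hTH hKT hTc using hcub
  obtain ⟨q, ρ, hqH, hρ, hZ, hsum, hts⟩ := hcov (S \ ⋃ i, K i) (sdiff_subset.trans hSH) η hη hKm
  -- the part not covered by cubes is compact
  set O : Set (V (d + m + 1)) := ⋃ i, ⋃ p ∈ T i, TCo (w i) p (r i) (4 * m * η * r i) with hO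
  have hOo : IsOpen O := isOpen_iUnion fun i => isOpen_biUnion fun p _ => low_TCo_open _ _ _ _
  have hcomp : IsCompact (S \ O) := hSc.diff hOo
  have hsub : S \ O ⊆ ⋃ j, ball (q j) (ρ j) := by
    rintro x ⟨hx, hxO⟩
    apply hZ
    refine ⟨hx, fun hxK => hxO ?_⟩
    obtain ⟨i, hi⟩ := mem_iUnion.1 hxK
    exact mem_iUnion.2 ⟨i, hKT i hi⟩
  obtain ⟨F, hF⟩ := hcomp.elim_finite_subcover _ (fun j => isOpen_ball) hsub
  let ι := (Σ i : Fin n, T i) ⊕ F
  let KK : ι → Set (V (d + m + 1)) := Sum.elim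
    (fun z => TCo (w z.1) z.2.1 (r z.1) (4 * m * η * r z.1)) (fun j => ball (q j) (ρ j))
  let ee : ι → ℝ := Sum.elim (fun z => Real.sqrt η * r z.1) (fun j => ρ j)
  have hsη : 0 < Real.sqrt η := Real.sqrt_pos.2 hη
  have h1 : ∀ i, IsOpen (KK i) := by
    rintro (z | j)
    · exact low_TCo_open _ _ _ _
    · exact isOpen_ball
  have h2 : ∀ i, Bornology.IsBounded (KK i) := by
    rintro (z | j)
    · exact low_TCo_bdd _ _ _ _ (hw _)
    · exact isBounded_ball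
  have h3 : meet (d + m + 1) A (d + 1) ⊆ ⋃ i, KK i := by
    intro x hx
    by_cases hxO : x ∈ O
    · obtain ⟨i, hi⟩ := mem_iUnion.1 hxO
      obtain ⟨p, hp⟩ := mem_iUnion.1 hi
      obtain ⟨hp1, hp2⟩ := mem_iUnion.1 hp
      exact mem_iUnion.2 ⟨Sum.inl ⟨i, ⟨p, hp1⟩⟩, hp2⟩
    · have := hF ⟨hx, hxO⟩
      obtain ⟨j, hj⟩ := mem_iUnion.1 this
      obtain ⟨hj1, hj2⟩ := mem_iUnion.1 hj
      exact mem_iUnion.2 ⟨Sum.inr ⟨j, hj1⟩, hj2⟩
  have h4 : ∀ i, 0 < ee i := by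
    rintro (z | j)
    · exact mul_pos hsη (hr _)
    · exact hρ _
  have hmain := cov hd hA KK h1 h2 h3 ee h4
  refine hmain.trans ?_
  rw [Fintype.sum_sum_type]
  refine add_le_add ?_ ?_
  · set c : ℝ := (d ! : ℝ) * v * (1 + 2 * Real.sqrt η) ^ m *
      (1 + 4 * m * ((d : ℝ) + m + 1) * Real.sqrt η) ^ d with hc
    have hc0 : 0 ≤ c := by positivity
    calc ∑ z : (Σ i : Fin n, T i), (d ! : ℝ) * (μHE[d + m] (closure (KK (Sum.inl z) ∩
          Hp (d + m + 1)) + ee (Sum.inl z) • D0 (d + m + 1))).toReal / ee (Sum.inl z) ^ d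
        ≤ ∑ z : (Σ i : Fin n, T i), c * r z.1 ^ m :=
          Finset.sum_le_sum fun z _ => low_cube hd hv0 hv (w z.1) (hw _) z.2.1 (hTH _ _ z.2.2)
            (hr _) hη
      _ = ∑ i : Fin n, c * ((T i).card * r i ^ m) := by
          rw [Fintype.sum_sigma]
          refine Finset.sum_congr rfl fun i _ => ?_
          simp only [Finset.sum_const, Finset.card_univ, Fintype.card_coe, nsmul_eq_mul]
          ring
      _ ≤ ∑ i : Fin n, c * ((volume (cw (w i) '' K i)).toReal + η / (n + 1)) :=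
          Finset.sum_le_sum fun i _ => mul_le_mul_of_nonneg_left (hTc i) hc0
      _ = c * (∑ i : Fin n, (volume (cw (w i) '' K i)).toReal + n * (η / (n + 1))) := by
          rw [← Finset.mul_sum, Finset.sum_add_distrib]
          simp
      _ ≤ c * (L + η) := by
          refine mul_le_mul_of_nonneg_left (add_le_add hcp ?_) hc0
          rw [mul_div_assoc', div_le_iff₀ (by positivity)]
          nlinarith
  · calc ∑ j : F, (d ! : ℝ) * (μHE[d + m] (closure (KK (Sum.inr j) ∩ Hp (d + m + 1)) +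
          ee (Sum.inr j) • D0 (d + m + 1))).toReal / ee (Sum.inr j) ^ d
        ≤ ∑ j : F, (d ! : ℝ) * C2 * ρ j ^ m := by
          refine Finset.sum_le_sum fun j _ => ?_
          have hj := hρ j
          have h5 := ENNReal.toReal_le_of_le_ofReal (by positivity) (hball (q j) (hqH j) (ρ j) hj)
          change (d ! : ℝ) * (μHE[d + m] (closure (ball (q j) (ρ j) ∩ Hp (d + m + 1)) +
            ρ j • D0 (d + m + 1))).toReal / ρ j ^ d ≤ _
          rw [div_le_iff₀ (by positivity)]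
          calc (d ! : ℝ) * (μHE[d + m] (closure (ball (q j) (ρ j) ∩ Hp (d + m + 1)) +
            ρ j • D0 (d + m + 1))).toReal ≤ (d ! : ℝ) * (C2 * ρ j ^ (d + m)) := by gcongr
            _ = _ := by rw [pow_add]; ring
      _ = (d ! : ℝ) * C2 * ∑ j ∈ F, ρ j ^ m := by
          rw [← Finset.mul_sum, Finset.sum_coe_sort F (fun j => ρ j ^ m)]
      _ ≤ (d ! : ℝ) * C2 * (C1 * η) := by
          refine mul_le_mul_of_nonneg_left ?_ (by positivity)
          exact (hsum.sum_le_tsum F fun j _ => by have := hρ j; positivity).trans hts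
      _ = (d ! : ℝ) * C2 * C1 * η := by ring

/-- the lower bound, with a bound for the projections of the simplex -/
theorem lower_V {m d : ℕ} (hm : 1 ≤ m) (hd : 1 ≤ d) {v : ℝ} (hv0 : 0 < v)
    (hv : ∀ w : Fin d → V (d + m + 1), Fr w → volume (cw w '' D0 (d + m + 1)) ≤ ENNReal.ofReal v)
    {A : Fin (d + m + 1) → Set (V (d + m + 1))} (hA : Adm0 (d + m + 1) A)
    (hR : Rect (d + m + 1) m (meet (d + m + 1) A (d + 1))) {L : ℝ}
    (hL : HasContent (d + m + 1) m (meet (d + m + 1) A (d + 1)) L) :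
    Real.sqrt ((d : ℝ) + m + 1) / ((m ! : ℝ) * ((d ! : ℝ) * v)) ≤ L := by
  obtain ⟨C, hC⟩ := low_eta hm hd hv0 hv
  have h1 := hC A hA hR L hL
  have h2 : Tendsto (fun η : ℝ => (d ! : ℝ) * v * (1 + 2 * Real.sqrt η) ^ m *
      (1 + 4 * m * ((d : ℝ) + m + 1) * Real.sqrt η) ^ d * (L + η) + C * η) (𝓝[>] 0)
      (𝓝 ((d ! : ℝ) * v * (1 + 2 * Real.sqrt 0) ^ m *
      (1 + 4 * m * ((d : ℝ) + m + 1) * Real.sqrt 0) ^ d * (L + 0) + C * 0)) := by
    refine (Continuous.tendsto ?_ _).mono_left nhdsWithin_le_nhds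
    fun_prop
  simp only [Real.sqrt_zero, mul_zero, add_zero, one_pow, mul_one] at h2
  have h3 : Real.sqrt ((d : ℝ) + m + 1) / (m ! : ℝ) ≤ (d ! : ℝ) * v * L := by
    refine ge_of_tendsto h2 ?_
    have h4 : ∀ᶠ η : ℝ in 𝓝[>] 0, 0 < η ∧ η ≤ 1 / 2 := by
      filter_upwards [self_mem_nhdsWithin,
        mem_nhdsWithin_of_mem_nhds (Iic_mem_nhds (show (0 : ℝ) < 1 / 2 by norm_num))] with δ h h'
      exact ⟨h, h'⟩
    filter_upwards [h4] with η hη
    exact h1 η hη.1 hη.2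
  have h5 : (0 : ℝ) < (m ! : ℝ) := by exact_mod_cast Nat.factorial_pos m
  have h6 : (0 : ℝ) < (d ! : ℝ) := by exact_mod_cast Nat.factorial_pos d
  rw [div_le_iff₀ h5] at h3
  rw [div_le_iff₀ (by positivity)]
  linarith

/-- the lower bound for rectifiable sets -/
theorem lower {m d : ℕ} (hm : 1 ≤ m) (hd : 1 ≤ d)
    {A : Fin (d + m + 1) → Set (V (d + m + 1))} (hA : Adm0 (d + m + 1) A)
    (hR : Rect (d + m + 1) m (meet (d + m + 1) A (d + 1))) {L : ℝ}
    (hL : HasContent (d + m + 1) m (meet (d + m + 1) A (d + 1)) L) :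
    Real.sqrt ((d : ℝ) + m + 1) / ((m ! : ℝ) * Real.sqrt (2 ^ d)) ≤ L := by
  have h := lower_V (v := Real.sqrt (2 ^ d) / (d ! : ℝ)) hm hd (by positivity)
    (fun w hw => proj_vol (by omega) hd w hw) hA hR hL
  have h1 : (d ! : ℝ) * (Real.sqrt (2 ^ d) / (d ! : ℝ)) = Real.sqrt (2 ^ d) := by
    field_simp
  rwa [h1] at h

end SY
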