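import Pool.Agent.H27.SY.Defs
import Pool.Agent.H27.SX.Plan

/-!
# SY-20: the content of compact subsets of finitely many planes
-/

set_option autoImplicit false

open MeasureTheory Metric Set Filter Module
open scoped Topology MeasureTheory RealInnerProductSpace Nat Pointwise

namespace SY

open SP SP.Mea SX

/-- the linear isometry onto a subspace of dimension `m` containing given vectors -/
theorem plan_param' {m d : ℕ} (v : Fin m → V (d + m + 1)) (hv : ∀ a, v a ∈ E0 (d + m + 1)) :
    ∃ L : EuclideanSpace ℝ (Fin m) →ₗᵢ[ℝ] V (d + m + 1), (∀ x, L x ∈ E0 (d + m + 1)) ∧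
      ∀ t : Fin m → ℝ, ∃ x, L x = ∑ a, t a • v a := by
  rcases Nat.eq_zero_or_pos m with h0 | h0
  · subst h0
    refine ⟨⟨0, fun x => ?_⟩, fun x => ?_, fun t => ⟨0, ?_⟩⟩
    · have : x = 0 := Subsingleton.elim _ _
      rw [this]; simp
    · exact Submodule.zero_mem _
    · simp
  · exact plan_param (by omega) (by omega) v hv

theorem planar_rect {m d : ℕ} {S : Set (V (d + m + 1))} (hP : Planar (d + m + 1) m S) :
    Rect (d + m + 1) m S := by
  obtain ⟨n, p, v, hp, hv, hS⟩ := hP
  have hp0 : (EuclideanSpace.single ⟨0, by omega⟩ (1 : ℝ) : V (d + m + 1)) ∈ Hp (d + m + 1) := by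
    simp [Hp]
  let P : ℕ → V (d + m + 1) := fun i => if h : i < n then p ⟨i, h⟩ else
    EuclideanSpace.single ⟨0, by omega⟩ (1 : ℝ)
  let Q : ℕ → Fin m → V (d + m + 1) := fun i => if h : i < n then v ⟨i, h⟩ else fun _ => 0
  have hP : ∀ i, P i ∈ Hp (d + m + 1) := by
    intro i
    by_cases h : i < n
    · simp only [P, h, dif_pos]; exact hp _
    · simp only [P, h, dif_neg, not_false_iff]; exact hp0
  have hQ : ∀ i a, Q i a ∈ E0 (d + m + 1) := by
    intro i a
    by_cases h : i < n
    · simp only [Q, h, dif_pos]; exact hv _ _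
    · simp only [Q, h, dif_neg, not_false_iff]; exact Submodule.zero_mem _
  have hL := fun i => plan_param' (m := m) (d := d) (Q i) (hQ i)
  choose L hL1 hL2 using hL
  have hder : ∀ i x, HasFDerivAt (fun x => P i + L i x) (L i).toContinuousLinearMap x := by
    intro i x
    exact ((L i).toContinuousLinearMap.hasFDerivAt).const_add _
  refine ⟨fun i x => P i + L i x, fun i => ?_, fun i x => ?_, fun i x => ?_, ?_⟩
  · exact contDiff_const.add (L i).toContinuousLinearMap.contDiff
  · rw [(hder i x).fderiv]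
    exact (L i).injective
  · have h1 := hP i
    have h2 := mem_E0.1 (hL1 i x)
    simp only [Hp, mem_ofPred_eq] at h1 ⊢
    simp only [PiLp.add_apply, Finset.sum_add_distrib, h1, h2, add_zero]
  · have : S \ ⋃ i, range (fun x => P i + L i x) = ∅ := by
      rw [sdiff_eq_empty]
      intro x hx
      obtain ⟨i, hi⟩ := mem_iUnion.1 (hS hx)
      obtain ⟨t, rfl⟩ := hi
      obtain ⟨y, hy⟩ := hL2 i.val t
      refine mem_iUnion.2 ⟨i.val, y, ?_⟩
      simp only [hy, P, Q, i.2, dif_pos]
    rw [this, measure_empty]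

theorem planar_content {m d : ℕ} (hm : 1 ≤ m) (hd : 1 ≤ d) {S : Set (V (d + m + 1))}
    (hS : IsCompact S) (hH : S ⊆ Hp (d + m + 1)) (hP : Planar (d + m + 1) m S) :
    HasContent (d + m + 1) m S (μHE[m] S).toReal := by
  classical
  obtain ⟨n, p, v, hp, hv, hSp⟩ := hP
  have hp0 : (EuclideanSpace.single ⟨0, by omega⟩ (1 : ℝ) : V (d + m + 1)) ∈ Hp (d + m + 1) := by
    simp [Hp]
  set p0 : V (d + m + 1) := EuclideanSpace.single ⟨0, by omega⟩ (1 : ℝ) with hp0def
  have hdd : finrank ℝ (E0 (d + m + 1)) = m + d := by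
    rw [finrank_E0 (by omega)]; omega
  have hq : ∀ i, p i - p0 ∈ E0 (d + m + 1) := by
    intro i
    rw [mem_E0]
    have h1 := hp i
    simp only [Hp, mem_ofPred_eq] at h1 hp0
    simp [h1, hp0]
  have hW : ∀ i, ∃ W : Submodule ℝ (E0 (d + m + 1)),
      Submodule.span ℝ (range fun a => (⟨v i a, hv i a⟩ : E0 (d + m + 1))) ≤ W ∧
        finrank ℝ W = m := by
    intro i
    refine plan_exists_sub (by omega) _ ?_
    have := finrank_range_le_card (R := ℝ) (b := fun a => (⟨v i a, hv i a⟩ : E0 (d + m + 1)))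
    rw [Fintype.card_fin] at this
    exact this
  choose W hW1 hW2 using hW
  let A : Fin n → AffineSubspace ℝ (E0 (d + m + 1)) :=
    fun i => AffineSubspace.mk' ⟨_, hq i⟩ (W i)
  have hT : ∀ B ∈ Finset.univ.image A, (B : Set (E0 (d + m + 1))).Nonempty ∧
      finrank ℝ B.direction = m := by
    intro B hB
    obtain ⟨i, -, rfl⟩ := Finset.mem_image.1 hB
    refine ⟨⟨_, AffineSubspace.self_mem_mk' _ _⟩, ?_⟩
    rw [AffineSubspace.direction_mk', hW2]
  have hio := io_isometry p0
  have hSc : IsCompact (io p0 ⁻¹' S) := hio.isClosedEmbedding.isCompact_preimage hS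
  have hST : io p0 ⁻¹' S ⊆ ⋃ B ∈ Finset.univ.image A, (B : Set (E0 (d + m + 1))) := by
    intro x hx
    obtain ⟨i, hi⟩ := mem_iUnion.1 (hSp hx)
    obtain ⟨t, ht⟩ := hi
    simp only [mem_iUnion, exists_prop]
    refine ⟨A i, Finset.mem_image_of_mem _ (Finset.mem_univ _), ?_⟩
    rw [SetLike.mem_coe, AffineSubspace.mem_mk', vsub_eq_sub]
    have h1 : x - ⟨_, hq i⟩ = ∑ a, t a • (⟨v i a, hv i a⟩ : E0 (d + m + 1)) := by
      apply Subtype.ext
      simp only [io] at ht
      simp only [Submodule.coe_sub, Submodule.coe_sum, Submodule.coe_smul]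
      have : (x : V (d + m + 1)) = p i + ∑ a, t a • v i a - p0 := by
        rw [ht]; abel
      rw [this]
      abel
    rw [h1]
    refine Submodule.sum_mem _ fun a _ => (W i).smul_mem _ (hW1 i ?_)
    exact Submodule.subset_span (mem_range_self a)
  obtain ⟨-, h⟩ := plan_content hdd (Finset.univ.image A) hT hSc hST
  have h2 : μHE[m] (io p0 ⁻¹' S) = μHE[m] S := by
    rw [hio.euclideanHausdorffMeasure_preimage, range_io hp0, inter_eq_left.2 hH]
  rw [h2] at h
  unfold HasContent
  have h3 : d + m + 1 - 1 - m = d := by omega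
  rw [h3]
  refine h.congr fun ε => ?_
  rw [mu_eq (by omega) hp0, pre_cthick hp0 hH]

end SY
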