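import Pool.Agent.H27.SY.Defs
import Pool.Agent.H27.SY.Cone
import Pool.Agent.H27.SX.Plan
import Pool.Agent.H27.SX.ConeAdm
import Pool.Agent.H27.SX.ConeMeas

/-!
# The induction step for good partitions (project SY, row SY-27)
-/

set_option autoImplicit false
set_option linter.all false

open MeasureTheory Metric Set Filter Module
open scoped Topology MeasureTheory RealInnerProductSpace Nat Pointwise

namespace SY

open SP SP.Mea SX

/-- small factors -/
theorem step_small {C : ENNReal} (hC : C ≠ ⊤) {η : ℝ} (hη : 0 < η) :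
    ∃ s : ℝ, 0 < s ∧ s < 1 ∧ C * ENNReal.ofReal s ≤ ENNReal.ofReal η := by
  have hc : (0 : ℝ) ≤ C.toReal := ENNReal.toReal_nonneg
  refine ⟨η / (C.toReal * 1 + η + 1), by positivity, ?_, ?_⟩
  · rw [div_lt_one (by positivity)]
    linarith
  · rw [← ENNReal.ofReal_toReal hC, ← ENNReal.ofReal_mul hc]
    refine ENNReal.ofReal_le_ofReal ?_
    rw [ENNReal.toReal_ofReal hc, mul_div_assoc', div_le_iff₀ (by positivity)]
    nlinarith

/-- the cone over a point of `DK m d` lies in `DK (m + 1) d` -/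
theorem step_DK {m d : ℕ} (hmd : d ≤ m + 1) {t : ℝ} (h0 : 0 ≤ t) (h1 : t ≤ 1)
    {y : V (d + m + 1)} (hy : y ∈ DK m d) :
    (cn t y : V (d + (m + 1) + 1)) ∈ DK (m + 1) d := by
  obtain ⟨⟨hpos, hsum⟩, h01⟩ := hy
  have hval : ∀ i : Fin (d + m + 1), (cn t y : V (d + m + 1 + 1)) i.castSucc = (1 - t) * y i := by
    intro i
    simp [cn]
  have hlast : (cn t y : V (d + m + 1 + 1)) (Fin.last (d + m + 1)) = t := by
    simp [cn]
  refine ⟨⟨?_, ?_⟩, ?_⟩
  · intro i
    refine Fin.lastCases (n := d + m + 1) ?_ (fun i => ?_) i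
    · exact h0.trans_eq hlast.symm
    · exact (mul_nonneg (by linarith) (hpos i)).trans_eq (hval i).symm
  · have : ∑ i : Fin (d + m + 1 + 1), (cn t y : V (d + m + 1 + 1)) i = 1 := by
      rw [Fin.sum_univ_castSucc, hlast]
      simp only [hval]
      rw [← Finset.mul_sum, hsum]
      ring
    exact this
  · intro i j hi hj hjd
    have hj1 : j.val < d + m + 1 := by omega
    have hi1 : i.val < d + m + 1 := by omega
    have hi' : i = (⟨i.val, hi1⟩ : Fin (d + m + 1)).castSucc := Fin.ext rfl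
    have hj' : j = (⟨j.val, hj1⟩ : Fin (d + m + 1)).castSucc := Fin.ext rfl
    have h2 := h01 ⟨i.val, hi1⟩ ⟨j.val, hj1⟩ hi hj hjd
    rw [hi', hj']
    exact (hval _).trans ((congrArg (fun z => (1 - t) * z) h2).trans (hval _).symm)

theorem good_step {m d : ℕ} (hm : 1 ≤ m) (hd : 1 ≤ d) (hmd : d ≤ m + 1)
    (h : ∀ η > 0, Good m d η) : ∀ η > 0, Good (m + 1) d η := by
  intro η hη
  obtain ⟨C, hC, hcone⟩ := cone_meas (d + m + 1) m hm
  obtain ⟨η', hη', -, hCη⟩ := step_small hC (half_pos hη)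
  obtain ⟨A, hA, h3, h4⟩ := h η' hη'
  have hfin : μHE[m + 1] (meet (d + m + 1) A d) < ⊤ :=
    planar_fin ((meet_compact hA.toAdm0 d hd).1.isBounded)
      (h3 d (m + 1) hd (by omega) (by omega))
  obtain ⟨δ, hδ0, hδ1, hδ⟩ := step_small hfin.ne (half_pos hη)
  have hadm : Adm (d + m + 1 + 1) (coneA δ A) := cone_adm (by omega) hA hδ0 hδ1
  have h5 : meet (d + m + 1 + 1) (coneA δ A) (d + 1) \ DK (m + 1) d ⊆
      {x | ∃ t ∈ Icc (0 : ℝ) 1, ∃ y ∈ meet (d + m + 1) A (d + 1) \ DK m d, x = cn t y} ∪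
      {x | ∃ y ∈ meet (d + m + 1) A d, x = cn (1 - δ) y} := by
    rintro x ⟨hx, hxD⟩
    rcases cone_meet hd hδ0 hδ1 hx with ⟨t, ht, y, hy, rfl⟩ | hx
    · left
      refine ⟨t, ⟨ht.1, by linarith [ht.2]⟩, y, ⟨hy, fun hyD => hxD ?_⟩, rfl⟩
      exact step_DK hmd ht.1 (by linarith [ht.2]) hyD
    · exact Or.inr hx
  refine ⟨coneA δ A, hadm, ?_, ?_⟩
  · intro r q hr hrd hrq
    obtain ⟨j, rfl⟩ : ∃ j, r = j + 1 := ⟨r - 1, by omega⟩
    rcases Nat.eq_zero_or_pos j with rfl | hj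
    · obtain rfl : q = d + m + 1 := by omega
      exact simplex_planar (k := d + m + 1) (by omega) (coneA δ A) hadm.toAdm0
    · obtain ⟨q', rfl⟩ : ∃ q', q = q' + 1 := ⟨q - 1, by omega⟩
      exact cone_planar hj hδ0 hδ1 (h3 (j + 1) q' (by omega) hrd (by omega))
        (h3 j (q' + 1) hj (by omega) (by omega))
  calc μHE[m + 1] (meet (d + m + 1 + 1) (coneA δ A) (d + 1) \ DK (m + 1) d)
      ≤ _ := measure_mono h5
    _ ≤ _ := measure_union_le _ _
    _ ≤ ENNReal.ofReal (η / 2) + ENNReal.ofReal (η / 2) := by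
        refine add_le_add ?_ ?_
        · refine (hcone _ fun y hy => (meet_compact hA.toAdm0 (d + 1) (by omega)).2 hy.1).trans ?_
          exact (mul_le_mul_right h4 C).trans hCη
        · rw [copy_meas (d + m + 1) (m + 1) _ hδ0, mul_comm]
          refine le_trans ?_ hδ
          refine mul_le_mul_right (ENNReal.ofReal_le_ofReal ?_) _
          exact pow_le_of_le_one hδ0.le hδ1.le (by omega)
    _ = ENNReal.ofReal η := by
        rw [← ENNReal.ofReal_add (by positivity) (by positivity), add_halves]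

end SY
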