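import Pool.Agent.H27.SY.Defs
import Pool.Agent.H27.SX.Vol

/-!
# SY-28: the volume of the simplex `DK m d` (helper82 for helper27)
-/

set_option autoImplicit false

open MeasureTheory Metric Set Filter Module
open scoped Topology MeasureTheory RealInnerProductSpace Nat Pointwise

namespace SY

open SP SP.Mea SX

/-- the weighted corner simplex -/
theorem vol_wcorner {n : ℕ} (w : Fin n → ℝ) (hw : ∀ i, 0 < w i) :
    volume {z : Fin n → ℝ | (∀ i, 0 ≤ z i) ∧ ∑ i, w i * z i ≤ 1} =
      ENNReal.ofReal (1 / ((∏ i, w i) * (n ! : ℝ))) := by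
  have hprod : 0 < ∏ i, w i := Finset.prod_pos fun i _ => hw i
  have hdet : (Matrix.diagonal w).det = ∏ i, w i := Matrix.det_diagonal
  have h1 := Real.smul_map_diagonal_volume_pi (D := w) (by rw [hdet]; exact hprod.ne')
  have h2 := vol_corner n 1 zero_le_one
  have hm : MeasurableSet {z : Fin n → ℝ | (∀ i, 0 ≤ z i) ∧ ∑ i, z i ≤ 1} := by
    have a1 : IsClosed {z : Fin n → ℝ | ∀ i, 0 ≤ z i} := by
      have : {z : Fin n → ℝ | ∀ i, 0 ≤ z i} = ⋂ i, {z | 0 ≤ z i} := by
        ext p; simp
      rw [this]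
      exact isClosed_iInter fun i => isClosed_le continuous_const (by fun_prop)
    have a2 : IsClosed {z : Fin n → ℝ | ∑ i, z i ≤ 1} :=
      isClosed_le (by fun_prop) continuous_const
    exact (a1.inter a2).measurableSet
  rw [← h1, hdet, Measure.smul_apply, Measure.map_apply (by fun_prop) hm] at h2
  have h3 : (Matrix.toLin' (Matrix.diagonal w)) ⁻¹'
      {z : Fin n → ℝ | (∀ i, 0 ≤ z i) ∧ ∑ i, z i ≤ 1} =
      {z : Fin n → ℝ | (∀ i, 0 ≤ z i) ∧ ∑ i, w i * z i ≤ 1} := by
    ext z
    simp only [mem_preimage, mem_ofPred_eq, Matrix.toLin'_apply, Matrix.mulVec_diagonal]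
    constructor
    · rintro ⟨b1, b2⟩
      exact ⟨fun i => nonneg_of_mul_nonneg_right (b1 i) (hw i), b2⟩
    · rintro ⟨b1, b2⟩
      exact ⟨fun i => mul_nonneg (hw i).le (b1 i), b2⟩
  rw [h3, abs_of_pos hprod] at h2
  simp only [one_pow, smul_eq_mul] at h2
  have h4 : ENNReal.ofReal (∏ i, w i)⁻¹ * (ENNReal.ofReal (∏ i, w i) *
      volume {z : Fin n → ℝ | (∀ i, 0 ≤ z i) ∧ ∑ i, w i * z i ≤ 1}) =
      ENNReal.ofReal (∏ i, w i)⁻¹ * ENNReal.ofReal (1 / (n ! : ℝ)) := by rw [h2]
  rw [← mul_assoc, ← ENNReal.ofReal_mul (by positivity), ← ENNReal.ofReal_mul (by positivity),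
    inv_mul_cancel₀ hprod.ne', ENNReal.ofReal_one, one_mul] at h4
  rw [h4]
  congr 1
  field_simp

/-- the weights -/
noncomputable def vw (d : ℕ) (j : ℕ) : ℝ := if j < d then Real.sqrt 2 else 1

theorem vw_pos (d j : ℕ) : 0 < vw d j := by
  unfold vw
  split_ifs
  · positivity
  · exact one_pos

/-- extension by zero -/
noncomputable def vext {n : ℕ} (y : V n) (j : ℕ) : ℝ := if h : j < n then y ⟨j, h⟩ else 0

theorem vext_fin {n : ℕ} (y : V n) (i : Fin n) : vext y i.val = y i := by
  unfold vext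
  rw [dif_pos i.2]

theorem vol_pairs (g : ℕ → ℝ) (d : ℕ) :
    ∑ i ∈ Finset.range (2 * d), g (i / 2) = ∑ j ∈ Finset.range d, 2 * g j := by
  induction d with
  | zero => simp
  | succ d ih =>
    rw [show 2 * (d + 1) = 2 * d + 1 + 1 by ring, Finset.sum_range_succ, Finset.sum_range_succ, ih,
      Finset.sum_range_succ, show 2 * d / 2 = d by omega, show (2 * d + 1) / 2 = d by omega]
    ring

theorem vol_sum {m d : ℕ} (hmd : d ≤ m + 1) (g f : ℕ → ℝ) :
    ∑ i ∈ Finset.range (d + m + 1), (if i < 2 * d then g (i / 2) else f (i - d)) =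
      ∑ j ∈ Finset.range (m + 1), if j < d then 2 * g j else f j := by
  obtain ⟨r, hr⟩ : ∃ r, m + 1 = d + r := ⟨m + 1 - d, by omega⟩
  rw [show d + m + 1 = 2 * d + r by omega, hr, Finset.sum_range_add, Finset.sum_range_add]
  congr 1
  · calc ∑ i ∈ Finset.range (2 * d), (if i < 2 * d then g (i / 2) else f (i - d)) =
          ∑ i ∈ Finset.range (2 * d), g (i / 2) :=
        Finset.sum_congr rfl fun i hi => if_pos (Finset.mem_range.1 hi)
      _ = ∑ j ∈ Finset.range d, 2 * g j := vol_pairs g d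
      _ = _ := Finset.sum_congr rfl fun j hj => (if_pos (Finset.mem_range.1 hj)).symm
  · refine Finset.sum_congr rfl fun i _ => ?_
    rw [if_neg (by omega), if_neg (by omega)]
    congr 1
    omega

/-- the isometric parametrisation -/
noncomputable def vJ (m d : ℕ) (y : V (m + 1)) : V (d + m + 1) :=
  WithLp.toLp 2 fun i => if i.val < 2 * d then vext y (i.val / 2) / Real.sqrt 2
    else vext y (i.val - d)

theorem vJ_isometry {m d : ℕ} (hmd : d ≤ m + 1) : Isometry (vJ m d) := by
  refine Isometry.of_dist_eq fun y z => ?_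
  rw [EuclideanSpace.dist_eq, EuclideanSpace.dist_eq]
  congr 1
  have h2 : Real.sqrt 2 ^ 2 = 2 := Real.sq_sqrt (by norm_num)
  have h3 : ∀ a b : ℝ, (a / Real.sqrt 2 - b / Real.sqrt 2) ^ 2 = (a - b) ^ 2 / 2 := by
    intro a b
    rw [← sub_div, div_pow, h2]
  have e1 : ∀ i : Fin (d + m + 1), dist (vJ m d y i) (vJ m d z i) ^ 2 =
      (fun i : ℕ => if i < 2 * d then (vext y (i / 2) - vext z (i / 2)) ^ 2 / 2
        else (vext y (i - d) - vext z (i - d)) ^ 2) i.val := by
    intro i
    rw [Real.dist_eq, sq_abs]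
    simp only [vJ]
    split_ifs
    · exact h3 _ _
    · rfl
  have e2 : ∀ j : Fin (m + 1), dist (y j) (z j) ^ 2 =
      (fun j : ℕ => (vext y j - vext z j) ^ 2) j.val := by
    intro j
    rw [Real.dist_eq, sq_abs]
    simp only [vext_fin]
  rw [Finset.sum_congr rfl fun i _ => e1 i, Finset.sum_congr rfl fun j _ => e2 j,
    Fin.sum_univ_eq_sum_range (fun i : ℕ => if i < 2 * d then
      (vext y (i / 2) - vext z (i / 2)) ^ 2 / 2 else (vext y (i - d) - vext z (i - d)) ^ 2),
    Fin.sum_univ_eq_sum_range (fun j : ℕ => (vext y j - vext z j) ^ 2),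
    vol_sum hmd (fun j => (vext y j - vext z j) ^ 2 / 2) (fun j => (vext y j - vext z j) ^ 2)]
  refine Finset.sum_congr rfl fun j _ => ?_
  split_ifs
  · ring
  · rfl

theorem vol_DK {m d : ℕ} (hm : 1 ≤ m) (hmd : d ≤ m + 1) :
    μHE[m] (DK m d) ≤ ENNReal.ofReal (Real.sqrt ((d : ℝ) + m + 1) /
      ((m ! : ℝ) * Real.sqrt (2 ^ d))) := by
  have hs2 : Real.sqrt 2 * Real.sqrt 2 = 2 := Real.mul_self_sqrt (by norm_num)
  have hs0 : 0 < Real.sqrt 2 := by positivity
  set w : Fin (m + 1) → ℝ := fun j => vw d j.val with hw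
  have hwpos : ∀ j, 0 < w j := fun j => vw_pos d j.val
  obtain ⟨r, hr⟩ : ∃ r, m + 1 = d + r := ⟨m + 1 - d, by omega⟩
  -- the product and the sum of the squares of the weights
  have hprod : ∏ j, w j = Real.sqrt (2 ^ d) := by
    rw [hw, Fin.prod_univ_eq_prod_range (fun j => vw d j), hr, Finset.prod_range_add]
    have a1 : ∏ x ∈ Finset.range d, vw d x = Real.sqrt 2 ^ d := by
      rw [Finset.prod_congr rfl fun j hj => show vw d j = Real.sqrt 2 from
        if_pos (Finset.mem_range.1 hj), Finset.prod_const, Finset.card_range]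
    have a2 : ∏ x ∈ Finset.range r, vw d (d + x) = 1 :=
      Finset.prod_eq_one fun x _ => if_neg (by omega)
    rw [a1, a2, mul_one]
    apply (pow_left_inj₀ (by positivity) (by positivity) (n := 2) (by norm_num)).mp
    rw [Real.sq_sqrt (by positivity), ← pow_mul, mul_comm d 2, pow_mul, Real.sq_sqrt (by norm_num)]
  have hsq : ∑ j, w j ^ 2 = (d : ℝ) + m + 1 := by
    rw [hw, Fin.sum_univ_eq_sum_range (fun j => vw d j ^ 2), hr, Finset.sum_range_add]
    have a1 : ∑ x ∈ Finset.range d, vw d x ^ 2 = 2 * d := by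
      rw [Finset.sum_congr rfl fun j hj => show vw d j ^ 2 = 2 by
        rw [vw, if_pos (Finset.mem_range.1 hj), Real.sq_sqrt (by norm_num)], Finset.sum_const,
        Finset.card_range, nsmul_eq_mul]
      ring
    have a2 : ∑ x ∈ Finset.range r, vw d (d + x) ^ 2 = r := by
      rw [Finset.sum_congr rfl fun j _ => show vw d (d + j) ^ 2 = 1 by
        rw [vw, if_neg (by omega), one_pow], Finset.sum_const, Finset.card_range, nsmul_eq_mul,
        mul_one]
    rw [a1, a2]
    have h' : (m : ℝ) + 1 = d + r := by exact_mod_cast hr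
    linarith
  set ν : V (m + 1) := WithLp.toLp 2 w with hν
  have hν2 : ‖ν‖ ^ 2 = (d : ℝ) + m + 1 := by
    rw [EuclideanSpace.norm_sq_eq, ← hsq]
    simp [hν]
  have hνn : ‖ν‖ = Real.sqrt ((d : ℝ) + m + 1) := by
    rw [← hν2, Real.sqrt_sq (norm_nonneg _)]
  have hν0 : ν ≠ 0 := by
    intro h
    rw [h, norm_zero] at hν2
    have h1 : (0 : ℝ) ≤ m := Nat.cast_nonneg m
    have h2 : (0 : ℝ) ≤ d := Nat.cast_nonneg d
    nlinarith
  have hin : ∀ y : V (m + 1), ⟪ν, y⟫ = ∑ i, w i * y i := by
    intro y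
    rw [PiLp.inner_apply]
    refine Finset.sum_congr rfl fun i _ => ?_
    simp [hν, mul_comm]
  set G : Set (V (m + 1)) := {y | (∀ i, 0 ≤ y i) ∧ ∑ i, w i * y i ≤ 1} with hG
  have hGm : MeasurableSet G := by
    have a1 : IsClosed {z : V (m + 1) | ∀ i, 0 ≤ z i} := by
      have : {z : V (m + 1) | ∀ i, 0 ≤ z i} = ⋂ i, {z | 0 ≤ z i} := by
        ext p; simp
      rw [this]
      exact isClosed_iInter fun i => isClosed_le continuous_const (by fun_prop)
    have a2 : IsClosed {z : V (m + 1) | ∑ i, w i * z i ≤ 1} :=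
      isClosed_le (by fun_prop) continuous_const
    exact (a1.inter a2).measurableSet
  have hGv : volume G = ENNReal.ofReal (1 / (Real.sqrt (2 ^ d) * ((m + 1)! : ℝ))) := by
    rw [← hprod, ← vol_wcorner w hwpos]
    have hmp := EuclideanSpace.volume_preserving_symm_measurableEquiv_toLp (Fin (m + 1))
    rw [← hmp.measure_preimage_equiv]
    rfl
  set D : Set (V (m + 1)) := {y | (∀ i, 0 ≤ y i) ∧ ∑ i, w i * y i = 1} with hD
  have hkey := cone_slice (m := m) (by simp) ν hν0 (D := D) hGm
    (fun y hy => by rw [hin]; exact hy.2)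
    (fun x hx hx1 y hy => by
      refine ⟨fun i => mul_nonneg hx.le (hy.1 i), ?_⟩
      have : ∑ i, w i * (x • y) i = x * ∑ i, w i * y i := by
        rw [Finset.mul_sum]
        refine Finset.sum_congr rfl fun i _ => ?_
        simp only [PiLp.smul_apply, smul_eq_mul]
        ring
      rw [this, hy.2, mul_one]
      exact hx1)
  have hDK : μHE[m] (DK m d) ≤ μHE[m] D := by
    have h1 := (vJ_isometry hmd).euclideanHausdorffMeasure_image (d := m) D
    rw [← h1]
    apply measure_mono
    rintro x ⟨⟨hx1, hx2⟩, hx3⟩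
    set y : V (m + 1) := WithLp.toLp 2 fun j => if j.val < d then Real.sqrt 2 * vext x (2 * j.val)
      else vext x (j.val + d) with hy
    have hvx : ∀ j, 0 ≤ vext x j := by
      intro j
      unfold vext
      split_ifs
      · exact hx1 _
      · exact le_rfl
    have hvy : ∀ j, j < m + 1 → vext y j = if j < d then Real.sqrt 2 * vext x (2 * j)
        else vext x (j + d) := by
      intro j hj
      rw [show vext y j = y ⟨j, hj⟩ from dif_pos hj]
    -- pairs of equal coordinates
    have hpair : ∀ i, i < 2 * d → vext x (2 * (i / 2)) = vext x i := by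
      intro i hi
      rcases Nat.even_or_odd' i with ⟨c, rfl | rfl⟩
      · rw [show 2 * (2 * c / 2) = 2 * c by omega]
      · rw [show 2 * ((2 * c + 1) / 2) = 2 * c by omega]
        have h6 : 2 * c + 1 < d + m + 1 := by omega
        have h7 : 2 * c < d + m + 1 := by omega
        have h8 := hx3 ⟨2 * c, h7⟩ ⟨2 * c + 1, h6⟩ (by simp) rfl hi
        unfold vext
        rw [dif_pos h7, dif_pos h6, h8]
    refine ⟨y, ⟨?_, ?_⟩, ?_⟩
    · intro j
      rw [← vext_fin y j, hvy _ j.2]
      split_ifs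
      · exact mul_nonneg hs0.le (hvx _)
      · exact hvx _
    · have e1 : ∑ j, w j * y j = ∑ j ∈ Finset.range (m + 1),
          if j < d then 2 * vext x (2 * j) else vext x (j + d) := by
        rw [← Fin.sum_univ_eq_sum_range (fun j => if j < d then 2 * vext x (2 * j)
          else vext x (j + d))]
        refine Finset.sum_congr rfl fun j _ => ?_
        rw [← vext_fin y j, hvy _ j.2]
        simp only [hw, vw]
        split_ifs
        · rw [← mul_assoc, hs2]
        · rw [one_mul]
      rw [e1, ← vol_sum hmd (fun j => vext x (2 * j)) (fun j => vext x (j + d)), ← hx2]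
      rw [Finset.sum_congr rfl fun i hi => show (if i < 2 * d then vext x (2 * (i / 2))
          else vext x (i - d + d)) = vext x i by
        split_ifs with h
        · exact hpair i h
        · rw [show i - d + d = i by omega]]
      rw [← Fin.sum_univ_eq_sum_range (fun i => vext x i)]
      exact Finset.sum_congr rfl fun i _ => vext_fin x i
    · ext i
      have hi := i.2
      simp only [vJ]
      split_ifs with h
      · rw [hvy _ (by omega), if_pos (by omega), hpair _ h, vext_fin]
        field_simp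
      · rw [hvy _ (by omega), if_neg (by omega), show i.val - d + d = i.val by omega, vext_fin]
  refine hDK.trans (hkey.trans (le_of_eq ?_))
  rw [hGv, ← ENNReal.ofReal_mul (by positivity), hνn]
  congr 1
  have h3 : ((m + 1)! : ℝ) = ((m : ℝ) + 1) * (m ! : ℝ) := by
    rw [Nat.factorial_succ]; push_cast; ring
  have h4 : (m ! : ℝ) ≠ 0 := by positivity
  have h5 : (0 : ℝ) < Real.sqrt (2 ^ d) := by positivity
  rw [h3]
  field_simp

end SY
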