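import Pool.Agent.H27.SY.Lower
import Pool.Agent.H27.SY.Gen
import Pool.Agent.H27.SY.Plan
import Pool.Agent.H27.SY.Base
import Pool.Agent.H27.SY.Step
import Pool.Agent.H27.SY.Vol

/-!
# SY-29: the value of the infimum for `2 d ≤ k`
-/

set_option autoImplicit false

open MeasureTheory Metric Set Filter Module
open scoped Topology MeasureTheory RealInnerProductSpace Nat Pointwise

namespace SY

open SP SP.Mea SX

theorem good {m d : ℕ} (hm : 1 ≤ m) (hd : 2 ≤ d) (hmd : d ≤ m + 1) : ∀ η > 0, Good m d η := by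
  obtain ⟨e, rfl⟩ : ∃ e, d = e + 1 := ⟨d - 1, by omega⟩
  have h1 : e ≤ m := by omega
  induction m, h1 using Nat.le_induction with
  | base => exact fun η hη => base hm hη
  | succ n hn ih => exact good_step (by omega) (by omega) (by omega) (ih (by omega) (by omega))

theorem main {m d : ℕ} (hm : 1 ≤ m) (hd : 2 ≤ d) (hmd : d ≤ m + 1) :
    IsGLB {L : ℝ | ∃ A : Fin (d + m + 1) → Set (V (d + m + 1)), Adm (d + m + 1) A ∧
      Rect (d + m + 1) m (meet (d + m + 1) A (d + 1)) ∧
      HasContent (d + m + 1) m (meet (d + m + 1) A (d + 1)) L}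
      (Real.sqrt ((d : ℝ) + m + 1) / ((m ! : ℝ) * Real.sqrt (2 ^ d))) := by
  refine ⟨?_, ?_⟩
  · rintro L ⟨A, hA, hR, hL⟩
    exact lower hm (by omega) hA.toAdm0 hR hL
  · intro b hb
    refine le_of_forall_pos_le_add fun η hη => ?_
    obtain ⟨A, hA, h3, h4⟩ := good hm hd hmd η hη
    have h3 := h3 (d + 1) m (by omega) (by omega) (by omega)
    obtain ⟨h5, h6⟩ := meet_compact hA.toAdm0 (d + 1) (by omega)
    have h7 : meet (d + m + 1) A (d + 1) ⊆ Hp (d + m + 1) := fun x hx => (h6 hx).2
    have h8 := planar_content hm (by omega) h5 h7 h3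
    refine (hb ⟨A, hA, planar_rect h3, h8⟩).trans ?_
    have h9 : μHE[m] (meet (d + m + 1) A (d + 1)) ≤
        ENNReal.ofReal (Real.sqrt ((d : ℝ) + m + 1) / ((m ! : ℝ) * Real.sqrt (2 ^ d)) + η) := by
      rw [ENNReal.ofReal_add (by positivity) hη.le]
      calc μHE[m] (meet (d + m + 1) A (d + 1))
          ≤ μHE[m] (DK m d ∪ (meet (d + m + 1) A (d + 1) \ DK m d)) := by
            apply measure_mono
            intro x hx
            by_cases h : x ∈ DK m d
            · exact Or.inl h
            · exact Or.inr ⟨hx, h⟩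
        _ ≤ _ := measure_union_le _ _
        _ ≤ _ := add_le_add (vol_DK hm hmd) h4
    exact ENNReal.toReal_le_of_le_ofReal (by positivity) h9

end SY
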