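import Pool.Agent.H27.SY.Span

/-!
# The rank of the set of exponents is full (SY-6)
-/

set_option autoImplicit false

open MeasureTheory Metric Set Filter Module
open scoped Topology MeasureTheory RealInnerProductSpace Nat Pointwise

namespace SY

open SP SP.Mea SX

section

variable {F : Type} [Field F] {k d : ℕ}

theorem exists_nice {m : ℕ} (hk : k = d + m + 1) {ξ : Fin k → F} (hξ : Function.Injective ξ) :
    ∃ c : Fin k → Fin (m + 1) → F, Vars c ∧ Rels d ξ c := by
  classical
  set T : Finset (Fin k) := Finset.univ.filter fun s => ¬ s.val < m + 1 with hT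
  have hcard : T.card = d := by
    have h1 := Finset.card_filter_add_card_filter_not (s := (Finset.univ : Finset (Fin k)))
      (fun s => s.val < m + 1)
    have h2 : (Finset.univ.filter fun s : Fin k => s.val < m + 1).card = m + 1 := by
      have h3 : (Finset.univ.filter fun s : Fin k => s.val < m + 1) =
          (Finset.univ : Finset (Fin (m + 1))).map (Fin.castLEEmb (by omega : m + 1 ≤ k)) := by
        ext s
        simp only [Finset.mem_filter, Finset.mem_univ, true_and, Finset.mem_map,
          Fin.castLEEmb_apply]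
        constructor
        · intro h
          exact ⟨⟨s.val, h⟩, rfl⟩
        · rintro ⟨t, rfl⟩
          exact t.isLt
      rw [h3, Finset.card_map, Finset.card_univ, Fintype.card_fin]
    rw [h2, Finset.card_univ, Fintype.card_fin] at h1
    rw [hT]
    omega
  have hle : m + 1 ≤ k := by omega
  refine ⟨fun s i => if s.val < m + 1 then (if s.val = i.val then 1 else 0) else
    - (Lagrange.basis T ξ s).eval (ξ (Fin.castLE hle i)), ?_, ?_⟩
  · intro s i hs
    simp only [if_pos hs]
  · intro r hr i
    rw [← Finset.sum_filter_add_sum_filter_not Finset.univ (fun s : Fin k => s.val < m + 1)]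
    have h1 : ∑ s ∈ Finset.univ.filter (fun s : Fin k => s.val < m + 1), ξ s ^ r *
        (if s.val < m + 1 then (if s.val = i.val then (1 : F) else 0) else
          - (Lagrange.basis T ξ s).eval (ξ (Fin.castLE hle i))) = ξ (Fin.castLE hle i) ^ r := by
      rw [Finset.sum_eq_single (Fin.castLE hle i)]
      · have h2 : (Fin.castLE hle i).val < m + 1 := i.isLt
        rw [if_pos h2, if_pos (Fin.val_castLE hle i), mul_one]
      · intro s hs hne
        have h2 : s.val < m + 1 := by simpa using hs
        rw [if_pos h2, if_neg, mul_zero]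
        intro h3
        exact hne (Fin.ext h3)
      · intro h
        exact absurd (Finset.mem_filter.2 ⟨Finset.mem_univ (Fin.castLE hle i), i.isLt⟩) h
    have h2 : ∑ s ∈ Finset.univ.filter (fun s : Fin k => ¬ s.val < m + 1), ξ s ^ r *
        (if s.val < m + 1 then (if s.val = i.val then (1 : F) else 0) else
          - (Lagrange.basis T ξ s).eval (ξ (Fin.castLE hle i))) =
          - ξ (Fin.castLE hle i) ^ r := by
      have h3 : (Polynomial.X ^ r : Polynomial F) =
          Lagrange.interpolate T ξ (fun s => (Polynomial.X ^ r : Polynomial F).eval (ξ s)) :=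
        Lagrange.eq_interpolate (hξ.injOn) (by
          rw [Polynomial.degree_X_pow, hcard]
          exact_mod_cast hr)
      have h4 := congrArg (Polynomial.eval (ξ (Fin.castLE hle i))) h3
      rw [Lagrange.interpolate_apply, Polynomial.eval_finsetSum, Polynomial.eval_pow,
        Polynomial.eval_X] at h4
      rw [h4, ← Finset.sum_neg_distrib]
      refine Finset.sum_congr rfl fun s hs => ?_
      have h5 : ¬ s.val < m + 1 := (Finset.mem_filter.1 hs).2
      rw [if_neg h5, Polynomial.eval_mul, Polynomial.eval_C, Polynomial.eval_pow,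
        Polynomial.eval_X, mul_neg]
    rw [h1, h2, add_neg_cancel]

theorem mo_add {m : ℕ} (c : Fin k → Fin (m + 1) → F) (x y : Fin k → ℕ) :
    mo c (x + y) = mo c x * mo c y := by
  unfold mo
  rw [← Finset.prod_mul_distrib]
  exact Finset.prod_congr rfl fun s _ => by rw [Pi.add_apply, pow_add]

theorem mo_ee {m : ℕ} (c : Fin k → Fin (m + 1) → F) (s : Fin k) : mo c (ee s) = lf c s := by
  unfold mo ee
  rw [Finset.prod_eq_single s]
  · simp
  · intro t _ hts
    rw [Pi.single_eq_of_ne hts, pow_zero]
  · intro h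
    exact absurd (Finset.mem_univ s) h

theorem sum_lf {m : ℕ} {ξ : Fin k → F} {c : Fin k → Fin (m + 1) → F} (hr : Rels d ξ c) {r : ℕ}
    (h : r < d) : ∑ s, (ξ s ^ r) • lf c s = 0 := by
  unfold lf
  calc ∑ s, (ξ s ^ r) • ∑ i, (MvPolynomial.C (c s i) * MvPolynomial.X i :
        MvPolynomial (Fin (m + 1)) F)
      = ∑ s, ∑ i, MvPolynomial.C (ξ s ^ r * c s i) * MvPolynomial.X i := by
        refine Finset.sum_congr rfl fun s _ => ?_
        rw [Finset.smul_sum]
        refine Finset.sum_congr rfl fun i _ => ?_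
        rw [MvPolynomial.smul_eq_C_mul, MvPolynomial.C_mul, mul_assoc]
    _ = ∑ i, MvPolynomial.C (∑ s, ξ s ^ r * c s i) * MvPolynomial.X i := by
        rw [Finset.sum_comm]
        refine Finset.sum_congr rfl fun i _ => ?_
        rw [map_sum, Finset.sum_mul]
    _ = 0 := by
        refine Finset.sum_eq_zero fun i _ => ?_
        rw [hr r h i, MvPolynomial.C_0, zero_mul]

/-- the exponent with zeros added at the end -/
def exq {m : ℕ} (k : ℕ) (α : Fin (m + 1) → ℕ) (s : Fin k) : ℕ :=
  if h : s.val < m + 1 then α ⟨s.val, h⟩ else 0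

theorem lf_var {m : ℕ} {c : Fin k → Fin (m + 1) → F} (hv : Vars c) (s : Fin k)
    (hs : s.val < m + 1) : lf c s = MvPolynomial.X ⟨s.val, hs⟩ := by
  unfold lf
  rw [Finset.sum_eq_single (⟨s.val, hs⟩ : Fin (m + 1))]
  · rw [hv s _ hs, if_pos rfl, MvPolynomial.C_1, one_mul]
  · intro i _ hi
    rw [hv s i hs, if_neg, MvPolynomial.C_0, zero_mul]
    intro h
    exact hi (Fin.ext h.symm)
  · intro h
    exact absurd (Finset.mem_univ _) h

theorem sum_low {m : ℕ} (hle : m + 1 ≤ k) (f : Fin k → ℕ)
    (hf : ∀ s : Fin k, ¬ s.val < m + 1 → f s = 0) :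
    ∑ s, f s = ∑ i : Fin (m + 1), f (Fin.castLE hle i) := by
  have h := Finset.sum_map (Finset.univ : Finset (Fin (m + 1))) (Fin.castLEEmb hle) f
  simp only [Fin.castLEEmb_apply] at h
  rw [← h]
  symm
  refine Finset.sum_subset (Finset.subset_univ _) fun s _ hs => hf s fun h1 => hs ?_
  rw [Finset.mem_map]
  exact ⟨⟨s.val, h1⟩, Finset.mem_univ _, rfl⟩

theorem prod_low {m : ℕ} (hle : m + 1 ≤ k) {A : Type} [CommMonoid A] (f : Fin k → A)
    (hf : ∀ s : Fin k, ¬ s.val < m + 1 → f s = 1) :
    ∏ s, f s = ∏ i : Fin (m + 1), f (Fin.castLE hle i) := by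
  have h := Finset.prod_map (Finset.univ : Finset (Fin (m + 1))) (Fin.castLEEmb hle) f
  simp only [Fin.castLEEmb_apply] at h
  rw [← h]
  symm
  refine Finset.prod_subset (Finset.subset_univ _) fun s _ hs => hf s fun h1 => hs ?_
  rw [Finset.mem_map]
  exact ⟨⟨s.val, h1⟩, Finset.mem_univ _, rfl⟩

theorem sum_exq {m : ℕ} (hle : m + 1 ≤ k) (α : Fin (m + 1) → ℕ) :
    ∑ s, exq k α s = ∑ i, α i := by
  rw [sum_low hle _ fun s hs => by rw [exq, dif_neg hs]]
  refine Finset.sum_congr rfl fun i _ => ?_
  have hi : (Fin.castLE hle i).val < m + 1 := i.isLt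
  rw [exq, dif_pos hi]
  rfl

theorem mo_exq {m : ℕ} (hle : m + 1 ≤ k) {c : Fin k → Fin (m + 1) → F} (hv : Vars c)
    (α : Fin (m + 1) → ℕ) :
    mo c (exq k α) = ∏ i, MvPolynomial.X i ^ α i := by
  unfold mo
  rw [prod_low hle _ fun s hs => by rw [exq, dif_neg hs, pow_zero]]
  refine Finset.prod_congr rfl fun i _ => ?_
  have hi : (Fin.castLE hle i).val < m + 1 := i.isLt
  rw [lf_var hv (Fin.castLE hle i) hi, exq, dif_pos hi]
  rfl

theorem rank_full [CharP F 2] {m N : ℕ} (hk : k = d + m + 1) (hd : 1 ≤ d) (hN : d ≤ N)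
    {ξ : Fin k → F} (hξ : Function.Injective ξ) {c : Fin k → Fin (m + 1) → F} (hv : Vars c)
    (hr : Rels d ξ c) (W : Finset (Fin k → ℕ)) (g : (Fin k → ℕ) → Fin k)
    (h1 : ∀ x, ∑ s, x s = N → x ∉ W → 1 ≤ x (g x))
    (h2 : ∀ y : Fin k → ℕ, ∑ s, y s + d = N → ∃ Γ : Finset (Fin k), Γ.card ≤ d ∧
      ∀ z : Fin k → ℕ, ∑ s, z s = d → y + z ∉ W → g (y + z) ∈ Γ) :
    (N + m).choose m ≤ rkc c W := by
  classical
  have hle : m + 1 ≤ k := by omega
  set Sp : Submodule F (MvPolynomial (Fin (m + 1)) F) :=
    Submodule.span F (mo c '' (W : Set (Fin k → ℕ))) with hSp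
  have hall : ∀ x : Fin k → ℕ, ∑ s, x s = N → mo c x ∈ Sp := by
    intro x0 hx0
    by_contra hcon
    obtain ⟨psi, hpsi, hker⟩ := Submodule.exists_le_ker_of_notMem hcon
    have H : Hyp d N ξ (W : Set (Fin k → ℕ)) g (fun x => psi (mo c x)) := by
      refine ⟨fun x hx hxW => h1 x hx (by simpa using hxW), fun y hy => ?_, fun y hy r hrd => ?_,
        fun x hx hxW => ?_⟩
      · obtain ⟨Γ, hΓ, hz⟩ := h2 y hy
        exact ⟨Γ, hΓ, fun z hz1 hz2 => hz z hz1 (by simpa using hz2)⟩
      · have h3 : ∑ s, (ξ s ^ r) • mo c (y + ee s) = 0 := by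
          calc ∑ s, (ξ s ^ r) • mo c (y + ee s) = ∑ s, mo c y * ((ξ s ^ r) • lf c s) :=
                Finset.sum_congr rfl fun s _ => by rw [mo_add, mo_ee, mul_smul_comm]
            _ = mo c y * ∑ s, (ξ s ^ r) • lf c s := by rw [Finset.mul_sum]
            _ = 0 := by rw [sum_lf hr hrd, mul_zero]
        have h4 := congrArg psi h3
        rw [map_sum, map_zero] at h4
        rw [← h4]
        exact Finset.sum_congr rfl fun s _ => by rw [map_smul, smul_eq_mul]
      · exact hker (Submodule.subset_span ⟨x, hxW, rfl⟩)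
    exact hpsi (spanD hd hN hξ H x0 hx0)
  -- the monomials of degree `N`
  let A : Finset (Fin (m + 1) →₀ ℕ) := Finset.finsuppAntidiag Finset.univ N
  have hA : A.card = (N + m).choose m := by
    rw [Finset.card_finsuppAntidiag_nat_eq_choose]
    simp only [Finset.card_univ, Fintype.card_fin]
    rw [show m + 1 + N - 1 = N + m by omega]
    exact Nat.choose_symm_add
  have hmem : ∀ a : A, (MvPolynomial.monomial a.1 (1 : F)) ∈ Sp := by
    intro a
    have ha : ∑ i, a.1 i = N := by
      have := a.2
      simp only [A, Finset.mem_finsuppAntidiag] at this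
      exact this.1
    have h := hall (exq k a.1) (by rw [sum_exq hle, ha])
    rw [mo_exq hle hv] at h
    have he : (MvPolynomial.monomial a.1 (1 : F)) =
        ∏ i, (MvPolynomial.X i : MvPolynomial (Fin (m + 1)) F) ^ a.1 i := by
      rw [MvPolynomial.monomial_eq, MvPolynomial.C_1, one_mul, Finsupp.prod_fintype]
      intro i
      rw [pow_zero]
    rw [he]
    exact h
  have hfin : Module.Finite F Sp := by
    rw [hSp]
    exact Module.Finite.span_of_finite F (W.finite_toSet.image _)
  have hli : LinearIndependent F (fun a : A => (⟨MvPolynomial.monomial a.1 (1 : F), hmem a⟩ :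
      Sp)) := by
    have h0 : LinearIndependent F (fun a : A => (MvPolynomial.monomial a.1 (1 : F) :
        MvPolynomial (Fin (m + 1)) F)) := by
      have hb := (MvPolynomial.basisMonomials (Fin (m + 1)) F).linearIndependent
      have hb' := hb.comp (fun a : A => a.1) Subtype.val_injective
      have he : (⇑(MvPolynomial.basisMonomials (Fin (m + 1)) F) ∘ fun a : A => a.1) =
          (fun a : A => (MvPolynomial.monomial a.1 (1 : F) : MvPolynomial (Fin (m + 1)) F)) := by
        funext a
        simp [MvPolynomial.coe_basisMonomials]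
      rw [he] at hb'
      exact hb'
    exact LinearIndependent.of_comp Sp.subtype h0
  have hcard := hli.fintype_card_le_finrank
  rw [Fintype.card_coe, hA] at hcard
  exact hcard

end

end SY
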