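import Pool.Agent.H27.SY.Chain
import Pool.Agent.H27.SY.Desc

/-!
# The spanning theorem (SY-5)
-/

set_option autoImplicit false

open MeasureTheory Metric Set Filter Module
open scoped Topology MeasureTheory RealInnerProductSpace Nat Pointwise

namespace SY

open SP SP.Mea SX

variable {F : Type} [Field F] {k d : ℕ}

theorem spanD [CharP F 2] {N : ℕ} (hd : 1 ≤ d) (hN : d ≤ N) {ξ : Fin k → F}
    (hξ : Function.Injective ξ) {W : Set (Fin k → ℕ)} {c : (Fin k → ℕ) → Fin k}
    {u : (Fin k → ℕ) → F} (H : Hyp d N ξ W c u) : ∀ x, ∑ s, x s = N → u x = 0 := by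
  intro x hx
  obtain ⟨w, h1, h2, h3, h4⟩ := chain hd hN hξ H
  have h5 := desc hd hξ w h1 h3 h4 (fun s => (x s : ℤ)) (fun n _ => Int.natCast_nonneg _)
  have h6 := congrArg ExteriorAlgebra.algebraMapInv (h2 x hx)
  rw [map_sum, h5, AlgHom.commutes] at h6
  exact h6.symm

end SY
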